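import Pool.Agent.DBX.SPR.Stmts

set_option autoImplicit false

namespace Pool.Agent.DBX.SPR

open MvPolynomial

noncomputable section

universe u v

namespace COR_

section Cd
variable {V : Type*} [LinearOrder V] {M : Type*} [AddCommGroup M]

/-- The sign. -/
def sgn (v : V) (σ : Finset V) : ℤ := (-1) ^ (σ.filter (fun w => w < v)).card

theorem sgn_erase_of_lt {v w : V} {σ : Finset V} (hw : w ∈ σ) (h : w < v) :
    sgn v (σ.erase w) = - sgn v σ := by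
  unfold sgn
  have h1 : (σ.erase w).filter (fun u => u < v) = (σ.filter (fun u => u < v)).erase w := by
    ext u; simp only [Finset.mem_filter, Finset.mem_erase]; tauto
  have h2 : w ∈ σ.filter (fun u => u < v) := Finset.mem_filter.2 ⟨hw, h⟩
  have h3 := Finset.card_erase_add_one h2
  rw [h1, ← h3, pow_succ]
  ring

theorem sgn_erase_of_not_lt {v w : V} {σ : Finset V} (h : ¬ w < v) :
    sgn v (σ.erase w) = sgn v σ := by
  unfold sgn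
  have h1 : (σ.erase w).filter (fun u => u < v) = σ.filter (fun u => u < v) := by
    ext u
    simp only [Finset.mem_filter, Finset.mem_erase]
    constructor
    · rintro ⟨⟨_, a⟩, b⟩; exact ⟨a, b⟩
    · rintro ⟨a, b⟩
      refine ⟨⟨?_, a⟩, b⟩
      rintro rfl; exact h b
  rw [h1]

theorem sgn_swap {v w : V} {σ : Finset V} (hv : v ∈ σ) (hw : w ∈ σ) (h : v ≠ w) :
    sgn v σ * sgn w (σ.erase v) = - (sgn w σ * sgn v (σ.erase w)) := by
  rcases lt_or_gt_of_ne h with h' | h'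
  · rw [sgn_erase_of_lt hv h', sgn_erase_of_not_lt (not_lt.2 h'.le)]
    ring
  · rw [sgn_erase_of_not_lt (not_lt.2 h'.le), sgn_erase_of_lt hw h']
    ring

theorem cd_cd (x : Finset V → M) : cd (cd x) = 0 := by
  funext σ
  change ∑ v ∈ σ, sgn v σ • ∑ w ∈ σ.erase v, sgn w (σ.erase v) • x ((σ.erase v).erase w) = 0
  have h1 : ∀ v ∈ σ, sgn v σ • ∑ w ∈ σ.erase v, sgn w (σ.erase v) • x ((σ.erase v).erase w) =
      ∑ w ∈ σ.erase v, (sgn v σ * sgn w (σ.erase v)) • x ((σ.erase v).erase w) := by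
    intro v _
    rw [Finset.smul_sum]
    exact Finset.sum_congr rfl (fun w _ => by rw [smul_smul])
  rw [Finset.sum_congr rfl h1, Finset.sum_sigma']
  refine Finset.sum_involution (fun p _ => (⟨p.2, p.1⟩ : Σ _ : V, V)) ?_ ?_ ?_ ?_
  · rintro ⟨v, w⟩ hp
    simp only [Finset.mem_sigma, Finset.mem_erase] at hp
    obtain ⟨hv, hwv, hw⟩ := hp
    change (sgn v σ * sgn w (σ.erase v)) • x ((σ.erase v).erase w) +
      (sgn w σ * sgn v (σ.erase w)) • x ((σ.erase w).erase v) = 0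
    rw [sgn_swap hv hw (Ne.symm hwv), Finset.erase_right_comm, neg_smul]
    exact neg_add_cancel _
  · rintro ⟨v, w⟩ hp _ h
    simp only [Finset.mem_sigma, Finset.mem_erase] at hp
    obtain ⟨hv, hwv, hw⟩ := hp
    have h' : w = v := congrArg Sigma.fst h
    exact hwv h'
  · rintro ⟨v, w⟩ hp
    simp only [Finset.mem_sigma, Finset.mem_erase] at hp ⊢
    obtain ⟨hv, hwv, hw⟩ := hp
    exact ⟨hw, Ne.symm hwv, hv⟩
  · rintro ⟨v, w⟩ _
    rfl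

end Cd

section
variable {Λ : Type u} {X : Type v} [CommRing Λ] [AddCommGroup X] [Module Λ X] {m : ℕ}

theorem le_sat (f : Λ) (C : Submodule Λ X) : C ≤ sat f C :=
  fun x hx => ⟨0, by simpa using hx⟩

theorem sat_mono (f : Λ) {C D : Submodule Λ X} (h : C ≤ D) : sat f C ≤ sat f D := by
  rintro x ⟨e, he⟩
  exact ⟨e, h he⟩

theorem Cc_mono {O O' : Finset (Fin m) → Submodule Λ X}
    (h : ∀ σ, σ.Nonempty → O' σ ≤ O σ) : Cc O' ≤ Cc O :=
  fun _ hx => ⟨hx.1, fun σ hσ => h σ hσ (hx.2 σ hσ)⟩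

theorem Zc_mono {O O' : Finset (Fin m) → Submodule Λ X}
    (h : ∀ σ, σ.Nonempty → O' σ ≤ O σ) : Zc O' ≤ Zc O :=
  inf_le_inf_right _ (Cc_mono h)

theorem cd_mem {O : Finset (Fin m) → Submodule Λ X}
    (hm : ∀ σ τ, σ.Nonempty → σ ⊆ τ → O σ ≤ O τ) {y : Finset (Fin m) → X} (hy : y ∈ Cc O) :
    cd y ∈ Cc O := by
  refine ⟨by simp [cd], fun σ _ => ?_⟩
  refine (O σ).sum_mem fun v hv => ?_
  refine (O σ).smul_of_tower_mem _ ?_
  by_cases h : (σ.erase v).Nonempty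
  · exact hm _ _ h (Finset.erase_subset _ _) (hy.2 _ h)
  · rw [Finset.not_nonempty_iff_eq_empty.1 h, hy.1]
    exact (O σ).zero_mem

theorem Bc_le_Zc {O : Finset (Fin m) → Submodule Λ X}
    (hm : ∀ σ τ, σ.Nonempty → σ ⊆ τ → O σ ≤ O τ) : Bc O ≤ Zc O := by
  rintro _ ⟨y, hy, rfl⟩
  exact ⟨cd_mem hm hy, LinearMap.mem_ker.2 (cd_cd y)⟩

theorem exists_pow_Cc (f : Λ) (O : Finset (Fin m) → Submodule Λ X) (z : Finset (Fin m) → X)
    (hz : z ∈ Cc (fun σ => sat f (O σ))) : ∃ e : ℕ, ∀ e', e ≤ e' → f ^ e' • z ∈ Cc O := by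
  have h1 : ∀ σ : Finset (Fin m), ∃ e : ℕ, σ.Nonempty → f ^ e • z σ ∈ O σ := by
    intro σ
    by_cases h : σ.Nonempty
    · obtain ⟨e, he⟩ := hz.2 σ h
      exact ⟨e, fun _ => he⟩
    · exact ⟨0, fun h' => absurd h' h⟩
  choose E hE using h1
  refine ⟨Finset.univ.sup E, fun e' he' => ⟨?_, fun σ hσ => ?_⟩⟩
  · rw [Pi.smul_apply, hz.1, smul_zero]
  · have h2 : E σ ≤ e' := le_trans (Finset.le_sup (Finset.mem_univ σ)) he'
    obtain ⟨c, rfl⟩ := Nat.exists_eq_add_of_le h2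
    rw [Pi.smul_apply, add_comm, pow_add, mul_smul]
    exact (O σ).smul_mem _ (hE σ hσ)

theorem exists_pow_Zc (f : Λ) (O : Finset (Fin m) → Submodule Λ X) (z : Finset (Fin m) → X)
    (hz : z ∈ Zc (fun σ => sat f (O σ))) : ∃ e : ℕ, ∀ e', e ≤ e' → f ^ e' • z ∈ Zc O := by
  obtain ⟨e, he⟩ := exists_pow_Cc f O z hz.1
  exact ⟨e, fun e' he' => ⟨he e' he', (LinearMap.ker (cdL Λ X m)).smul_mem _ hz.2⟩⟩

theorem exists_pow_smul (f : Λ) (J : Ideal Λ) (O : Finset (Fin m) → Submodule Λ X)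
    (x : Finset (Fin m) → X) (hx : x ∈ J • Zc (fun σ => sat f (O σ))) :
    ∃ e : ℕ, ∀ e', e ≤ e' → f ^ e' • x ∈ J • Zc O := by
  refine Submodule.smul_induction_on hx ?_ ?_
  · intro r hr n hn
    obtain ⟨e, he⟩ := exists_pow_Zc f O n hn
    refine ⟨e, fun e' he' => ?_⟩
    rw [smul_comm]
    exact Submodule.smul_mem_smul hr (he e' he')
  · rintro a b ⟨e, he⟩ ⟨e', he'⟩
    refine ⟨max e e', fun e'' h => ?_⟩
    rw [smul_add]
    exact (J • Zc O).add_mem (he _ (le_trans (le_max_left _ _) h))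
      (he' _ (le_trans (le_max_right _ _) h))

theorem map_mem (J : Ideal Λ) (Z : Submodule Λ X) (μ : Z →ₗ[Λ] Λ) (x : X) (hx : x ∈ J • Z) :
    ∃ hx' : x ∈ Z, μ ⟨x, hx'⟩ ∈ J := by
  refine Submodule.smul_induction_on (p := fun x => ∃ hx' : x ∈ Z, μ ⟨x, hx'⟩ ∈ J) hx ?_ ?_
  · intro r hr n hn
    refine ⟨Z.smul_mem r hn, ?_⟩
    have h : (⟨r • n, Z.smul_mem r hn⟩ : Z) = r • ⟨n, hn⟩ := rfl
    rw [h, map_smul, smul_eq_mul]
    exact J.mul_mem_right _ hr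
  · rintro a b ⟨ha', ha⟩ ⟨hb', hb⟩
    refine ⟨Z.add_mem ha' hb', ?_⟩
    have h : (⟨a + b, Z.add_mem ha' hb'⟩ : Z) = ⟨a, ha'⟩ + ⟨b, hb'⟩ := rfl
    rw [h, map_add]
    exact J.add_mem ha hb

end

end COR_

theorem cor_proof (hSFL : Stmt_SFL.{u, v}) (hFLS : Stmt_FLS.{u, v}) (hFLC : Stmt_FLC.{u, v})
    (hFNC : Stmt_FNC.{u, v}) : Stmt_COR.{u, v} := by
  intro Λ X _ _ _ _ _ m O O' hbij hm hm' hle hfl hfl' hfin hfin' z hz H
  by_contra hcon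
  push Not at hcon
  obtain ⟨G, hG1, hG2⟩ := hfin
  have hBZ : Bc O ≤ Zc O := COR_.Bc_le_Zc hm
  obtain ⟨μ, b, hb0, hμB, hμz⟩ := hFNC Λ (Finset (Fin m) → X) (Zc O) (Zc O' ⊔ Bc O) G
    (hG2.trans (sup_le_sup_left le_sup_right _)) z hz (fun a ha => hcon a ha)
    (fun x hx => hG1 x hx)
  obtain ⟨f1, hf1, hF1⟩ := hSFL Λ X m O hbij hm ⟨G, hG1, hG2⟩
  obtain ⟨f2, hf2, hF2⟩ := hSFL Λ X m O' hbij hm' hfin'
  have hf0 : f1 * f2 * b ≠ 0 := mul_ne_zero (mul_ne_zero hf1 hf2) hb0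
  obtain ⟨f, hf⟩ : ∃ f, f = f1 * f2 * b := ⟨_, rfl⟩
  rw [← hf] at hf0
  have hfl1 := hF1 f (by rw [hf, mul_assoc]; exact dvd_mul_right _ _) hf0
  have hfl2 := hF2 f (by rw [hf, mul_assoc, mul_left_comm]; exact dvd_mul_right _ _) hf0
  obtain ⟨J, hJ, hfJ, z', hz', y, hy, hcz, hzz⟩ := H f hf0
  have hfb := hbij f hf0
  -- the saturated systems
  have hM : ∀ σ τ : Finset (Fin m), σ.Nonempty → σ ⊆ τ → sat f (O σ) ≤ sat f (O τ) :=
    fun σ τ h1 h2 => COR_.sat_mono f (hm σ τ h1 h2)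
  have hM' : ∀ σ τ : Finset (Fin m), σ.Nonempty → σ ⊆ τ → sat f (O' σ) ≤ sat f (O' τ) :=
    fun σ τ h1 h2 => COR_.sat_mono f (hm' σ τ h1 h2)
  have hC := hFLC Λ X m (fun σ => sat f (O σ)) hM
    (fun σ hσ => hFLS Λ X f (O σ) hfb (hfl σ hσ)) hfl1 J
  have hC' := hFLC Λ X m (fun σ => sat f (O' σ)) hM'
    (fun σ hσ => hFLS Λ X f (O' σ) hfb (hfl' σ hσ)) hfl2 J
  obtain ⟨z'', hz'', hzd⟩ := hC'.1 z' (COR_.Cc_mono (fun σ _ => COR_.le_sat f (O' σ)) hz')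
    (fun σ hσ => Submodule.smul_mono le_rfl (COR_.le_sat f (O' σ)) (hcz σ hσ))
  have hx1 : z - z'' - cd y ∈ Zc (fun σ => sat f (O σ)) := by
    refine Submodule.sub_mem _ (Submodule.sub_mem _ ?_ ?_) ?_
    · exact COR_.Zc_mono (fun σ _ => COR_.le_sat f (O σ)) hz
    · exact COR_.Zc_mono (fun σ hσ => COR_.sat_mono f (hle σ hσ)) hz''
    · exact COR_.Zc_mono (fun σ _ => COR_.le_sat f (O σ)) (hBZ ⟨y, hy, rfl⟩)
  have hx2 : ∀ σ : Finset (Fin m), σ.Nonempty → (z - z'' - cd y) σ ∈ J • sat f (O σ) := by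
    intro σ hσ
    have h1 : (z - z'' - cd y) σ = (z σ - z' σ - cd y σ) + (z' σ - z'' σ) := by
      simp only [Pi.sub_apply]; abel
    rw [h1]
    refine Submodule.add_mem _ ?_ ?_
    · exact Submodule.smul_mono le_rfl (COR_.le_sat f (O σ)) (hzz σ hσ)
    · exact Submodule.smul_mono le_rfl (COR_.sat_mono f (hle σ hσ)) (hzd σ hσ)
  have hx3 := hC.2 _ hx1 hx2
  obtain ⟨e1, he1⟩ := COR_.exists_pow_smul f J O _ hx3
  obtain ⟨e2, he2⟩ := COR_.exists_pow_Zc f O' z'' hz''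
  obtain ⟨e, h1e, h2e⟩ : ∃ e, e1 ≤ e ∧ e2 ≤ e := ⟨max e1 e2, le_max_left _ _, le_max_right _ _⟩
  obtain ⟨hx4, hx5⟩ := COR_.map_mem J (Zc O) μ _ (he1 e h1e)
  have hw : f ^ e • z'' + f ^ e • cd y ∈ Zc O' ⊔ Bc O :=
    Submodule.add_mem _ ((le_sup_left : Zc O' ≤ Zc O' ⊔ Bc O) (he2 e h2e))
      ((le_sup_right : Bc O ≤ Zc O' ⊔ Bc O) ((Bc O).smul_mem _ ⟨y, hy, rfl⟩))
  have hwZ : f ^ e • z'' + f ^ e • cd y ∈ Zc O :=
    sup_le (COR_.Zc_mono hle) hBZ hw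
  have h6 : μ ⟨_, hwZ⟩ = 0 := hμB ⟨_, hwZ⟩ hw
  have h7 : f ^ e • (⟨z, hz⟩ : Zc O) = ⟨_, hwZ⟩ + ⟨_, hx4⟩ := by
    apply Subtype.ext
    change f ^ e • z = (f ^ e • z'' + f ^ e • cd y) + f ^ e • (z - z'' - cd y)
    rw [smul_sub, smul_sub]; abel
  have h8 : f ^ e * b ∈ J := by
    have h9 := congrArg μ h7
    rw [map_smul, map_add, h6, zero_add, hμz ⟨z, hz⟩ rfl, smul_eq_mul] at h9
    rw [h9]; exact hx5
  apply hfJ
  rcases hJ.mem_or_mem h8 with h | h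
  · exact hJ.mem_of_pow_mem _ h
  · rw [hf]; exact J.mul_mem_left _ h

end

end Pool.Agent.DBX.SPR
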