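import Pool.Agent.DBX.SPR.Stmts

set_option autoImplicit false

/-! # DBX/SPR/EAL: étale coordinates: every nonzero element divides a nonzero polynomial in
the coordinates -/

namespace Pool.Agent.DBX.SPR

namespace EAL_

open TensorProduct

universe u

theorem algebraic (R A : Type u) [CommRing R] [IsDomain R] [CommRing A] [Algebra R A]
    [Algebra.Etale R A] (s : A) : IsAlgebraic R s := by
  have hfin : Module.Finite (FractionRing R) (FractionRing R ⊗[R] A) :=
    Algebra.FormallyUnramified.finite_of_free _ _
  have hint : IsIntegral (FractionRing R) ((1 : FractionRing R) ⊗ₜ[R] s) :=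
    Algebra.IsIntegral.isIntegral _
  have hal : IsAlgebraic R ((1 : FractionRing R) ⊗ₜ[R] s) :=
    (IsFractionRing.isAlgebraic_iff R (FractionRing R) (FractionRing R ⊗[R] A)).2 hint.isAlgebraic
  have hinj : Function.Injective
      (Algebra.TensorProduct.includeRight : A →ₐ[R] FractionRing R ⊗[R] A) :=
    Algebra.TensorProduct.includeRight_injective (IsFractionRing.injective R (FractionRing R))
  exact (isAlgebraic_algHom_iff _ hinj).1 hal

end EAL_

universe u

theorem eal_proof : Stmt_EAL.{u} := by
  intro K L _ _ _ N A t het s hs hs0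
  algebraize [(MvPolynomial.aeval (R := K) t).toRingHom]
  have h := EAL_.algebraic (MvPolynomial (Fin N) K) A (⟨s, hs⟩ : A)
  obtain ⟨q, hq, ⟨y, hy⟩⟩ := h.exists_nonzero_dvd (mem_nonZeroDivisors_of_ne_zero
    (fun h => hs0 (congrArg Subtype.val h)))
  refine ⟨q, hq, y, y.2, ?_⟩
  have h1 : algebraMap (MvPolynomial (Fin N) K) A q = MvPolynomial.aeval t q := rfl
  rw [h1] at hy
  have h2 : ((MvPolynomial.aeval t q : A) : L) = s * y := congrArg Subtype.val hy
  rw [← h2]
  have h3 : (A.val.comp (MvPolynomial.aeval t)) = MvPolynomial.aeval (fun i => (t i : L)) := by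
    ext i
    simp
  rw [← h3]
  rfl

end Pool.Agent.DBX.SPR
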