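import Pool.Agent.DBX.SPR.Stmts

set_option autoImplicit false

/-! # MP_2c751f_ag, squad DBX, area SPR: module EFL -/

namespace Pool.Agent.DBX.SPR

open MvPolynomial

namespace EFL_

theorem fwd {Λ L : Type*} [CommRing Λ] [Field L] [Algebra Λ L] {N : ℕ} (A : Subalgebra Λ L)
    [Algebra (MvPolynomial (Fin N) Λ) A] [IsScalarTower Λ (MvPolynomial (Fin N) Λ) A]
    (J : Ideal Λ) (z : L) (hz : z ∈ J • Subalgebra.toSubmodule A) :
    ∃ h : z ∈ A, (⟨z, h⟩ : A) ∈ (J.map (C : Λ →+* MvPolynomial (Fin N) Λ)) •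
      (⊤ : Submodule (MvPolynomial (Fin N) Λ) A) := by
  refine Submodule.smul_induction_on hz ?_ ?_
  · intro j hj n hn
    have hn' : n ∈ A := hn
    refine ⟨A.smul_mem hn' j, ?_⟩
    have h1 : (⟨j • n, A.smul_mem hn' j⟩ : A) = (C j : MvPolynomial (Fin N) Λ) • (⟨n, hn'⟩ : A) := by
      have h2 : (C j : MvPolynomial (Fin N) Λ) = algebraMap Λ (MvPolynomial (Fin N) Λ) j := rfl
      rw [h2, algebraMap_smul]
      rfl
    rw [h1]
    exact Submodule.smul_mem_smul (Ideal.mem_map_of_mem _ hj) trivial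
  · rintro x y ⟨hx, hx'⟩ ⟨hy, hy'⟩
    exact ⟨A.add_mem hx hy, Submodule.add_mem _ hx' hy'⟩

theorem bwd {Λ L : Type*} [CommRing Λ] [Field L] [Algebra Λ L] {N : ℕ} (A : Subalgebra Λ L)
    [Algebra (MvPolynomial (Fin N) Λ) A] [IsScalarTower Λ (MvPolynomial (Fin N) Λ) A]
    (J : Ideal Λ) (a : A) (ha : a ∈ (J.map (C : Λ →+* MvPolynomial (Fin N) Λ)) •
      (⊤ : Submodule (MvPolynomial (Fin N) Λ) A)) :
    (a : L) ∈ J • Subalgebra.toSubmodule A := by
  refine Submodule.smul_induction_on ha ?_ ?_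
  · intro r hr n _
    rw [MvPolynomial.mem_map_C_iff] at hr
    have h1 : r • n = ∑ e ∈ r.support, (r.coeff e) • ((monomial e (1 : Λ)) • n) := by
      conv_lhs => rw [r.as_sum, Finset.sum_smul]
      refine Finset.sum_congr rfl (fun e _ => ?_)
      rw [← smul_assoc, MvPolynomial.smul_monomial, smul_eq_mul, mul_one]
    rw [h1, AddSubmonoidClass.coe_finsetSum]
    refine Submodule.sum_mem _ (fun e _ => ?_)
    change (r.coeff e) • (((monomial e (1 : Λ)) • n : A) : L) ∈ _
    exact Submodule.smul_mem_smul (hr e) (Subtype.property _)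
  · intro x y hx hy
    exact Submodule.add_mem _ hx hy

end EFL_

universe u

theorem efl_proof (hFLN : Stmt_FLN.{u, u}) : Stmt_EFL.{u} := by
  intro Λ L _ _ _ N A t ht
  let algRA : Algebra (MvPolynomial (Fin N) Λ) A :=
    (MvPolynomial.aeval (R := Λ) t).toRingHom.toAlgebra
  have et : Algebra.Etale (MvPolynomial (Fin N) Λ) A := ht
  have tow : IsScalarTower Λ (MvPolynomial (Fin N) Λ) A := by
    refine IsScalarTower.of_algebraMap_eq (fun r => ?_)
    exact (AlgHom.commutes (MvPolynomial.aeval (R := Λ) t) r).symm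
  have flat1 : Module.Flat (MvPolynomial (Fin N) Λ) A := inferInstance
  have flat2 : Module.Flat Λ A := Module.Flat.trans Λ (MvPolynomial (Fin N) Λ) A
  refine ⟨flat2, ?_⟩
  intro J q hq x hx hqx
  have h1 := hFLN (MvPolynomial (Fin N) Λ) A flat1 (J.map C) q (fun g hg => by
    rw [MvPolynomial.mem_map_C_iff] at hg ⊢
    exact hq g hg) ⟨x, hx⟩ (by
    obtain ⟨h2, h3⟩ := EFL_.fwd (N := N) A J _ hqx
    convert h3 using 1
    apply Subtype.ext
    change (((MvPolynomial.aeval (R := Λ) t) q * (⟨x, hx⟩ : A) : A) : L) = _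
    rw [MulMemClass.coe_mul]
    congr 1
    have h4 : (A.val).comp (MvPolynomial.aeval (R := Λ) t) =
        MvPolynomial.aeval (fun i => (t i : L)) := by
      apply MvPolynomial.algHom_ext
      intro i
      simp
    exact congrArg (fun f => f q) h4)
  exact EFL_.bwd A J _ h1

end Pool.Agent.DBX.SPR
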