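import Pool.Agent.DBX.SPR.Stmts

/-!
# MP_2c751f_ag, area SPR: descent of etale coordinates
-/

set_option autoImplicit false

namespace Pool.Agent.DBX.SPR

open MvPolynomial

noncomputable section

universe u v w

namespace ET1_

open TensorProduct

theorem desc (K L : Type u) [Field K] [Field L] [Algebra K L] (N : ℕ) (A : Subalgebra K L)
    (t : Fin N → A) (h : (MvPolynomial.aeval (R := K) t).toRingHom.Etale) :
    ∃ (R0 : Subalgebra ℤ (MvPolynomial (Fin N) K)) (B0 : Type u) (_ : CommRing B0)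
      (_ : Algebra R0 B0), R0.FG ∧ Algebra.Etale R0 B0 ∧
      ∃ Ψ : (MvPolynomial (Fin N) K) ⊗[R0] B0 →+* L, Function.Injective Ψ ∧
        (∀ x, x ∈ A ↔ ∃ z, Ψ z = x) ∧
        ∀ r, Ψ (r ⊗ₜ 1) = MvPolynomial.aeval (fun i => (t i : L)) r := by
  let _ : Algebra (MvPolynomial (Fin N) K) A := (MvPolynomial.aeval (R := K) t).toRingHom.toAlgebra
  have hE : Algebra.Etale (MvPolynomial (Fin N) K) A := h
  obtain ⟨R0, B0, i1, i2, h1, h2, ⟨e⟩⟩ := Algebra.Etale.exists_subalgebra_fg ℤ
    (MvPolynomial (Fin N) K) A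
  refine ⟨R0, B0, i1, i2, h1, h2, (A.val.toRingHom).comp (e.symm : _ →+* A), ?_, ?_, ?_⟩
  · intro x y hxy
    have : ((e.symm x : A) : L) = ((e.symm y : A) : L) := hxy
    exact e.symm.injective (Subtype.ext this)
  · intro x
    constructor
    · intro hx
      refine ⟨e ⟨x, hx⟩, ?_⟩
      show ((e.symm (e ⟨x, hx⟩) : A) : L) = x
      rw [e.symm_apply_apply]
    · rintro ⟨z, rfl⟩
      exact (e.symm z).2
  · intro r
    show ((e.symm (r ⊗ₜ 1) : A) : L) = _
    have h3 : e.symm (algebraMap (MvPolynomial (Fin N) K) _ r) =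
      algebraMap (MvPolynomial (Fin N) K) A r := e.symm.commutes r
    rw [Algebra.TensorProduct.algebraMap_apply] at h3
    have h4 : (algebraMap (MvPolynomial (Fin N) K) (MvPolynomial (Fin N) K)) r = r := rfl
    rw [h4] at h3
    rw [h3]
    show ((MvPolynomial.aeval (R := K) t r : A) : L) = _
    have := MvPolynomial.aeval_algebraMap_apply (B := L) t r
    exact this.symm

/-- generators of a tensor product -/
theorem gens {R B : Type u} {R0 : Type u} [CommRing R] [CommRing B] [CommRing R0] [Algebra R0 R]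
    [Algebra R0 B] {L : Type u} [CommRing L] (Ψ : R ⊗[R0] B →+* L) (T : Subring L)
    (bs : Set B) (hbs : Algebra.adjoin R0 bs = ⊤) (h1 : ∀ r : R, Ψ (r ⊗ₜ 1) ∈ T)
    (h2 : ∀ b ∈ bs, Ψ (1 ⊗ₜ b) ∈ T) (z : R ⊗[R0] B) : Ψ z ∈ T := by
  have h3 : ∀ b : B, Ψ (1 ⊗ₜ b) ∈ T := by
    intro b
    have hb : b ∈ Algebra.adjoin R0 bs := by rw [hbs]; trivial
    induction hb using Algebra.adjoin_induction with
    | mem x hx => exact h2 x hx
    | algebraMap r =>
      have : (1 : R) ⊗ₜ[R0] (algebraMap R0 B r) = (algebraMap R0 R r) ⊗ₜ[R0] (1 : B) := by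
        rw [Algebra.algebraMap_eq_smul_one, Algebra.algebraMap_eq_smul_one,
          TensorProduct.smul_tmul]
      rw [this]
      exact h1 _
    | add x y _ _ hx hy =>
      rw [TensorProduct.tmul_add, map_add]
      exact T.add_mem hx hy
    | mul x y _ _ hx hy =>
      have : (1 : R) ⊗ₜ[R0] (x * y) = ((1 : R) ⊗ₜ[R0] x) * ((1 : R) ⊗ₜ[R0] y) := by
        rw [Algebra.TensorProduct.tmul_mul_tmul, one_mul]
      rw [this, map_mul]
      exact T.mul_mem hx hy
  induction z using TensorProduct.induction_on with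
  | zero => rw [map_zero]; exact T.zero_mem
  | tmul r b =>
    have : r ⊗ₜ[R0] b = (r ⊗ₜ[R0] (1 : B)) * ((1 : R) ⊗ₜ[R0] b) := by
      rw [Algebra.TensorProduct.tmul_mul_tmul, one_mul, mul_one]
    rw [this, map_mul]
    exact T.mul_mem (h1 r) (h3 b)
  | add x y hx hy => rw [map_add]; exact T.add_mem hx hy

theorem et_base {R0 R B T : Type u} [CommRing R0] [CommRing R] [CommRing B] [CommRing T]
    [Algebra R0 R] [Algebra R0 B] [Algebra.Etale R0 B] (Φ : R ⊗[R0] B →+* T)
    (hΦ : Function.Bijective Φ) (f : R →+* T) (hf : ∀ r, f r = Φ (r ⊗ₜ 1)) : f.Etale := by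
  have h1 : (algebraMap R (R ⊗[R0] B)).Etale := RingHom.etale_algebraMap.2 inferInstance
  have h2 := RingHom.Etale.respectsIso.1 _ (RingEquiv.ofBijective Φ hΦ) h1
  have h3 : f = (RingEquiv.ofBijective Φ hΦ).toRingHom.comp (algebraMap R (R ⊗[R0] B)) :=
    RingHom.ext hf
  rw [h3]
  exact h2

end ET1_

open ET1_ TensorProduct in
theorem et1_proof : Stmt_ET1.{u} := by
  intro K L _ _ _ N A t hE
  obtain ⟨R0, B0, i1, i2, ⟨G0, hG0⟩, hB0, Ψ, hinj, hA, hΨ⟩ := desc K L N A t hE
  have hft : Algebra.FiniteType R0 B0 := inferInstance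
  obtain ⟨bs, hbs⟩ := hft.out
  classical
  -- the finite sets
  let F : Finset K := G0.biUnion (fun g => g.support.image g.coeff)
  let S : Finset L := (Finset.univ.image (fun i => (t i : L))) ∪
    bs.image (fun b => Ψ (1 ⊗ₜ b))
  have htS : ∀ i, (t i : L) ∈ (S : Set L) := fun i => by
    simp [S]
  have hbS : ∀ b ∈ bs, Ψ (1 ⊗ₜ b) ∈ (S : Set L) := fun b hb => by
    simp only [S, Finset.coe_union, Finset.coe_image, Set.mem_union, Set.mem_image]
    exact Or.inr ⟨b, hb, rfl⟩
  have hSA : (S : Set L) ⊆ A := by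
    intro x hx
    simp only [S, Finset.coe_union, Finset.coe_image, Set.mem_union, Set.mem_image] at hx
    rcases hx with ⟨i, -, rfl⟩ | ⟨b, -, rfl⟩
    · exact (t i).2
    · exact (hA _).2 ⟨_, rfl⟩
  refine ⟨F, S, hSA, ?_, ?_⟩
  · apply le_antisymm (Algebra.adjoin_le hSA)
    intro x hx
    obtain ⟨z, rfl⟩ := (hA x).1 hx
    refine gens Ψ (Algebra.adjoin K (S : Set L)).toSubring (bs : Set B0) hbs ?_ ?_ z
    · intro r
      rw [hΨ r]
      show MvPolynomial.aeval (fun i => (t i : L)) r ∈ Algebra.adjoin K (S : Set L)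
      induction r using MvPolynomial.induction_on with
      | C a =>
        rw [MvPolynomial.aeval_C]
        exact (Algebra.adjoin K (S : Set L)).algebraMap_mem a
      | add p q hp hq => rw [map_add]; exact (Algebra.adjoin K (S : Set L)).add_mem hp hq
      | mul_X p i hp =>
        rw [map_mul, MvPolynomial.aeval_X]
        exact (Algebra.adjoin K (S : Set L)).mul_mem hp (Algebra.subset_adjoin (htS i))
    · intro b hb
      exact Algebra.subset_adjoin (hbS b hb)
  · intro Λ hF
    refine ⟨fun i => Algebra.subset_adjoin (htS i), ?_⟩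
    -- the inclusion R0 → Λ[X]
    let j : MvPolynomial (Fin N) Λ →+* MvPolynomial (Fin N) K :=
      MvPolynomial.map (algebraMap Λ K)
    have hj : Function.Injective j := MvPolynomial.map_injective _ Subtype.val_injective
    have hR0 : ∀ r : R0, ∃ p, j p = r := by
      intro r
      have hr : (r : MvPolynomial (Fin N) K) ∈ Algebra.adjoin ℤ (G0 : Set _) := by
        rw [hG0]; exact r.2
      have hle : Algebra.adjoin ℤ (G0 : Set (MvPolynomial (Fin N) K)) ≤
          (RingHom.toIntAlgHom j).range := by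
        apply Algebra.adjoin_le
        intro g hg
        have : g ∈ Set.range (MvPolynomial.map (σ := Fin N) (algebraMap Λ K)) := by
          rw [MvPolynomial.mem_range_map_iff_coeffs_subset]
          intro c hc
          rw [Finset.mem_coe, MvPolynomial.mem_coeffs_iff] at hc
          obtain ⟨n, hn, rfl⟩ := hc
          refine ⟨⟨g.coeff n, hF ?_⟩, rfl⟩
          simp only [F, Finset.coe_biUnion, Set.mem_iUnion]
          refine ⟨g, hg, ?_⟩
          simp only [Finset.coe_image]
          exact ⟨n, hn, rfl⟩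
        obtain ⟨p, hp⟩ := this
        exact ⟨p, hp⟩
      obtain ⟨p, hp⟩ := hle hr
      exact ⟨p, hp⟩
    choose i0 hi0 using hR0
    let i0h : R0 →+* MvPolynomial (Fin N) Λ :=
      { toFun := i0
        map_one' := hj (by rw [hi0, map_one]; rfl)
        map_mul' := fun x y => hj (by rw [hi0, map_mul, hi0, hi0]; rfl)
        map_zero' := hj (by rw [hi0, map_zero]; rfl)
        map_add' := fun x y => hj (by rw [hi0, map_add, hi0, hi0]; rfl) }
    let _ : Algebra R0 (MvPolynomial (Fin N) Λ) := i0h.toAlgebra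
    let j0 : MvPolynomial (Fin N) Λ →ₐ[R0] MvPolynomial (Fin N) K :=
      { j with commutes' := fun r => hi0 r }
    have hj0 : Function.Injective j0 := hj
    let m : (MvPolynomial (Fin N) Λ) ⊗[R0] B0 →ₐ[R0] (MvPolynomial (Fin N) K) ⊗[R0] B0 :=
      Algebra.TensorProduct.map j0 (AlgHom.id R0 B0)
    have hm : Function.Injective m := by
      have h1 := Module.Flat.rTensor_preserves_injective_linearMap (M := B0)
        (j0.toLinearMap) hj0
      have h2 : (m : _ → _) = (j0.toLinearMap).rTensor B0 := rfl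
      rw [h2]
      exact h1
    let Φ : (MvPolynomial (Fin N) Λ) ⊗[R0] B0 →+* L := Ψ.comp m.toRingHom
    have hΦ1 : ∀ r : MvPolynomial (Fin N) Λ, Φ (r ⊗ₜ 1) =
        MvPolynomial.aeval (fun i => (t i : L)) r := by
      intro r
      have h1 : Φ (r ⊗ₜ 1) = Ψ (j r ⊗ₜ 1) := rfl
      rw [h1, hΨ]
      exact MvPolynomial.aeval_map_algebraMap K (fun i => (t i : L)) r
    have hΦ2 : ∀ b : B0, Φ (1 ⊗ₜ b) = Ψ (1 ⊗ₜ b) := by
      intro b
      have h1 : Φ (1 ⊗ₜ b) = Ψ (j 1 ⊗ₜ b) := rfl
      rw [h1, map_one]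
    let T := Algebra.adjoin Λ (S : Set L)
    have haT : ∀ r : MvPolynomial (Fin N) Λ,
        MvPolynomial.aeval (fun i => (t i : L)) r ∈ T := by
      intro r
      induction r using MvPolynomial.induction_on with
      | C a =>
        rw [MvPolynomial.aeval_C]
        exact T.algebraMap_mem a
      | add p q hp hq => rw [map_add]; exact T.add_mem hp hq
      | mul_X p i hp =>
        rw [map_mul, MvPolynomial.aeval_X]
        exact T.mul_mem hp (Algebra.subset_adjoin (htS i))
    have hmem : ∀ z, Φ z ∈ T := by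
      intro z
      refine gens Φ T.toSubring (bs : Set B0) hbs ?_ ?_ z
      · intro r
        rw [hΦ1]
        exact haT r
      · intro b hb
        rw [hΦ2]
        exact Algebra.subset_adjoin (hbS b hb)
    let Φ' : (MvPolynomial (Fin N) Λ) ⊗[R0] B0 →+* T := RingHom.codRestrict Φ T hmem
    have hbij : Function.Bijective Φ' := by
      constructor
      · intro x y hxy
        have h1 : Φ x = Φ y := congrArg Subtype.val hxy
        exact hm (hinj h1)
      · rintro ⟨x, hx⟩
        suffices h : ∃ z, Φ z = x by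
          obtain ⟨z, hz⟩ := h
          exact ⟨z, Subtype.ext hz⟩
        induction hx using Algebra.adjoin_induction with
        | mem x hx =>
          simp only [S, Finset.coe_union, Finset.coe_image, Set.mem_union, Set.mem_image] at hx
          rcases hx with ⟨i, -, rfl⟩ | ⟨b, -, rfl⟩
          · exact ⟨(X i) ⊗ₜ 1, by rw [hΦ1, MvPolynomial.aeval_X]⟩
          · exact ⟨1 ⊗ₜ b, hΦ2 b⟩
        | algebraMap r => exact ⟨(C r) ⊗ₜ 1, by rw [hΦ1, MvPolynomial.aeval_C]⟩
        | add x y _ _ hx hy =>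
          obtain ⟨z, hz⟩ := hx
          obtain ⟨z', hz'⟩ := hy
          exact ⟨z + z', by rw [map_add, hz, hz']⟩
        | mul x y _ _ hx hy =>
          obtain ⟨z, hz⟩ := hx
          obtain ⟨z', hz'⟩ := hy
          exact ⟨z * z', by rw [map_mul, hz, hz']⟩
    refine et_base Φ' hbij _ ?_
    intro r
    apply Subtype.ext
    show ((MvPolynomial.aeval _ r : T) : L) = Φ (r ⊗ₜ 1)
    rw [hΦ1]
    have := MvPolynomial.aeval_algebraMap_apply (B := L)
      (fun i => (⟨(t i : L), Algebra.subset_adjoin (htS i)⟩ : T)) r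
    exact this.symm

end

end Pool.Agent.DBX.SPR
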