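import Pool.Agent.DBX.SPR.Stmts

set_option autoImplicit false

namespace Pool.Agent.DBX.SPR

open MvPolynomial TensorProduct

universe u

theorem et2_proof : Stmt_ET2.{u} := by
  intro R S R' S' _ _ _ _ f g q f' hf hg hq hcomm hker
  algebraize [f, g, q, f', q.comp f]
  have t1 : IsScalarTower R S S' := IsScalarTower.of_algebraMap_eq (fun x => rfl)
  have t2 : IsScalarTower R R' S' := IsScalarTower.of_algebraMap_eq (fun x => by
    show (q.comp f) x = f' (g x)
    rw [← hcomm]
    rfl)
  have hex : ∀ z : S ⊗[R] R', ∃ s : S, s ⊗ₜ[R] (1 : R') = z := by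
    intro z
    induction z using TensorProduct.induction_on with
    | zero => exact ⟨0, TensorProduct.zero_tmul _ _⟩
    | tmul a b =>
      obtain ⟨r, rfl⟩ := hg b
      refine ⟨r • a, ?_⟩
      rw [TensorProduct.smul_tmul]
      congr 1
      rw [Algebra.smul_def, mul_one]
      rfl
    | add z w h1 h2 =>
      obtain ⟨s, rfl⟩ := h1
      obtain ⟨t, rfl⟩ := h2
      exact ⟨s + t, TensorProduct.add_tmul _ _ _⟩
  have hkz : ∀ s : S, q s = 0 → s ⊗ₜ[R] (1 : R') = 0 := by
    intro s hs
    have hs' : s ∈ Ideal.map f (RingHom.ker g) := by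
      rw [← hker]
      exact hs
    rw [Ideal.map] at hs'
    refine Submodule.span_induction ?_ ?_ ?_ ?_ hs'
    · rintro _ ⟨k, hk, rfl⟩
      have h1 : (f k : S) = k • (1 : S) := by
        rw [Algebra.smul_def, mul_one]
        rfl
      rw [h1, TensorProduct.smul_tmul]
      have h2 : k • (1 : R') = 0 := by
        rw [Algebra.smul_def, mul_one]
        exact hk
      rw [h2, TensorProduct.tmul_zero]
    · exact TensorProduct.zero_tmul _ _
    · intro a b _ _ h1 h2
      rw [TensorProduct.add_tmul, h1, h2, add_zero]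
    · intro a b _ h1
      have h2 : (a • b) ⊗ₜ[R] (1 : R') = a • (b ⊗ₜ[R] (1 : R')) := rfl
      rw [h2, h1, smul_zero]
  have hbc : IsBaseChange S (IsScalarTower.toAlgHom R R' S').toLinearMap := by
    show Function.Bijective _
    constructor
    · rw [injective_iff_map_eq_zero]
      intro z hz
      obtain ⟨s, rfl⟩ := hex z
      apply hkz
      simp only [lift.tmul, LinearMap.coe_restrictScalars, LinearMap.flip_apply] at hz
      have h3 : algebraMap S S' s = 0 := by simpa [Algebra.smul_def] using hz
      exact h3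
    · intro z
      obtain ⟨s, rfl⟩ := hq z
      refine ⟨s ⊗ₜ 1, ?_⟩
      simp [Algebra.smul_def]
      try rfl
  have hpo : Algebra.IsPushout R S R' S' := ⟨hbc⟩
  have := RingHom.Etale.isStableUnderBaseChange R S R' S' hf
  exact this

end Pool.Agent.DBX.SPR
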