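import Pool.Agent.DBX.SPR.Stmts
import Pool.Agent.DBX.Cd

set_option autoImplicit false

/-! # MP_2c751f_ag, squad DBX, area SPR, module FLC: base change for flat cohomology -/

namespace Pool.Agent.DBX.SPR

open MvPolynomial

noncomputable section

universe u v w

namespace FLC_

section El

variable {Λ : Type u} {F : Type v} [CommRing Λ] [AddCommGroup F] [Module Λ F]

/-- elementwise flatness of `M / N` -/
def Fl (N M : Submodule Λ F) : Prop :=
  ∀ (l : ℕ) (f : Fin l → Λ) (x : Fin l → F), (∀ i, x i ∈ M) → ∑ i, f i • x i ∈ N →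
    ∃ (κ : Type) (_ : Fintype κ) (a : Fin l → κ → Λ) (y : κ → F), (∀ j, y j ∈ M) ∧
      (∀ i, x i - ∑ j, a i j • y j ∈ N) ∧ ∀ j, ∑ i, f i * a i j = 0

theorem sum_swap {l : ℕ} {κ : Type} [Fintype κ] (f : Fin l → Λ) (a : Fin l → κ → Λ) (y : κ → F)
    (ha : ∀ j, ∑ i, f i * a i j = 0) : ∑ i, f i • ∑ j, a i j • y j = 0 := by
  have h1 : ∀ i, f i • ∑ j, a i j • y j = ∑ j, (f i * a i j) • y j := by
    intro i
    rw [Finset.smul_sum]
    exact Finset.sum_congr rfl (fun j _ => smul_smul _ _ _)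
  rw [Finset.sum_congr rfl (fun i _ => h1 i), Finset.sum_comm]
  refine Finset.sum_eq_zero (fun j _ => ?_)
  rw [← Finset.sum_smul, ha j, zero_smul]

theorem sum_sub {l : ℕ} {κ : Type} [Fintype κ] (f : Fin l → Λ) (x : Fin l → F)
    (a : Fin l → κ → Λ) (y : κ → F) (ha : ∀ j, ∑ i, f i * a i j = 0) :
    ∑ i, f i • (x i - ∑ j, a i j • y j) = ∑ i, f i • x i := by
  have h1 : ∀ i, f i • (x i - ∑ j, a i j • y j) = f i • x i - f i • ∑ j, a i j • y j :=
    fun i => smul_sub _ _ _
  rw [Finset.sum_congr rfl (fun i _ => h1 i), Finset.sum_sub_distrib, sum_swap f a y ha, sub_zero]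

theorem fle {N1 N2 M : Submodule Λ F} (h12 : N1 ≤ N2) (h2 : N2 ≤ M) (hA : Fl N1 N2)
    (hB : Fl N2 M) : Fl N1 M := by
  intro l f x hx hs
  obtain ⟨κ, _, a, y, hy, hn, ha⟩ := hB l f x hx (h12 hs)
  have hs' : ∑ i, f i • (x i - ∑ j, a i j • y j) ∈ N1 := by
    rw [sum_sub f x a y ha]; exact hs
  obtain ⟨κ', _, b, z, hz, hn', hb⟩ := hA l f _ hn hs'
  refine ⟨κ ⊕ κ', inferInstance, fun i => Sum.elim (a i) (b i), Sum.elim y z, ?_, ?_, ?_⟩
  · rintro (j | j)
    · exact hy j
    · exact h2 (hz j)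
  · intro i
    have := hn' i
    rw [Fintype.sum_sum_type]
    simp only [Sum.elim_inl, Sum.elim_inr]
    rwa [sub_sub] at this
  · rintro (j | j)
    · exact ha j
    · exact hb j

/-- `N ∩ J M = J N` -/
theorem flj {N M : Submodule Λ F} (h : Fl N M) (J : Ideal Λ) (x : F) (hx : x ∈ N)
    (hJ : x ∈ J • M) : x ∈ J • N := by
  -- write x = ∑ j_i m_i
  obtain ⟨l, f, m, hf, hm, hxe⟩ : ∃ (l : ℕ) (f : Fin l → Λ) (m : Fin l → F),
      (∀ i, f i ∈ J) ∧ (∀ i, m i ∈ M) ∧ x = ∑ i, f i • m i := by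
    have : ∀ z ∈ J • M, ∃ (l : ℕ) (f : Fin l → Λ) (m : Fin l → F),
        (∀ i, f i ∈ J) ∧ (∀ i, m i ∈ M) ∧ z = ∑ i, f i • m i := by
      intro z hz
      refine Submodule.smul_induction_on hz ?_ ?_
      · intro r hr n hn
        exact ⟨1, fun _ => r, fun _ => n, fun _ => hr, fun _ => hn, by simp⟩
      · rintro z z' ⟨l, f, m, hf, hm, rfl⟩ ⟨l', f', m', hf', hm', rfl⟩
        refine ⟨l + l', Fin.append f f', Fin.append m m', ?_, ?_, ?_⟩
        · intro i
          refine Fin.addCases (fun i => ?_) (fun i => ?_) i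
          · rw [Fin.append_left]; exact hf i
          · rw [Fin.append_right]; exact hf' i
        · intro i
          refine Fin.addCases (fun i => ?_) (fun i => ?_) i
          · rw [Fin.append_left]; exact hm i
          · rw [Fin.append_right]; exact hm' i
        · rw [Fin.sum_univ_add]
          simp only [Fin.append_left, Fin.append_right]
    exact this x hJ
  obtain ⟨κ, _, a, y, hy, hn, ha⟩ := h l f m hm (hxe ▸ hx)
  rw [hxe, ← sum_sub f m a y ha]
  exact Submodule.sum_mem _ (fun i _ => Submodule.smul_mem_smul (hf i) (hn i))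

theorem fl_of_flat {N M : Submodule Λ F} (P : Type w) [AddCommGroup P] [Module Λ P]
    [Module.Flat Λ P] (π : M →ₗ[Λ] P) (hs : Function.Surjective π)
    (hk : ∀ x, π x = 0 ↔ (x : F) ∈ N) : Fl N M := by
  intro l f x hx hsum
  have h0 : ∑ i, f i • π ⟨x i, hx i⟩ = 0 := by
    have e1 : ∑ i, f i • π ⟨x i, hx i⟩ = π (∑ i, f i • ⟨x i, hx i⟩) := by
      rw [map_sum]
      exact Finset.sum_congr rfl (fun i _ => (map_smul _ _ _).symm)
    rw [e1, hk]
    have e2 : ((∑ i, f i • (⟨x i, hx i⟩ : M) : M) : F) = ∑ i, f i • x i := by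
      rw [Submodule.coe_sum]
      rfl
    rw [e2]; exact hsum
  obtain ⟨k, a, y, hy, ha⟩ := Module.Flat.isTrivialRelation_of_sum_smul_eq_zero h0
  choose Y hY using fun j => hs (y j)
  refine ⟨Fin k, inferInstance, a, fun j => (Y j : F), fun j => (Y j).2, ?_, ha⟩
  intro i
  have hy' : π ⟨x i, hx i⟩ = ∑ j, a i j • y j := hy i
  have e3 : π (⟨x i, hx i⟩ - ∑ j, a i j • Y j) = 0 := by
    rw [map_sub, map_sum, hy']
    have : ∀ j, π (a i j • Y j) = a i j • y j := fun j => by rw [map_smul, hY j]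
    rw [Finset.sum_congr rfl (fun j _ => this j), sub_self]
  have e4 := (hk _).mp e3
  rw [Submodule.coe_sub, Submodule.coe_sum] at e4
  exact e4

theorem flat_of_fl {N M : Submodule Λ F} (P : Type w) [AddCommGroup P] [Module Λ P]
    (π : M →ₗ[Λ] P) (hs : Function.Surjective π)
    (hk : ∀ x, π x = 0 ↔ (x : F) ∈ N) (h : Fl N M) : Module.Flat Λ P := by
  refine Module.Flat.of_forall_isTrivialRelation ?_
  intro l f x hsum
  choose X hX using fun i => hs (x i)
  have h0 : ∑ i, f i • (X i : F) ∈ N := by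
    have e2 : ((∑ i, f i • X i : M) : F) = ∑ i, f i • (X i : F) := by
      rw [Submodule.coe_sum]
      rfl
    rw [← e2, ← hk, map_sum, ← hsum]
    exact Finset.sum_congr rfl (fun i _ => by rw [map_smul, hX i])
  obtain ⟨κ, _, a, y, hy, hn, ha⟩ := h l f (fun i => (X i : F)) (fun i => (X i).2) h0
  let e := Fintype.equivFin κ
  refine ⟨Fintype.card κ, fun i j => a i (e.symm j), fun j => π ⟨y (e.symm j), hy _⟩, ?_, ?_⟩
  · intro i
    have e3 : π (X i - ∑ j, a i j • ⟨y j, hy j⟩) = 0 := by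
      rw [hk, Submodule.coe_sub, Submodule.coe_sum]
      exact hn i
    rw [map_sub, map_sum, sub_eq_zero, hX i] at e3
    rw [e3, ← e.symm.sum_comp]
    exact Finset.sum_congr rfl (fun j _ => map_smul _ _ _)
  · intro j
    exact ha (e.symm j)

end El

section Co

variable {Λ : Type u} {X : Type v} [CommRing Λ] [AddCommGroup X] [Module Λ X] {m : ℕ}

/-- truncation -/
def T (Λ : Type u) (X : Type v) [CommRing Λ] [AddCommGroup X] [Module Λ X] (m n : ℕ) :
    (Finset (Fin m) → X) →ₗ[Λ] (Finset (Fin m) → X) where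
  toFun := fun x σ => if n ≤ σ.card then x σ else 0
  map_add' := by
    intro x y
    funext σ
    by_cases h : n ≤ σ.card
    · simp only [Pi.add_apply, if_pos h]
    · simp only [Pi.add_apply, if_neg h, add_zero]
  map_smul' := by
    intro r x
    funext σ
    by_cases h : n ≤ σ.card
    · simp only [Pi.smul_apply, if_pos h, RingHom.id_apply]
    · simp only [Pi.smul_apply, if_neg h, RingHom.id_apply, smul_zero]

theorem T_apply (n : ℕ) (x : Finset (Fin m) → X) (σ : Finset (Fin m)) :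
    T Λ X m n x σ = if n ≤ σ.card then x σ else 0 := rfl

theorem T_T (n : ℕ) (x : Finset (Fin m) → X) : T Λ X m n (T Λ X m n x) = T Λ X m n x := by
  funext σ
  rw [T_apply]
  by_cases h : n ≤ σ.card
  · rw [if_pos h]
  · rw [if_neg h, T_apply, if_neg h]

theorem T_zero (x : Finset (Fin m) → X) : T Λ X m 0 x = x := by
  funext σ
  rw [T_apply, if_pos (Nat.zero_le _)]

theorem cd_T (n : ℕ) (x : Finset (Fin m) → X) :
    cd (T Λ X m n x) = T Λ X m (n + 1) (cd x) := by
  funext σ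
  rw [T_apply]
  by_cases h : n + 1 ≤ σ.card
  · rw [if_pos h]
    unfold cd
    refine Finset.sum_congr rfl (fun v hv => ?_)
    rw [T_apply, if_pos]
    rw [Finset.card_erase_of_mem hv]; omega
  · rw [if_neg h]
    unfold cd
    refine Finset.sum_eq_zero (fun v hv => ?_)
    rw [T_apply, if_neg, smul_zero]
    rw [Finset.card_erase_of_mem hv]
    have := Finset.card_pos.2 ⟨v, hv⟩
    omega

/-- truncated cochains -/
def Cn (O : Finset (Fin m) → Submodule Λ X) (n : ℕ) : Submodule Λ (Finset (Fin m) → X) :=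
  Cc O ⊓ LinearMap.eqLocus (T Λ X m n) LinearMap.id

theorem mem_Cn {O : Finset (Fin m) → Submodule Λ X} {n : ℕ} {x : Finset (Fin m) → X} :
    x ∈ Cn O n ↔ x ∈ Cc O ∧ T Λ X m n x = x := by
  unfold Cn
  rw [Submodule.mem_inf, LinearMap.mem_eqLocus]
  rfl

theorem T_mem {O : Finset (Fin m) → Submodule Λ X} {n : ℕ} {x : Finset (Fin m) → X}
    (hx : x ∈ Cc O) : T Λ X m n x ∈ Cn O n := by
  rw [mem_Cn]
  refine ⟨⟨?_, ?_⟩, T_T n x⟩
  · rw [T_apply, hx.1]
    by_cases h : n ≤ (∅ : Finset (Fin m)).card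
    · rw [if_pos h]
    · rw [if_neg h]
  · intro σ hσ
    rw [T_apply]
    by_cases h : n ≤ σ.card
    · rw [if_pos h]; exact hx.2 σ hσ
    · rw [if_neg h]; exact (O σ).zero_mem

theorem cd_mem {O : Finset (Fin m) → Submodule Λ X}
    (hO : ∀ σ τ, σ.Nonempty → σ ⊆ τ → O σ ≤ O τ) {x : Finset (Fin m) → X}
    (hx : x ∈ Cc O) : cd x ∈ Cc O := by
  refine ⟨cd_empty x, ?_⟩
  intro σ _
  unfold cd
  refine (O σ).sum_mem (fun v hv => ?_)
  refine (O σ).toAddSubgroup.zsmul_mem ?_ _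
  by_cases h : (σ.erase v).Nonempty
  · exact hO _ _ h (Finset.erase_subset _ _) (hx.2 _ h)
  · rw [Finset.not_nonempty_iff_eq_empty.mp h, hx.1]
    exact (O σ).zero_mem

theorem cd_mem_Cn {O : Finset (Fin m) → Submodule Λ X}
    (hO : ∀ σ τ, σ.Nonempty → σ ⊆ τ → O σ ≤ O τ) {n : ℕ} {x : Finset (Fin m) → X}
    (hx : x ∈ Cn O n) : cd x ∈ Cn O (n + 1) := by
  rw [mem_Cn] at hx ⊢
  refine ⟨cd_mem hO hx.1, ?_⟩
  rw [← cd_T, hx.2]

/-- truncated coboundaries -/
def Bn (O : Finset (Fin m) → Submodule Λ X) (n : ℕ) : Submodule Λ (Finset (Fin m) → X) :=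
  Submodule.map (cdL Λ X m) (Cn O n)

/-- truncated cocycles -/
def Zn (O : Finset (Fin m) → Submodule Λ X) (n : ℕ) : Submodule Λ (Finset (Fin m) → X) :=
  Cn O n ⊓ LinearMap.ker (cdL Λ X m)

theorem mem_Bn {O : Finset (Fin m) → Submodule Λ X} {n : ℕ} {x : Finset (Fin m) → X} :
    x ∈ Bn O n ↔ ∃ y ∈ Cn O n, cd y = x := Submodule.mem_map

theorem mem_Zn {O : Finset (Fin m) → Submodule Λ X} {n : ℕ} {x : Finset (Fin m) → X} :
    x ∈ Zn O n ↔ x ∈ Cn O n ∧ cd x = 0 := by
  unfold Zn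
  rw [Submodule.mem_inf, LinearMap.mem_ker]
  rfl

theorem mem_Bc {O : Finset (Fin m) → Submodule Λ X} {x : Finset (Fin m) → X} :
    x ∈ Bc O ↔ ∃ y ∈ Cc O, cd y = x := Submodule.mem_map

theorem mem_Zc {O : Finset (Fin m) → Submodule Λ X} {x : Finset (Fin m) → X} :
    x ∈ Zc O ↔ x ∈ Cc O ∧ cd x = 0 := by
  unfold Zc
  rw [Submodule.mem_inf, LinearMap.mem_ker]
  rfl

theorem Bn_le_Zn {O : Finset (Fin m) → Submodule Λ X}
    (hO : ∀ σ τ, σ.Nonempty → σ ⊆ τ → O σ ≤ O τ) (n : ℕ) : Bn O n ≤ Zn O (n + 1) := by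
  intro x hx
  obtain ⟨y, hy, rfl⟩ := mem_Bn.mp hx
  exact mem_Zn.mpr ⟨cd_mem_Cn hO hy, cd_cd y⟩

theorem Zn_le_Cn {O : Finset (Fin m) → Submodule Λ X} (n : ℕ) : Zn O n ≤ Cn O n :=
  inf_le_left

/-- flatness of the cochains -/
theorem flat_Cc (O : Finset (Fin m) → Submodule Λ X)
    (hfl : ∀ σ, σ.Nonempty → Module.Flat Λ (O σ)) : Module.Flat Λ (Cc O) := by
  classical
  let O' : Finset (Fin m) → Submodule Λ X := fun σ => if σ.Nonempty then O σ else ⊥
  have hO' : ∀ σ, Module.Flat Λ (O' σ) := by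
    intro σ
    by_cases h : σ.Nonempty
    · have e : O' σ = O σ := if_pos h
      rw [e]; exact hfl σ h
    · have e : O' σ = ⊥ := if_neg h
      rw [e]; infer_instance
  have hds : Module.Flat Λ (Π₀ σ, O' σ) := Module.Flat.dfinsupp_iff.mpr hO'
  have hpi : Module.Flat Λ (∀ σ, O' σ) :=
    Module.Flat.of_linearEquiv (DFinsupp.linearEquivFunOnFintype (R := Λ)
      (M := fun σ => O' σ)).symm
  have hmem : ∀ x ∈ Cc O, ∀ σ, x σ ∈ O' σ := by
    intro x hx σ
    by_cases h : σ.Nonempty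
    · have e : O' σ = O σ := if_pos h
      rw [e]; exact hx.2 σ h
    · have e : O' σ = ⊥ := if_neg h
      rw [e, Submodule.mem_bot, Finset.not_nonempty_iff_eq_empty.mp h, hx.1]
  have hmem' : ∀ x : ∀ σ, O' σ, (fun σ => (x σ : X)) ∈ Cc O := by
    intro x
    refine ⟨?_, ?_⟩
    · have e : O' ∅ = ⊥ := if_neg (by simp)
      exact (Submodule.mem_bot Λ).mp (e.le (x ∅).2)
    · intro σ h
      have e : O' σ = O σ := if_pos h
      exact e.le (x σ).2
  let i : Cc O →ₗ[Λ] (∀ σ, O' σ) :=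
    { toFun := fun x σ => ⟨(x : Finset (Fin m) → X) σ, hmem x x.2 σ⟩
      map_add' := fun x y => rfl
      map_smul' := fun r x => rfl }
  let r : (∀ σ, O' σ) →ₗ[Λ] Cc O :=
    { toFun := fun x => ⟨fun σ => (x σ : X), hmem' x⟩
      map_add' := fun x y => rfl
      map_smul' := fun r x => rfl }
  exact Module.Flat.of_retract i r (by ext x; rfl)

theorem flat_Cn (O : Finset (Fin m) → Submodule Λ X)
    (hfl : ∀ σ, σ.Nonempty → Module.Flat Λ (O σ)) (n : ℕ) : Module.Flat Λ (Cn O n) := by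
  have := flat_Cc O hfl
  let i : Cn O n →ₗ[Λ] Cc O := Submodule.inclusion inf_le_left
  let r : Cc O →ₗ[Λ] Cn O n :=
    LinearMap.codRestrict (Cn O n) ((T Λ X m n).comp (Cc O).subtype) (fun x => T_mem x.2)
  refine Module.Flat.of_retract i r ?_
  ext x σ
  exact congrFun (mem_Cn.mp x.2).2 σ

end Co

end FLC_

open FLC_ in
theorem flc_proof (hFLK : Stmt_FLK.{u, v}) (_hFLE : Stmt_FLE.{u, v}) (_hFLJ : Stmt_FLJ.{u, v}) :
    Stmt_FLC.{u, v} := by
  intro Λ X _ _ _ m O hO hfl hH J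
  -- the cohomology
  have hFlH : Fl (Bc O) (Zc O) := by
    refine fl_of_flat (Hc O) (Submodule.mkQ _) (Submodule.mkQ_surjective _) ?_
    intro x
    rw [Submodule.mkQ_apply, Submodule.Quotient.mk_eq_zero, Submodule.mem_comap]
    rfl
  -- truncated cohomology
  have hFlHn : ∀ n, Fl (Bn O n) (Zn O (n + 1)) := by
    intro n l f x hx hs
    have hx' : ∀ i, x i ∈ Zc O := fun i =>
      mem_Zc.mpr ⟨(mem_Cn.mp (mem_Zn.mp (hx i)).1).1, (mem_Zn.mp (hx i)).2⟩
    have hs' : ∑ i, f i • x i ∈ Bc O := by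
      obtain ⟨y, hy, hy2⟩ := mem_Bn.mp hs
      exact mem_Bc.mpr ⟨y, (mem_Cn.mp hy).1, hy2⟩
    obtain ⟨κ, _, a, y, hy, hn, ha⟩ := hFlH l f x hx' hs'
    refine ⟨κ, inferInstance, a, fun j => T Λ X m (n + 1) (y j), ?_, ?_, ha⟩
    · intro j
      refine mem_Zn.mpr ⟨T_mem (mem_Zc.mp (hy j)).1, ?_⟩
      rw [cd_T, (mem_Zc.mp (hy j)).2, map_zero]
    · intro i
      obtain ⟨w, hw, hw2⟩ := mem_Bc.mp (hn i)
      refine mem_Bn.mpr ⟨T Λ X m n w, T_mem hw, ?_⟩
      rw [cd_T, hw2, map_sub, map_sum, (mem_Cn.mp (mem_Zn.mp (hx i)).1).2]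
      congr 1
      exact Finset.sum_congr rfl (fun j _ => map_smul _ _ _)
  -- cochains modulo cocycles
  have hCZ : ∀ n, Fl ⊥ (Bn O n) → Fl (Zn O n) (Cn O n) := by
    intro n h l f x hx hs
    have hs' : ∑ i, f i • cdL Λ X m (x i) ∈ (⊥ : Submodule Λ (Finset (Fin m) → X)) := by
      rw [Submodule.mem_bot]
      have e1 : ∑ i, f i • cdL Λ X m (x i) = cdL Λ X m (∑ i, f i • x i) := by
        rw [map_sum]
        exact Finset.sum_congr rfl (fun i _ => (map_smul _ _ _).symm)
      rw [e1]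
      exact (mem_Zn.mp hs).2
    obtain ⟨κ, _, a, y, hy, hn, ha⟩ := h l f (fun i => cdL Λ X m (x i))
      (fun i => Submodule.mem_map_of_mem (hx i)) hs'
    choose w hw hw2 using fun j => mem_Bn.mp (hy j)
    refine ⟨κ, inferInstance, a, w, hw, ?_, ha⟩
    intro i
    refine mem_Zn.mpr ⟨?_, ?_⟩
    · exact Submodule.sub_mem _ (hx i)
        (Submodule.sum_mem _ (fun j _ => Submodule.smul_mem _ _ (hw j)))
    · have e2 := (Submodule.mem_bot Λ).mp (hn i)
      have e3 : cdL Λ X m (x i - ∑ j, a i j • w j) = 0 := by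
        rw [map_sub, map_sum]
        have : ∀ j, cdL Λ X m (a i j • w j) = a i j • y j := by
          intro j
          rw [map_smul]
          congr 1
          exact hw2 j
        rw [Finset.sum_congr rfl (fun j _ => this j)]
        exact e2
      exact e3
  -- descending induction
  have key : ∀ d n, n + d = m + 1 → Fl ⊥ (Bn O n) := by
    intro d
    induction d with
    | zero =>
      intro n hn
      have hz : ∀ y ∈ Bn O n, y = 0 := by
        intro y hy
        obtain ⟨w, hw, rfl⟩ := mem_Bn.mp hy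
        have : w = 0 := by
          rw [← (mem_Cn.mp hw).2]
          funext σ
          rw [T_apply, if_neg]
          · rfl
          · have := Finset.card_le_univ σ
            rw [Fintype.card_fin] at this
            omega
        rw [this, cd_zero]
      intro l f x hx _
      refine ⟨Fin 0, inferInstance, fun _ j => j.elim0, fun j => j.elim0, fun j => j.elim0, ?_,
        fun j => j.elim0⟩
      intro i
      rw [hz _ (hx i)]
      simp
    | succ d ih =>
      intro n hn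
      have h1 := hCZ (n + 1) (ih (n + 1) (by omega))
      have h2 : Fl (Bn O n) (Cn O (n + 1)) := fle (Bn_le_Zn hO n) (Zn_le_Cn _) (hFlHn n) h1
      have hB : Bn O n ≤ Cn O (n + 1) := (Bn_le_Zn hO n).trans (Zn_le_Cn _)
      have h3 : Module.Flat Λ ((Cn O (n + 1)) ⧸ (Bn O n).comap (Cn O (n + 1)).subtype) := by
        refine flat_of_fl (N := Bn O n) (M := Cn O (n + 1)) _ (Submodule.mkQ _)
          (Submodule.mkQ_surjective _) ?_ h2
        intro x
        rw [Submodule.mkQ_apply, Submodule.Quotient.mk_eq_zero, Submodule.mem_comap]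
        rfl
      have h4 := hFLK Λ (Cn O (n + 1)) _ (flat_Cn O hfl (n + 1)) h3
      let e : Bn O n →ₗ[Λ] ((Bn O n).comap (Cn O (n + 1)).subtype) :=
        LinearMap.codRestrict _ (Submodule.inclusion hB) (fun x => x.2)
      haveI := h4
      refine fl_of_flat (N := ⊥) (M := Bn O n) (↥((Bn O n).comap (Cn O (n + 1)).subtype)) e ?_ ?_
      · intro y
        exact ⟨⟨((y : Cn O (n + 1)) : Finset (Fin m) → X), y.2⟩, rfl⟩
      · intro x
        rw [Submodule.mem_bot]
        constructor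
        · intro h
          have h5 : (e x : Cn O (n + 1)) = 0 := by rw [h]; rfl
          have h6 : ((e x : Cn O (n + 1)) : Finset (Fin m) → X) = 0 := by rw [h5]; rfl
          exact h6
        · intro h
          apply Subtype.ext
          apply Subtype.ext
          exact h
  have hC0 : Cn O 0 = Cc O := by
    ext x
    rw [mem_Cn]
    exact ⟨fun h => h.1, fun h => ⟨h, T_zero x⟩⟩
  have hB0 : Bn O 0 = Bc O := by unfold Bn Bc; rw [hC0]
  have hZ0 : Zn O 0 = Zc O := by unfold Zn Zc; rw [hC0]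
  have hCZ0 : Fl (Zc O) (Cc O) := by
    have := hCZ 0 (key (m + 1) 0 (by omega))
    rwa [hZ0, hC0] at this
  have hBZ : Bc O ≤ Zc O := by
    intro x hx
    obtain ⟨y, hy, rfl⟩ := mem_Bc.mp hx
    exact mem_Zc.mpr ⟨cd_mem hO hy, cd_cd y⟩
  have hCB0 : Fl (Bc O) (Cc O) := fle hBZ inf_le_left hFlH hCZ0
  -- componentwise divisibility
  have hcomp : ∀ x : Finset (Fin m) → X, x ∅ = 0 → (∀ σ, σ.Nonempty → x σ ∈ J • O σ) →
      x ∈ J • Cc O := by
    intro x hx0 hx
    classical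
    have hsing : ∀ σ : Finset (Fin m), σ.Nonempty → ∀ z ∈ J • O σ,
        (LinearMap.single Λ (fun _ : Finset (Fin m) => X) σ) z ∈ J • Cc O := by
      intro σ hσ z hz
      have h1 : Submodule.map (LinearMap.single Λ (fun _ : Finset (Fin m) => X) σ) (J • O σ) ≤
          J • Cc O := by
        rw [Submodule.map_smul'']
        refine Submodule.smul_mono le_rfl ?_
        rintro _ ⟨c, hc, rfl⟩
        refine ⟨?_, ?_⟩
        · rw [LinearMap.single_apply]
          have hne : (∅ : Finset (Fin m)) ≠ σ := by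
            intro h
            rw [← h] at hσ
            simp at hσ
          exact Pi.single_eq_of_ne (M := fun _ : Finset (Fin m) => X) hne c
        · intro τ _
          rw [LinearMap.single_apply]
          by_cases hτ : τ = σ
          · subst hτ
            rw [Pi.single_eq_same]; exact hc
          · rw [Pi.single_eq_of_ne hτ]; exact (O τ).zero_mem
      exact h1 (Submodule.mem_map_of_mem hz)
    have hsum : x = ∑ σ, (LinearMap.single Λ (fun _ : Finset (Fin m) => X) σ) (x σ) := by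
      have h2 := (Finset.univ_sum_single x).symm
      simpa only [LinearMap.single_apply] using h2
    rw [hsum]
    refine Submodule.sum_mem _ (fun σ _ => ?_)
    by_cases h : σ.Nonempty
    · exact hsing σ h _ (hx σ h)
    · rw [Finset.not_nonempty_iff_eq_empty.mp h, hx0, map_zero]
      exact Submodule.zero_mem _
  have hproj : ∀ x ∈ J • Cc O, ∀ σ : Finset (Fin m), σ.Nonempty → x σ ∈ J • O σ := by
    intro x hx σ hσ
    have h1 : Submodule.map (LinearMap.proj (R := Λ) (φ := fun _ : Finset (Fin m) => X) σ)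
        (J • Cc O) ≤ J • O σ := by
      rw [Submodule.map_smul'']
      refine Submodule.smul_mono le_rfl ?_
      rintro _ ⟨c, hc, rfl⟩
      exact hc.2 σ hσ
    exact h1 (Submodule.mem_map_of_mem hx)
  refine ⟨?_, ?_⟩
  · intro x hx hcd
    have h1 : cd x ∈ J • Cc O := hcomp (cd x) (cd_empty x) hcd
    have h2 : cd x ∈ Bc O := mem_Bc.mpr ⟨x, hx, rfl⟩
    have h3 := flj hCB0 J (cd x) h2 h1
    have h4 : cd x ∈ Submodule.map (cdL Λ X m) (J • Cc O) := by
      rw [Submodule.map_smul'']; exact h3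
    obtain ⟨w, hw, hw2⟩ := h4
    have hw2' : cd w = cd x := hw2
    refine ⟨x - w, mem_Zc.mpr ⟨Submodule.sub_mem _ hx (Submodule.smul_le_right hw), ?_⟩, ?_⟩
    · rw [cd_sub, hw2', sub_self]
    · intro σ hσ
      rw [Pi.sub_apply, sub_sub_cancel]
      exact hproj w hw σ hσ
  · intro x hx hJx
    exact flj hCZ0 J x hx (hcomp x (mem_Zc.mp hx).1.1 hJx)

end

end Pool.Agent.DBX.SPR
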