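import Pool.Agent.DBX.SPR.Stmts

set_option autoImplicit false

/-! # MP_2c751f_ag, squad DBX, area SPR: flatness modules FLJ, FLE, FLS -/

namespace Pool.Agent.DBX.SPR

open MvPolynomial

universe u v

namespace FLJ_

/-- A combination which vanishes modulo `N`, with flat quotient: correct the entries by
elements of `N`. -/
theorem correct {Λ : Type u} {M : Type v} [CommRing Λ] [AddCommGroup M] [Module Λ M]
    (N : Submodule Λ M) (hf : Module.Flat Λ (M ⧸ N)) {ι : Type*} [Fintype ι] (l : ι → Λ)
    (x : ι → M) (h : ∑ i, l i • x i ∈ N) :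
    ∃ (k : ℕ) (a : ι → Fin k → Λ) (y : Fin k → M),
      (∀ i, x i - ∑ j, a i j • y j ∈ N) ∧ ∀ j, ∑ i, l i * a i j = 0 := by
  have h0 : ∑ i, l i • (N.mkQ (x i)) = 0 := by
    rw [← (Submodule.Quotient.mk_eq_zero N).mpr h]
    simp only [← map_smul, ← map_sum]
    rfl
  obtain ⟨k, a, y, h1, h2⟩ := Module.Flat.isTrivialRelation_of_sum_smul_eq_zero h0
  choose z hz using fun j => N.mkQ_surjective (y j)
  refine ⟨k, a, z, fun i => ?_, h2⟩
  rw [← Submodule.Quotient.mk_eq_zero N]
  have h3 : N.mkQ (x i) = ∑ j, a i j • y j := h1 i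
  have h4 : N.mkQ (x i - ∑ j, a i j • z j) = 0 := by
    rw [map_sub, h3, map_sum]
    simp only [map_smul, hz, sub_self]
  exact h4

end FLJ_

theorem flj_proof : Stmt_FLJ.{u, v} := by
  intro Λ M _ _ _ N hf J x hx hxJ
  classical
  -- write x = ∑ j_i m_i
  have hrep : ∃ (n : ℕ) (l : Fin n → Λ) (y : Fin n → M), (∀ i, l i ∈ J) ∧
      x = ∑ i, l i • y i := by
    refine Submodule.smul_induction_on hxJ ?_ ?_
    · intro r hr n _
      exact ⟨1, fun _ => r, fun _ => n, fun _ => hr, by simp⟩
    · rintro a b ⟨n1, l1, y1, h1, rfl⟩ ⟨n2, l2, y2, h2, rfl⟩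
      refine ⟨n1 + n2, Fin.append l1 l2, Fin.append y1 y2, ?_, ?_⟩
      · intro i
        refine Fin.addCases (fun i => ?_) (fun i => ?_) i
        · simpa using h1 i
        · simpa using h2 i
      · rw [Fin.sum_univ_add]
        simp
  obtain ⟨n, l, y, hl, rfl⟩ := hrep
  obtain ⟨k, a, z, h1, h2⟩ := FLJ_.correct N hf l y hx
  have h3 : ∑ i, l i • y i = ∑ i, l i • (y i - ∑ j, a i j • z j) := by
    have h4 : ∑ i, l i • ∑ j, a i j • z j = 0 := by
      simp only [Finset.smul_sum, smul_smul]
      rw [Finset.sum_comm]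
      refine Finset.sum_eq_zero fun j _ => ?_
      rw [← Finset.sum_smul, h2 j, zero_smul]
    simp only [smul_sub, Finset.sum_sub_distrib, h4, sub_zero]
  rw [h3]
  exact Submodule.sum_mem _ fun i _ => Submodule.smul_mem_smul (hl i) (h1 i)

theorem fle_proof : Stmt_FLE.{u, v} := by
  intro Λ M _ _ _ N hN hf
  refine Module.Flat.of_forall_isTrivialRelation ?_
  intro n l x h
  obtain ⟨k, a, z, h1, h2⟩ := FLJ_.correct N hf l x (by rw [h]; exact N.zero_mem)
  have h4 : ∑ i, l i • ∑ j, a i j • z j = 0 := by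
    simp only [Finset.smul_sum, smul_smul]
    rw [Finset.sum_comm]
    refine Finset.sum_eq_zero fun j _ => ?_
    rw [← Finset.sum_smul, h2 j, zero_smul]
  have h5 : ∑ i, l i • (⟨x i - ∑ j, a i j • z j, h1 i⟩ : N) = 0 := by
    apply Subtype.ext
    have h6 : ((∑ i, l i • (⟨x i - ∑ j, a i j • z j, h1 i⟩ : N) : N) : M) =
        ∑ i, l i • (x i - ∑ j, a i j • z j) := by
      simp
    rw [h6]
    simp only [smul_sub, Finset.sum_sub_distrib, h4, h, sub_zero]
    rfl
  obtain ⟨k', a', y', h7, h8⟩ := Module.Flat.isTrivialRelation_of_sum_smul_eq_zero h5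
  refine ⟨k' + k, fun i => Fin.append (a' i) (a i), Fin.append (fun j => (y' j : M)) z, ?_, ?_⟩
  · intro i
    rw [Fin.sum_univ_add]
    simp only [Fin.append_left, Fin.append_right]
    have h9 := congrArg (fun q : N => (q : M)) (h7 i)
    simp only [Submodule.coe_sum, Submodule.coe_smul] at h9
    rw [← h9]
    abel
  · intro j
    refine Fin.addCases (fun j => ?_) (fun j => ?_) j
    · simpa using h8 j
    · simpa using h2 j

theorem fls_proof : Stmt_FLS.{u, v} := by
  intro Λ X _ _ _ f C hb hC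
  have hbe : ∀ e : ℕ, Function.Bijective (fun x : X => f ^ e • x) := by
    intro e
    induction e with
    | zero =>
      have : (fun x : X => f ^ 0 • x) = id := by
        funext x
        simp
      rw [this]
      exact Function.bijective_id
    | succ e ih =>
      have : (fun x : X => f ^ (e + 1) • x) = (fun x : X => f • x) ∘ (fun x : X => f ^ e • x) := by
        funext x
        simp only [Function.comp]
        rw [smul_smul, pow_succ']
      rw [this]
      exact hb.comp ih
  refine Module.Flat.of_forall_isTrivialRelation ?_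
  intro n l x h
  -- common exponent
  have hex : ∃ e : ℕ, ∀ i, f ^ e • (x i : X) ∈ C := by
    choose e he using fun i => (x i).2
    refine ⟨∑ i, e i, fun i => ?_⟩
    obtain ⟨d, hd⟩ := Nat.exists_eq_add_of_le
      (Finset.single_le_sum (f := e) (fun _ _ => Nat.zero_le _) (Finset.mem_univ i))
    rw [hd, add_comm, pow_add, mul_smul]
    exact C.smul_mem _ (he i)
  obtain ⟨e, he⟩ := hex
  have h1 : ∑ i, l i • (⟨f ^ e • (x i : X), he i⟩ : C) = 0 := by
    apply Subtype.ext
    have h2 : ((∑ i, l i • (⟨f ^ e • (x i : X), he i⟩ : C) : C) : X) =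
        f ^ e • ∑ i, l i • (x i : X) := by
      simp only [Submodule.coe_sum, Submodule.coe_smul, Finset.smul_sum]
      refine Finset.sum_congr rfl fun i _ => ?_
      rw [smul_comm]
    rw [h2]
    have h3 := congrArg (fun q : sat f C => (q : X)) h
    simp only [Submodule.coe_sum, Submodule.coe_smul, Submodule.coe_zero] at h3
    rw [h3, smul_zero]
    rfl
  obtain ⟨k, a, y, h4, h5⟩ := Module.Flat.isTrivialRelation_of_sum_smul_eq_zero h1
  choose z hz using fun j => (hbe e).2 (y j : X)
  simp only at hz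
  have hzm : ∀ j, z j ∈ sat f C := fun j => ⟨e, by rw [hz j]; exact (y j).2⟩
  refine ⟨k, a, fun j => ⟨z j, hzm j⟩, fun i => ?_, h5⟩
  apply Subtype.ext
  apply (hbe e).1
  simp only [Submodule.coe_sum, Submodule.coe_smul, Finset.smul_sum]
  have h6 := congrArg (fun q : C => (q : X)) (h4 i)
  simp only [Submodule.coe_sum, Submodule.coe_smul] at h6
  rw [h6]
  refine Finset.sum_congr rfl fun j _ => ?_
  rw [smul_comm, hz j]

end Pool.Agent.DBX.SPR
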