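import Pool.Agent.DBX.SPR.FLJ

set_option autoImplicit false

/-! # MP_2c751f_ag, squad DBX, area SPR: FLK -/

namespace Pool.Agent.DBX.SPR

universe u v

namespace FLK_

/-- Matrix form of the equational criterion, with correction by elements of `N`. -/
theorem matrix {Λ : Type u} {M : Type v} [CommRing Λ] [AddCommGroup M] [Module Λ M]
    (N : Submodule Λ M) (hf : Module.Flat Λ (M ⧸ N)) {n k : ℕ} (a : Fin n → Fin k → Λ)
    (y : Fin k → M) (h : ∀ i, ∑ j, a i j • y j ∈ N) :
    ∃ (s : ℕ) (b : Fin k → Fin s → Λ) (z : Fin s → M),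
      (∀ j, y j - ∑ t, b j t • z t ∈ N) ∧ ∀ i t, ∑ j, a i j * b j t = 0 := by
  classical
  -- linear maps: f : Λ^n → Λ^k (rows of a), x : Λ^k → M/N
  let f : (Fin n →₀ Λ) →ₗ[Λ] (Fin k →₀ Λ) :=
    Finsupp.linearCombination Λ (fun i => Finsupp.equivFunOnFinite.symm (a i))
  let x : (Fin k →₀ Λ) →ₗ[Λ] (M ⧸ N) := Finsupp.linearCombination Λ (fun j => N.mkQ (y j))
  have hx : x ∘ₗ f = 0 := by
    apply Finsupp.lhom_ext'
    intro i
    apply LinearMap.ext_ring
    have h1 : f (Finsupp.single i 1) = Finsupp.equivFunOnFinite.symm (a i) := by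
      simp [f]
    have h2 : x (Finsupp.equivFunOnFinite.symm (a i)) = ∑ j, a i j • N.mkQ (y j) := by
      simp only [x]
      rw [Finsupp.linearCombination_apply, Finsupp.sum_fintype _ _ (fun i => by simp)]
      rfl
    simp only [LinearMap.comp_apply, Finsupp.lsingle_apply, LinearMap.zero_apply]
    rw [h1, h2]
    have h3 : ∑ j, a i j • N.mkQ (y j) = N.mkQ (∑ j, a i j • y j) := by
      simp [map_sum, map_smul]
    rw [h3]
    exact (Submodule.Quotient.mk_eq_zero N).mpr (h i)
  obtain ⟨s, b, z, h1, h2⟩ := Module.Flat.exists_factorization_of_comp_eq_zero_of_free hx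
  choose w hw using fun t => N.mkQ_surjective (z (Finsupp.single t 1))
  refine ⟨s, fun j t => b (Finsupp.single j 1) t, w, fun j => ?_, fun i t => ?_⟩
  · rw [← Submodule.Quotient.mk_eq_zero N]
    have h3 : N.mkQ (y j) = z (b (Finsupp.single j 1)) := by
      have h4 := LinearMap.congr_fun h1 (Finsupp.single j 1)
      simpa [x] using h4
    have h5 : z (b (Finsupp.single j 1)) = ∑ t, b (Finsupp.single j 1) t • N.mkQ (w t) := by
      simp only [hw]
      conv_lhs => rw [← Finsupp.univ_sum_single (b (Finsupp.single j 1))]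
      rw [map_sum]
      refine Finset.sum_congr rfl fun t _ => ?_
      rw [← map_smul]
      simp
    have h6 : N.mkQ (y j - ∑ t, b (Finsupp.single j 1) t • w t) = 0 := by
      rw [map_sub, h3, h5, map_sum]
      simp only [map_smul, sub_self]
    exact h6
  · have h3 := LinearMap.congr_fun h2 (Finsupp.single i 1)
    simp only [LinearMap.comp_apply, LinearMap.zero_apply] at h3
    have h1 : f (Finsupp.single i 1) = Finsupp.equivFunOnFinite.symm (a i) := by
      simp [f]
    rw [h1] at h3
    have h4 : b (Finsupp.equivFunOnFinite.symm (a i)) = ∑ j, a i j • b (Finsupp.single j 1) := by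
      conv_lhs => rw [← Finsupp.univ_sum_single (Finsupp.equivFunOnFinite.symm (a i))]
      rw [map_sum]
      refine Finset.sum_congr rfl fun t _ => ?_
      rw [← map_smul]
      simp
    rw [h4] at h3
    have h5 := DFunLike.congr_fun h3 t
    simpa using h5

end FLK_

theorem flk_proof : Stmt_FLK.{u, v} := by
  intro Λ M _ _ _ N hM hf
  refine Module.Flat.of_forall_isTrivialRelation ?_
  intro n l x h
  have h0 : ∑ i, l i • (x i : M) = 0 := by
    have h3 := congrArg (fun q : N => (q : M)) h
    simpa using h3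
  obtain ⟨k, a, y, h1, h2⟩ := Module.Flat.isTrivialRelation_of_sum_smul_eq_zero h0
  obtain ⟨s, b, z, h3, h4⟩ := FLK_.matrix N hf a y (fun i => by
    have := h1 i
    simp only at this
    rw [← this]
    exact (x i).2)
  refine ⟨k, a, fun j => ⟨_, h3 j⟩, fun i => ?_, h2⟩
  apply Subtype.ext
  simp only [Submodule.coe_sum, Submodule.coe_smul]
  have h5 : (x i : M) = ∑ j, a i j • y j := h1 i
  rw [h5]
  simp only [smul_sub, Finset.sum_sub_distrib]
  have h6 : ∑ j, a i j • ∑ t, b j t • z t = 0 := by
    simp only [Finset.smul_sum, smul_smul]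
    rw [Finset.sum_comm]
    refine Finset.sum_eq_zero fun t _ => ?_
    rw [← Finset.sum_smul, h4 i t, zero_smul]
  rw [h6, sub_zero]

end Pool.Agent.DBX.SPR
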