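import Pool.Agent.DBX.SPR.Stmts

set_option autoImplicit false

/-! # MP_2c751f_ag, squad DBX, area SPR, module FLN -/

namespace Pool.Agent.DBX.SPR

noncomputable section

universe u v

theorem fln_proof : Stmt_FLN.{u, v} := by
  intro R M _ _ _ hM I q hq x hx
  have htop : (⊤ : Submodule R M) = Submodule.span R (Set.range (id : M → M)) := by
    rw [Set.range_id, Submodule.span_univ]
  rw [htop, Submodule.mem_ideal_smul_span_iff_exists_sum] at hx
  obtain ⟨a, ha, hax⟩ := hx
  have hrel : ∑ i : Option a.support, (Option.elim i q (fun j => - a j.1)) •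
      (Option.elim i x (fun j => j.1) : M) = 0 := by
    rw [Fintype.sum_option]
    simp only [Option.elim]
    rw [← hax, Finsupp.sum, ← Finset.sum_coe_sort]
    simp only [id, neg_smul, Finset.sum_neg_distrib]
    exact add_neg_cancel _
  obtain ⟨k, c, y, h1, h2⟩ := Module.Flat.isTrivialRelation_of_sum_smul_eq_zero hrel
  have h3 := h1 none
  simp only [Option.elim] at h3
  rw [h3]
  refine Submodule.sum_mem _ (fun j _ => Submodule.smul_mem_smul ?_ Submodule.mem_top)
  refine hq _ ?_
  have h4 := h2 j
  rw [Fintype.sum_option] at h4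
  simp only [Option.elim] at h4
  have h5 : q * c none j = ∑ i : a.support, a i.1 * c (some i) j := by
    rw [eq_comm, ← sub_eq_zero, ← neg_eq_zero, ← h4, neg_sub, sub_eq_add_neg,
      ← Finset.sum_neg_distrib]
    congr 1
    exact Finset.sum_congr rfl (fun i _ => by rw [neg_mul])
  rw [h5]
  exact Ideal.sum_mem _ (fun i _ => I.mul_mem_right _ (ha _))

end

end Pool.Agent.DBX.SPR
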