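import Pool.Agent.DBX.SPR.Stmts

set_option autoImplicit false

namespace Pool.Agent.DBX.SPR

universe u v

open TensorProduct

theorem fnc_proof : Stmt_FNC.{u, v} := by
  intro Λ X _ _ _ _ Z B G hZ z hz hzt hG
  let K := FractionRing Λ
  let N : Submodule Λ Z := B.comap Z.subtype
  let M := Z ⧸ N
  let V := K ⊗[Λ] M
  let ι : M →ₗ[Λ] V := TensorProduct.mk Λ K M 1
  have hne : ι (N.mkQ ⟨z, hz⟩) ≠ 0 := by
    intro h0
    rw [IsLocalizedModule.eq_zero_iff (nonZeroDivisors Λ) ι] at h0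
    obtain ⟨c, hc⟩ := h0
    have hc1 : ((c : Λ) • (⟨z, hz⟩ : Z)) ∈ N := by
      have h2 : N.mkQ ((c : Λ) • (⟨z, hz⟩ : Z)) = 0 := by
        rw [map_smul]
        exact hc
      rwa [Submodule.mkQ_apply, Submodule.Quotient.mk_eq_zero] at h2
    exact hzt (c : Λ) (nonZeroDivisors.ne_zero c.2) hc1
  obtain ⟨φ, hφ⟩ : ∃ φ : Module.Dual K V, φ (ι (N.mkQ ⟨z, hz⟩)) ≠ 0 := by
    by_contra h
    push Not at h
    exact hne ((Module.forall_dual_apply_eq_zero_iff K _).mp h)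
  let ψ : Z →ₗ[Λ] K := (φ.restrictScalars Λ) ∘ₗ ι ∘ₗ N.mkQ
  have hψB : ∀ x : Z, (x : X) ∈ B → ψ x = 0 := by
    intro x hx
    have : N.mkQ x = 0 := by
      rw [Submodule.mkQ_apply, Submodule.Quotient.mk_eq_zero]
      exact hx
    show φ (ι (N.mkQ x)) = 0
    rw [this, map_zero, map_zero]
  have hψz : ψ ⟨z, hz⟩ ≠ 0 := hφ
  classical
  let G' : Finset K := (G.attach).image (fun g => ψ ⟨g.1, hG g.2⟩)
  obtain ⟨d, hd⟩ := IsLocalization.exist_integer_multiples_of_finset (nonZeroDivisors Λ) G'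
  have hrange : ∀ x : Z, (d : Λ) • ψ x ∈ LinearMap.range (Algebra.linearMap Λ K) := by
    intro x
    have hx := hZ x.2
    obtain ⟨y, hy, b, hb, hyb⟩ := Submodule.mem_sup.mp hx
    have hsp : ∀ y ∈ Submodule.span Λ (G : Set X), ∃ hyZ : y ∈ Z,
        (d : Λ) • ψ ⟨y, hyZ⟩ ∈ LinearMap.range (Algebra.linearMap Λ K) := by
      intro y hy
      induction hy using Submodule.span_induction with
      | mem g hg =>
        refine ⟨hG hg, ?_⟩
        obtain ⟨a, ha⟩ := hd (ψ ⟨g, hG hg⟩) (by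
          simp only [G', Finset.mem_image]
          exact ⟨⟨g, hg⟩, Finset.mem_attach _ _, rfl⟩)
        exact ⟨a, ha⟩
      | zero =>
        refine ⟨Z.zero_mem, ?_⟩
        have : (⟨0, Z.zero_mem⟩ : Z) = 0 := rfl
        rw [this, map_zero, smul_zero]
        exact Submodule.zero_mem _
      | add u v _ _ hu hv =>
        obtain ⟨h1, h2⟩ := hu
        obtain ⟨h3, h4⟩ := hv
        refine ⟨Z.add_mem h1 h3, ?_⟩
        have : (⟨u + v, Z.add_mem h1 h3⟩ : Z) = ⟨u, h1⟩ + ⟨v, h3⟩ := rfl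
        rw [this, map_add, smul_add]
        exact Submodule.add_mem _ h2 h4
      | smul a u _ hu =>
        obtain ⟨h1, h2⟩ := hu
        refine ⟨Z.smul_mem a h1, ?_⟩
        have : (⟨a • u, Z.smul_mem a h1⟩ : Z) = a • ⟨u, h1⟩ := rfl
        rw [this, map_smul, smul_comm]
        exact Submodule.smul_mem _ _ h2
    obtain ⟨hyZ, hyr⟩ := hsp y hy
    have hbZ : b ∈ Z := by
      have : b = (x : X) - y := by rw [← hyb]; abel
      rw [this]
      exact Z.sub_mem x.2 hyZ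
    have hx2 : x = ⟨y, hyZ⟩ + ⟨b, hbZ⟩ := Subtype.ext hyb.symm
    rw [hx2, map_add, hψB ⟨b, hbZ⟩ hb, add_zero]
    exact hyr
  let ψ' : Z →ₗ[Λ] LinearMap.range (Algebra.linearMap Λ K) :=
    ((d : Λ) • ψ).codRestrict _ hrange
  have hinj : Function.Injective (Algebra.linearMap Λ K) := IsFractionRing.injective Λ K
  let e := LinearEquiv.ofInjective (Algebra.linearMap Λ K) hinj
  let μ : Z →ₗ[Λ] Λ := e.symm.toLinearMap ∘ₗ ψ'
  have hμ : ∀ x, algebraMap Λ K (μ x) = (d : Λ) • ψ x := by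
    intro x
    have h1 : e (μ x) = ψ' x := by
      show e (e.symm (ψ' x)) = ψ' x
      exact e.apply_symm_apply _
    have h2 := congrArg Subtype.val h1
    exact h2
  refine ⟨μ, μ ⟨z, hz⟩, ?_, ?_, ?_⟩
  · intro h0
    have h1 := hμ ⟨z, hz⟩
    rw [h0, map_zero, Algebra.smul_def] at h1
    rcases mul_eq_zero.mp h1.symm with h2 | h2
    · rw [← map_zero (algebraMap Λ K)] at h2
      exact nonZeroDivisors.ne_zero d.2 (hinj h2)
    · exact hψz h2
  · intro x hx
    apply hinj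
    show algebraMap Λ K (μ x) = algebraMap Λ K 0
    rw [hμ, hψB x hx, smul_zero, map_zero]
  · intro x hx
    have : x = ⟨z, hz⟩ := Subtype.ext hx
    rw [this]

end Pool.Agent.DBX.SPR
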