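import Pool.Agent.DBX.SPR.Stmts

set_option autoImplicit false

namespace Pool.Agent.DBX.SPR

open MvPolynomial

universe u v

theorem gfl_proof : Stmt_GFL.{u, v} := by
  intro Λ H _ _ _ _ _ _
  have : Module.FinitePresentation Λ H := Module.finitePresentation_of_finite Λ H
  obtain ⟨f, hf, hfree, -⟩ := Module.FinitePresentation.exists_free_localizedModule_powers
    (nonZeroDivisors Λ) (LocalizedModule.mkLinearMap (nonZeroDivisors Λ) H) (FractionRing Λ)
  refine ⟨f, nonZeroDivisors.ne_zero hf, ?_⟩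
  rintro f' ⟨g, rfl⟩ hf'
  have e0 : Module.Flat Λ (Localization (Submonoid.powers f)) :=
    IsLocalization.flat _ (Submonoid.powers f)
  have e1 : Module.Flat Λ (LocalizedModule (Submonoid.powers f) H) :=
    Module.Flat.trans Λ (Localization (Submonoid.powers f)) _
  have hu : ∀ x : Submonoid.powers f, IsUnit ((algebraMap Λ
      (Module.End Λ (LocalizedModule (Submonoid.powers (f * g)) H))) x) := by
    rintro ⟨x, k, rfl⟩
    have h1 := IsLocalizedModule.map_units
      (LocalizedModule.mkLinearMap (Submonoid.powers (f * g)) H)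
      (⟨(f * g) ^ k, k, rfl⟩ : Submonoid.powers (f * g))
    have h2 : ((f * g) ^ k : Λ) = f ^ k * g ^ k := mul_pow _ _ _
    simp only [h2, map_mul] at h1
    have hcomm : Commute ((algebraMap Λ
        (Module.End Λ (LocalizedModule (Submonoid.powers (f * g)) H))) (f ^ k))
        ((algebraMap Λ (Module.End Λ (LocalizedModule (Submonoid.powers (f * g)) H))) (g ^ k)) :=
      Algebra.commutes (f ^ k) _
    simp only [map_pow] at h1 hcomm ⊢
    exact (hcomm.isUnit_mul_iff.1 h1).1
  let l := IsLocalizedModule.lift (Submonoid.powers f)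
    (LocalizedModule.mkLinearMap (Submonoid.powers f) H)
    (LocalizedModule.mkLinearMap (Submonoid.powers (f * g)) H) hu
  have hl : ∀ h : H, l (LocalizedModule.mkLinearMap (Submonoid.powers f) H h) =
      LocalizedModule.mkLinearMap (Submonoid.powers (f * g)) H h := fun h =>
    IsLocalizedModule.lift_apply _ _ _ _ _
  have hloc : IsLocalizedModule (Submonoid.powers (f * g)) l := by
    refine ⟨?_, ?_, ?_⟩
    · intro x
      exact IsLocalizedModule.map_units
        (LocalizedModule.mkLinearMap (Submonoid.powers (f * g)) H) x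
    · intro y
      obtain ⟨⟨h, s⟩, hs⟩ := IsLocalizedModule.surj (Submonoid.powers (f * g))
        (LocalizedModule.mkLinearMap (Submonoid.powers (f * g)) H) y
      refine ⟨(LocalizedModule.mkLinearMap (Submonoid.powers f) H h, s), ?_⟩
      rw [hl]
      exact hs
    · intro x₁ x₂ hx
      obtain ⟨⟨h₁, s₁⟩, hs₁⟩ := IsLocalizedModule.surj (Submonoid.powers f)
        (LocalizedModule.mkLinearMap (Submonoid.powers f) H) x₁
      obtain ⟨⟨h₂, s₂⟩, hs₂⟩ := IsLocalizedModule.surj (Submonoid.powers f)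
        (LocalizedModule.mkLinearMap (Submonoid.powers f) H) x₂
      obtain ⟨⟨_, k₁, rfl⟩, rfl⟩ : ∃ s, s = s₁ := ⟨s₁, rfl⟩
      obtain ⟨⟨_, k₂, rfl⟩, rfl⟩ : ∃ s, s = s₂ := ⟨s₂, rfl⟩
      have hs₁' : f ^ k₁ • x₁ = LocalizedModule.mkLinearMap (Submonoid.powers f) H h₁ := hs₁
      have hs₂' : f ^ k₂ • x₂ = LocalizedModule.mkLinearMap (Submonoid.powers f) H h₂ := hs₂
      have e : LocalizedModule.mkLinearMap (Submonoid.powers (f * g)) H (f ^ k₂ • h₁) =
          LocalizedModule.mkLinearMap (Submonoid.powers (f * g)) H (f ^ k₁ • h₂) := by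
        rw [map_smul, map_smul, ← hl, ← hl, ← hs₁', ← hs₂', map_smul, map_smul, hx,
          smul_smul, smul_smul, mul_comm (f ^ k₂) (f ^ k₁)]
      obtain ⟨⟨_, m, rfl⟩, hc⟩ := IsLocalizedModule.exists_of_eq
        (S := Submonoid.powers (f * g)) e
      have hc' : (f * g) ^ m • (f ^ k₂ • h₁) = (f * g) ^ m • (f ^ k₁ • h₂) := hc
      have hc2 := congrArg (LocalizedModule.mkLinearMap (Submonoid.powers f) H) hc'
      rw [map_smul, map_smul, map_smul, map_smul, ← hs₁', ← hs₂', smul_smul, smul_smul,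
        smul_smul, smul_smul] at hc2
      refine ⟨⟨(f * g) ^ (m + (k₁ + k₂)), _, rfl⟩, ?_⟩
      show (f * g) ^ (m + (k₁ + k₂)) • x₁ = (f * g) ^ (m + (k₁ + k₂)) • x₂
      have hc3 := congrArg (fun z => g ^ (k₁ + k₂) • z) hc2
      simp only [smul_smul] at hc3
      have a1 : (f * g) ^ (m + (k₁ + k₂)) = g ^ (k₁ + k₂) * ((f * g) ^ m * f ^ k₂ * f ^ k₁) := by
        ring
      have a2 : (f * g) ^ (m + (k₁ + k₂)) = g ^ (k₁ + k₂) * ((f * g) ^ m * f ^ k₁ * f ^ k₂) := by
        ring
      rw [a1]
      refine Eq.trans ?_ (hc3.trans ?_)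
      · congr 1
      · congr 1
        ring
  have e2 : Module.Flat (Localization (Submonoid.powers (f * g)))
      (LocalizedModule (Submonoid.powers (f * g)) H) :=
    Module.Flat.of_isLocalizedModule _ (Submonoid.powers (f * g)) l
  have e3 : Module.Flat Λ (Localization (Submonoid.powers (f * g))) :=
    IsLocalization.flat _ (Submonoid.powers (f * g))
  exact Module.Flat.trans Λ (Localization (Submonoid.powers (f * g))) _

end Pool.Agent.DBX.SPR
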