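import Pool.Agent.DBX.SPR.Stmts

set_option autoImplicit false

namespace Pool.Agent.DBX.SPR

noncomputable section

namespace HEN_

open Polynomial

theorem clear (u : ℚ[X]) : ∃ (b : ℤ) (U : ℤ[X]), b ≠ 0 ∧
    U.map (Int.castRingHom ℚ) = C (b : ℚ) * u := by
  obtain ⟨b, hb⟩ := IsLocalization.integerNormalization_map_to_map (nonZeroDivisors ℤ) u
  refine ⟨(b : ℤ), IsLocalization.integerNormalization (nonZeroDivisors ℤ) u,
    nonZeroDivisors.ne_zero b.2, ?_⟩
  have h1 : (algebraMap ℤ ℚ) = Int.castRingHom ℚ := by ext; simp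
  rw [← h1, hb]
  ext m
  rw [coeff_smul, coeff_C_mul]
  change ((b : ℤ)) • (u.coeff m) = _
  rw [zsmul_eq_mul]

theorem bezout (G : ℤ[X]) (h : (G.map (Int.castRingHom ℚ)).Separable) :
    ∃ (M : ℤ) (U V : ℤ[X]), M ≠ 0 ∧ U * G + V * derivative G = C M := by
  obtain ⟨u, v, huv⟩ := h
  obtain ⟨b1, U, hb1, hU⟩ := clear u
  obtain ⟨b2, V, hb2, hV⟩ := clear v
  refine ⟨b1 * b2, C b2 * U, C b1 * V, mul_ne_zero hb1 hb2, ?_⟩
  apply Polynomial.map_injective (Int.castRingHom ℚ) Int.cast_injective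
  rw [Polynomial.map_add, Polynomial.map_mul, Polynomial.map_mul, Polynomial.map_mul,
    Polynomial.map_mul, hU, hV, Polynomial.map_C, Polynomial.map_C, Polynomial.map_C]
  have h2 : (derivative G).map (Int.castRingHom ℚ) = derivative (G.map (Int.castRingHom ℚ)) :=
    (Polynomial.derivative_map G (Int.castRingHom ℚ)).symm
  rw [h2]
  have h3 : C ((Int.castRingHom ℚ) (b1 * b2)) = C (b1 : ℚ) * C (b2 : ℚ) := by
    rw [← C_mul]; simp
  rw [h3]
  have h4 : (Int.castRingHom ℚ) b1 = (b1 : ℚ) := rfl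
  have h5 : (Int.castRingHom ℚ) b2 = (b2 : ℚ) := rfl
  rw [h4, h5]
  linear_combination (C (b1 : ℚ) * C (b2 : ℚ)) * huv

end HEN_

theorem hen_proof (hSCH : Stmt_SCH) : Stmt_HEN := by
  intro G hG hsep n
  obtain ⟨M, U, V, hM, hUV⟩ := HEN_.bezout G hsep
  obtain ⟨p, hp, hpn, a, ha⟩ := hSCH G hG (n + M.natAbs)
  refine ⟨p, hp, by omega, ?_⟩
  have hpM : ¬ (p : ℤ) ∣ M := by
    intro h
    have h1 := Int.natAbs_dvd_natAbs.mpr h
    rw [Int.natAbs_natCast] at h1
    have h2 := Nat.le_of_dvd (Int.natAbs_pos.mpr hM) h1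
    omega
  have hev : U.eval a * G.eval a + V.eval a * (Polynomial.derivative G).eval a = M := by
    have := congrArg (Polynomial.eval a) hUV
    simpa using this
  have hpd : ¬ (p : ℤ) ∣ (Polynomial.derivative G).eval a := by
    intro h
    apply hpM
    rw [← hev]
    exact dvd_add (Dvd.dvd.mul_left ha _) (Dvd.dvd.mul_left h _)
  have hcop : IsCoprime ((Polynomial.derivative G).eval a) (p : ℤ) := by
    have h1 : IsCoprime (p : ℤ) ((Polynomial.derivative G).eval a) :=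
      ((Nat.prime_iff_prime_int.mp hp).coprime_iff_not_dvd).mpr hpd
    exact h1.symm
  obtain ⟨w, z, hwz⟩ := hcop
  obtain ⟨k, hk⟩ := Polynomial.binomExpansion G a (-(G.eval a * w))
  refine ⟨a + -(G.eval a * w), ?_⟩
  rw [hk]
  obtain ⟨c, hc⟩ := ha
  refine ⟨c * z + k * c ^ 2 * w ^ 2, ?_⟩
  rw [hc]
  linear_combination (-(c * p)) * hwz

end

end Pool.Agent.DBX.SPR
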