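import Pool.Agent.DBX.SPR.Stmts

set_option autoImplicit false

/-! # MP_2c751f_ag, squad DBX, area SPR: `Stmt_INJ` from the modules -/

namespace Pool.Agent.DBX.SPR

open MvPolynomial

universe u

namespace INJ_

theorem mem_Cc_iff {Λ : Type u} {X : Type u} [CommRing Λ] [AddCommGroup X] [Module Λ X] {m : ℕ}
    (O : Finset (Fin m) → Submodule Λ X) (x : Finset (Fin m) → X) :
    x ∈ Cc O ↔ x ∅ = 0 ∧ ∀ σ, σ.Nonempty → x σ ∈ O σ := Iff.rfl

end INJ_

theorem inj_proof (hSPM : Stmt_SPM.{u}) (hNTF : Stmt_NTF.{u}) (hLCO : Stmt_LCO.{u})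
    (hLFL : Stmt_LFL.{u}) (hLOO : Stmt_LOO.{u}) (hMCC : Stmt_MCC.{u}) (hRED : Stmt_RED.{u})
    (hCOR : Stmt_COR.{u, u}) : Stmt_INJ.{u} := by
  intro K L _ _ _ _ m N Y hY z hz hcz
  obtain ⟨S, Λ, hFG, hG, hA, hzC⟩ := hSPM K L m N Y hY z hz
  set M := mdl Y S Λ with hM
  -- properties of Λ
  haveI : Algebra.FiniteType ℤ Λ := (Subalgebra.fg_iff_finiteType Λ).mp hFG
  haveI : IsNoetherianRing Λ := Algebra.FiniteType.isNoetherianRing ℤ Λ
  haveI : CharZero Λ := by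
    refine ⟨fun a b hab => ?_⟩
    have := congrArg (fun x : Λ => (x : K)) hab
    simpa using this
  have hcM : M.c = Y.c := rfl
  have hc'M : M.c' = Y.c' := rfl
  obtain ⟨hO, hO'⟩ := hLOO Λ L m N M hG
  obtain ⟨hF, -⟩ := hLFL Λ L m N M hG
  have hzZ : z ∈ Zc (M.O M.c) := ⟨hzC, hcz⟩
  -- scalars act bijectively
  have hbij : ∀ a : Λ, a ≠ 0 → Function.Bijective (fun x : L => a • x) := by
    intro a ha
    have ha' : algebraMap Λ L a ≠ 0 := by
      intro h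
      exact ha (hG.inj (by rw [h, map_zero]))
    constructor
    · intro x y hxy
      simp only [Algebra.smul_def] at hxy
      exact mul_left_cancel₀ ha' hxy
    · intro y
      refine ⟨(algebraMap Λ L a)⁻¹ * y, ?_⟩
      simp only [Algebra.smul_def]
      rw [← mul_assoc, mul_inv_cancel₀ ha', one_mul]
  -- the bound for the primes
  let n0 : ℕ := N + ∑ v, ∑ i, Y.c' v i
  have hn0 : ∀ v i, Y.c' v i ≤ n0 := by
    intro v i
    have h1 : Y.c' v i ≤ ∑ i, Y.c' v i :=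
      Finset.single_le_sum (f := fun i => Y.c' v i) (fun _ _ => Nat.zero_le _) (Finset.mem_univ i)
    have h2 : ∑ i, Y.c' v i ≤ ∑ v, ∑ i, Y.c' v i :=
      Finset.single_le_sum (f := fun v => ∑ i, Y.c' v i) (fun _ _ => Nat.zero_le _)
        (Finset.mem_univ v)
    omega
  have key := hCOR Λ L m (M.O M.c) (M.O M.c') hbij
    (fun σ τ h1 h2 => (hO M.c (Or.inl rfl)).2 σ τ h1 h2)
    (fun σ τ h1 h2 => (hO M.c' (Or.inr rfl)).2 σ τ h1 h2)
    hO' (fun σ hσ => hF M.c (Or.inl rfl) σ hσ) (fun σ hσ => hF M.c' (Or.inr rfl) σ hσ)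
    (hLCO Λ L m N M hG M.c (Or.inl rfl)) (hLCO Λ L m N M hG M.c' (Or.inr rfl)) z hzZ
    (by
      intro f hf
      obtain ⟨p, hp, hnp, φ, hφ⟩ := hNTF Λ f hf n0
      haveI : Fact p.Prime := ⟨hp⟩
      refine ⟨Ideal.comap φ (Ideal.span {(p : ZMod (p ^ 2))}), (hMCC Λ N p φ).2.2, ?_, ?_⟩
      · intro hmem
        have h1 : φ f ∈ Ideal.span {(p : ZMod (p ^ 2))} := hmem
        have h2 : Ideal.span {(p : ZMod (p ^ 2))} = ⊤ := Ideal.eq_top_of_isUnit_mem _ h1 hφ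
        exact (hMCC Λ N p φ).2.2.ne_top (by rw [h2, Ideal.comap_top])
      · obtain ⟨z', hz', y, hy, h1, h2⟩ := hRED Λ L m N M hG p φ
          (fun v i => le_trans (hn0 v i) hnp.le) (by omega) z hzZ
        exact ⟨z', hz', y, hy, h1, h2⟩)
  obtain ⟨a, ha, hmem⟩ := key
  obtain ⟨z', hz', b, hb, hsum⟩ := Submodule.mem_sup.mp hmem
  obtain ⟨y, hy, rfl⟩ := hb
  have ha' : algebraMap Λ L a ≠ 0 := by
    intro h
    exact ha (hG.inj (by rw [h, map_zero]))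
  -- membership over K
  have hAsle : ∀ σ, ∀ x : L, x ∈ M.As σ → x ∈ Y.As σ := by
    intro σ x hx
    have hle : ∀ v, ∀ x : L, x ∈ M.A v → x ∈ Y.A v := fun v x hx => hA v hx
    have : M.As σ ≤ (Y.As σ).restrictScalars Λ := by
      refine iSup₂_le fun v hv => ?_
      intro x hx
      exact (le_iSup₂_of_le (f := fun v (_ : v ∈ σ) => Y.A v) v hv le_rfl) (hle v x hx)
    exact this hx
  have hOle : ∀ (d : Fin m → Fin N → ℕ) σ (x : L), x ∈ M.O d σ → x ∈ Y.O d σ := by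
    intro d σ x hx v hv
    exact hAsle σ _ (hx v hv)
  have hsc : ∀ (d : Fin m → Fin N → ℕ) σ (x : L), x ∈ Y.O d σ →
      (algebraMap Λ L a)⁻¹ * x ∈ Y.O d σ := by
    intro d σ x hx v hv
    have h1 := (Y.As σ).smul_mem (hx v hv) ((a : K)⁻¹)
    have h2 : (algebraMap Λ L a)⁻¹ * x / ∏ i, Y.t v i ^ d v i =
        ((a : K)⁻¹) • (x / ∏ i, Y.t v i ^ d v i) := by
      rw [Algebra.smul_def, map_inv₀, mul_div_assoc]
      rfl
    rw [h2]
    exact h1
  refine ⟨fun σ => (algebraMap Λ L a)⁻¹ * z' σ, fun σ => (algebraMap Λ L a)⁻¹ * y σ, ?_, ?_, ?_, ?_⟩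
  · refine ⟨?_, fun σ hσ => ?_⟩
    · have : z' ∅ = 0 := hz'.1.1
      simp [this]
    · exact hsc Y.c' σ _ (hOle Y.c' σ _ (hz'.1.2 σ hσ))
  · funext σ
    have h1 : cd z' = 0 := hz'.2
    have h2 : cd z' σ = 0 := congrFun h1 σ
    have h3 : cd (fun σ => (algebraMap Λ L a)⁻¹ * z' σ) σ = (algebraMap Λ L a)⁻¹ * cd z' σ := by
      simp only [cd, Finset.mul_sum]
      refine Finset.sum_congr rfl fun v _ => ?_
      rw [mul_smul_comm]
    rw [h3, h2, mul_zero]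
    rfl
  · refine ⟨?_, fun σ hσ => ?_⟩
    · have : y ∅ = 0 := hy.1
      simp [this]
    · exact hsc Y.c σ _ (hOle Y.c σ _ (hy.2 σ hσ))
  · funext σ
    have h3 : cd (fun σ => (algebraMap Λ L a)⁻¹ * y σ) σ = (algebraMap Λ L a)⁻¹ * cd y σ := by
      simp only [cd, Finset.mul_sum]
      refine Finset.sum_congr rfl fun v _ => ?_
      rw [mul_smul_comm]
    have h4 := congrFun hsum σ
    simp only [Pi.add_apply, Pi.smul_apply, Algebra.smul_def] at h4
    have h5 : (cdL Λ L m y) σ = cd y σ := rfl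
    rw [h5] at h4
    simp only [Pi.add_apply]
    rw [h3, ← mul_add, h4, ← mul_assoc, inv_mul_cancel₀ ha', one_mul]

end Pool.Agent.DBX.SPR
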