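import Pool.Agent.DBX.SPR.Stmts

/-!
# DBX, area SPR, module LCO: finiteness of the cohomology of a good model, from Serre's theorem
-/

set_option autoImplicit false

namespace Pool.Agent.DBX.SPR

open MvPolynomial

noncomputable section

universe u

namespace LCO_

variable {Λ L : Type u} [CommRing Λ] [Field L] [Algebra Λ L] {m N : ℕ}

/-- the functions `h v` as units -/
def hu (Y : LMod Λ L m N) (hY : Y.Good) (v : Fin m) : Lˣ := Units.mk0 (Y.h v) (hY.h_ne v)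

theorem hu_div (Y : LMod Λ L m N) (hY : Y.Good) (v w : Fin m) :
    ((hu Y hY w : Lˣ) : L) * ((hu Y hY v)⁻¹ : Lˣ) = Y.h w / Y.h v := by
  rw [div_eq_mul_inv]; rfl

theorem As_mono (Y : LMod Λ L m N) {σ τ : Finset (Fin m)} (h : σ ⊆ τ) : Y.As σ ≤ Y.As τ :=
  biSup_mono (fun _ hv => h hv)

theorem A_le (Y : LMod Λ L m N) {σ : Finset (Fin m)} {v : Fin m} (hv : v ∈ σ) :
    Y.A v ≤ Y.As σ :=
  le_iSup₂_of_le v hv le_rfl

theorem As_single (Y : LMod Λ L m N) (v : Fin m) : Y.As {v} = Y.A v := by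
  unfold LMod.As
  simp

theorem Prg_le (Y : LMod Λ L m N) (hY : Y.Good) (σ : Finset (Fin m)) :
    Prg Λ (hu Y hY) σ ≤ Y.As σ := by
  refine Algebra.adjoin_le ?_
  rintro z ⟨v, hv, w, rfl⟩
  rw [hu_div]
  exact A_le Y hv (hY.h_mem v w)

theorem mem_Prg (Y : LMod Λ L m N) (hY : Y.Good) {σ : Finset (Fin m)} {v : Fin m} (hv : v ∈ σ)
    (w : Fin m) : Y.h w / Y.h v ∈ Prg Λ (hu Y hY) σ :=
  Algebra.subset_adjoin ⟨v, hv, w, (hu_div Y hY v w).symm⟩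

theorem Prg_single (Y : LMod Λ L m N) (hY : Y.Good) (v : Fin m) :
    Prg Λ (hu Y hY) {v} = Y.P v := by
  unfold Prg LMod.P
  congr 1
  ext z
  constructor
  · rintro ⟨v', hv', w, rfl⟩
    rw [Finset.mem_singleton] at hv'
    subst hv'
    exact ⟨w, hu_div Y hY v' w⟩
  · rintro ⟨w, rfl⟩
    exact ⟨v, Finset.mem_singleton_self v, w, (hu_div Y hY v w).symm⟩

theorem prod_ne (Y : LMod Λ L m N) (hY : Y.Good) (v : Fin m) (d : Fin m → Fin N → ℕ) :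
    ∏ i, Y.t v i ^ d v i ≠ 0 :=
  Finset.prod_ne_zero_iff.mpr (fun i _ => pow_ne_zero _ (hY.t_ne v i))

theorem coh (hLAS : Stmt_LAS.{u}) (hLOO : Stmt_LOO.{u}) (Y : LMod Λ L m N) (hY : Y.Good)
    (d : Fin m → Fin N → ℕ) (hd : d = Y.c ∨ d = Y.c') : Coh (hu Y hY) (Y.O d) := by
  obtain ⟨las, -⟩ := hLAS Λ L m N Y hY
  obtain ⟨loo, -⟩ := hLOO Λ L m N Y hY
  obtain ⟨lo, lm⟩ := loo d hd
  refine ⟨?_, lm, ?_, ?_⟩
  · intro σ _ a ha x hx v hv
    rw [smul_eq_mul, mul_div_assoc]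
    exact (Y.As σ).mul_mem (Prg_le Y hY σ ha) (hx v hv)
  · rintro σ τ ⟨v, hv⟩ hστ x hx
    have h1 : x / ∏ i, Y.t v i ^ d v i ∈ Y.As τ := hx v (hστ hv)
    obtain ⟨e, he⟩ := (las τ v (hστ hv) _).mp h1
    have h2 : x * (∏ w ∈ τ, Y.h w / Y.h v) ^ e ∈ Y.O d σ := by
      rw [lo σ v hv, mul_div_right_comm]
      exact A_le Y hv he
    have h3 : (∏ w ∈ τ, Y.h v / Y.h w) ^ e ∈ Prg Λ (hu Y hY) τ :=
      (Prg Λ (hu Y hY) τ).pow_mem
        ((Prg Λ (hu Y hY) τ).prod_mem (fun w hw => mem_Prg Y hY hw v)) e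
    have h4 : (∏ w ∈ τ, Y.h v / Y.h w) * (∏ w ∈ τ, Y.h w / Y.h v) = 1 := by
      rw [← Finset.prod_mul_distrib]
      refine Finset.prod_eq_one (fun w _ => ?_)
      have h5 := hY.h_ne v
      have h6 := hY.h_ne w
      field_simp
    have h7 : x = (⟨_, h3⟩ : Prg Λ (hu Y hY) τ) • (x * (∏ w ∈ τ, Y.h w / Y.h v) ^ e) := by
      change x = (∏ w ∈ τ, Y.h v / Y.h w) ^ e * (x * (∏ w ∈ τ, Y.h w / Y.h v) ^ e)
      rw [mul_left_comm, ← mul_pow, h4, one_pow, mul_one]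
    rw [h7]
    exact Submodule.smul_mem _ _ (Submodule.subset_span h2)
  · intro v
    obtain ⟨G, hG, hG'⟩ := hY.fin v
    classical
    have hπ := prod_ne Y hY v d
    refine ⟨G.image (fun g => g * ∏ i, Y.t v i ^ d v i), ?_, ?_⟩
    · intro x hx
      rw [Finset.coe_image] at hx
      obtain ⟨g, hg, rfl⟩ := hx
      change g * ∏ i, Y.t v i ^ d v i ∈ Y.O d {v}
      rw [lo {v} v (Finset.mem_singleton_self v), mul_div_cancel_right₀ _ hπ]
      exact A_le Y (Finset.mem_singleton_self v) (hG hg)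
    · intro x hx
      have h1 : x / ∏ i, Y.t v i ^ d v i ∈ Y.A v := by
        rw [← As_single]
        exact hx v (Finset.mem_singleton_self v)
      have h2 := hG' _ h1
      rw [Prg_single, Finset.coe_image]
      have h3 : x = (x / ∏ i, Y.t v i ^ d v i) * ∏ i, Y.t v i ^ d v i :=
        (div_mul_cancel₀ x hπ).symm
      rw [h3]
      have h4 := Submodule.mem_map_of_mem
        (f := LinearMap.mulRight (Y.P v) (∏ i, Y.t v i ^ d v i)) h2
      rw [Submodule.map_span] at h4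
      exact h4

end LCO_

open LCO_ in
theorem lco_proof (hSER1 : Stmt_SER1.{u, u}) (hLAS : Stmt_LAS.{u}) (hLOO : Stmt_LOO.{u}) :
    Stmt_LCO.{u} := by
  intro Λ L _ _ _ _ m N Y hY d hd
  obtain ⟨G, hG, hG'⟩ := hSER1 Λ L L m (hu Y hY) (Y.O d) (coh hLAS hLOO Y hY d hd)
  refine ⟨G, ?_, ?_⟩
  · intro x hx
    obtain ⟨h1, h2⟩ := hG x hx
    exact ⟨h1, h2⟩
  · rintro x ⟨h1, h2⟩
    obtain ⟨y, hy, hxy⟩ := hG' x h1 h2
    rw [Submodule.mem_sup]
    exact ⟨x - cd y, hxy, cd y, ⟨y, hy, rfl⟩, sub_add_cancel x (cd y)⟩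

end

end Pool.Agent.DBX.SPR
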