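import Pool.Agent.DBX.SPR.Stmts

set_option autoImplicit false

namespace Pool.Agent.DBX.SPR

open MvPolynomial

universe u

namespace LFL_

variable {Λ L : Type u} [CommRing Λ] [Field L] [Algebra Λ L]

/-- Localisations and twists of flat submodules are flat. -/
theorem key (A B : Submodule Λ L) (s u : L) (hs : s ≠ 0) (hu : u ≠ 0)
    (hsA : ∀ x ∈ A, s * x ∈ A) (h1 : ∀ x ∈ B, ∃ e : ℕ, x / u * s ^ e ∈ A)
    (h2 : ∀ y ∈ A, ∀ e : ℕ, u * (y / s ^ e) ∈ B) (hA : Module.Flat Λ A) : Module.Flat Λ B := by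
  apply Module.Flat.of_forall_isTrivialRelation
  intro l f x hfx
  have hpow : ∀ (e : ℕ) (z : L), z ∈ A → s ^ e * z ∈ A := by
    intro e
    induction e with
    | zero => intro z hz; rw [pow_zero, one_mul]; exact hz
    | succ e ih =>
      intro z hz
      rw [pow_succ', mul_assoc]
      exact hsA _ (ih z hz)
  choose e he using fun i => h1 (x i : L) (x i).2
  have hE : ∀ i, (x i : L) / u * s ^ (∑ j, e j) ∈ A := by
    intro i
    have h3 : ∑ j, e j = e i + ∑ j ∈ Finset.univ.erase i, e j :=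
      (Finset.add_sum_erase _ _ (Finset.mem_univ i)).symm
    have h4 := hpow (∑ j ∈ Finset.univ.erase i, e j) _ (he i)
    rw [h3, pow_add, ← mul_assoc, mul_comm]
    exact h4
  have hsE : s ^ (∑ j, e j) ≠ 0 := pow_ne_zero _ hs
  have hrel : ∑ i, f i • (⟨(x i : L) / u * s ^ (∑ j, e j), hE i⟩ : A) = 0 := by
    apply Subtype.ext
    have h5 := congrArg (Subtype.val : B → L) hfx
    rw [Submodule.coe_sum, Submodule.coe_zero] at h5
    rw [Submodule.coe_sum, Submodule.coe_zero]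
    have h6 : ∀ i, ((f i • (⟨(x i : L) / u * s ^ (∑ j, e j), hE i⟩ : A) : A) : L) =
        ((f i • x i : B) : L) * (u⁻¹ * s ^ (∑ j, e j)) := by
      intro i
      rw [Submodule.coe_smul, Submodule.coe_smul, smul_mul_assoc]
      congr 1
      change (x i : L) / u * s ^ (∑ j, e j) = _
      rw [div_eq_mul_inv, mul_assoc]
    rw [Finset.sum_congr rfl (fun i _ => h6 i), ← Finset.sum_mul, h5, zero_mul]
  obtain ⟨k, a, y, hy, ha⟩ := Module.Flat.isTrivialRelation_of_sum_smul_eq_zero hrel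
  refine ⟨k, a, fun j => ⟨u * ((y j : L) / s ^ (∑ j, e j)), h2 _ (y j).2 _⟩, ?_, ha⟩
  intro i
  apply Subtype.ext
  rw [Submodule.coe_sum]
  have h7 := congrArg (Subtype.val : A → L) (hy i)
  rw [Submodule.coe_sum] at h7
  have h8 : (x i : L) = (∑ j, ((a i j • y j : A) : L)) * (u * (s ^ (∑ j, e j))⁻¹) := by
    rw [← h7]
    field_simp
  rw [h8, Finset.sum_mul]
  refine Finset.sum_congr rfl fun j _ => ?_
  rw [Submodule.coe_smul, Submodule.coe_smul, smul_mul_assoc]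
  congr 1
  change (y j : L) * (u * (s ^ (∑ j, e j))⁻¹) = u * ((y j : L) / s ^ (∑ j, e j))
  rw [div_eq_mul_inv]
  ring

end LFL_

open LFL_ in
theorem lfl_proof (hEFL : Stmt_EFL.{u}) (hLAS : Stmt_LAS.{u}) (hLOO : Stmt_LOO.{u})
    (hLQL : Stmt_LQL.{u}) : Stmt_LFL.{u} := by
  intro Λ L _ _ _ m N Y hY
  have hflat : ∀ v, Module.Flat Λ (Subalgebra.toSubmodule (Y.A v)) := by
    intro v
    exact (hEFL Λ L N (Y.A v) _ (hY.etale v)).1
  have hhne : ∀ v w, Y.h w / Y.h v ≠ 0 := fun v w => div_ne_zero (hY.h_ne w) (hY.h_ne v)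
  have htne : ∀ (d : Fin m → Fin N → ℕ) v, ∏ i, Y.t v i ^ d v i ≠ 0 := fun d v =>
    Finset.prod_ne_zero_iff.mpr fun i _ => pow_ne_zero _ (hY.t_ne v i)
  constructor
  · intro d hd σ hσ
    obtain ⟨v, hv⟩ := hσ
    obtain ⟨hL1, hL2⟩ := hLAS Λ L m N Y hY
    have hO := ((hLOO Λ L m N Y hY).1 d hd).1 σ v hv
    refine key (Subalgebra.toSubmodule (Y.A v)) (Y.O d σ) (∏ w ∈ σ, Y.h w / Y.h v)
      (∏ i, Y.t v i ^ d v i) (Finset.prod_ne_zero_iff.mpr fun w _ => hhne v w) (htne d v)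
      ?_ ?_ ?_ (hflat v)
    · intro x hx
      exact (Y.A v).mul_mem ((Y.A v).prod_mem fun w _ => hY.h_mem v w) hx
    · intro x hx
      exact (hL1 σ v hv _).mp ((hO x).mp hx)
    · intro y hy e
      rw [hO, mul_div_cancel_left₀ _ (htne d v), hL1 σ v hv]
      refine ⟨e, ?_⟩
      rw [div_mul_cancel₀ _ (pow_ne_zero _
        (Finset.prod_ne_zero_iff.mpr fun w _ => hhne v w))]
      exact hy
  · intro hm
    have hA : ∀ v, Y.A v ≤ Y.QL := fun v x hx => Algebra.subset_adjoin (Or.inl ⟨v, hx⟩)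
    have hti : ∀ v i, (Y.t v i)⁻¹ ∈ Y.QL := fun v i => Algebra.subset_adjoin (Or.inr ⟨v, i, rfl⟩)
    have hq := hLQL Λ L m N Y hY ⟨0, hm⟩
    have hs0 : (∏ w, Y.h w / Y.h ⟨0, hm⟩) * (∏ i, Y.t ⟨0, hm⟩ i ^ Y.c ⟨0, hm⟩ i) ≠ 0 :=
      mul_ne_zero (Finset.prod_ne_zero_iff.mpr fun w _ => hhne _ w) (htne _ _)
    have hsi : ((∏ w, Y.h w / Y.h ⟨0, hm⟩) *
        (∏ i, Y.t ⟨0, hm⟩ i ^ Y.c ⟨0, hm⟩ i))⁻¹ ∈ Y.QL := by
      rw [mul_inv, ← Finset.prod_inv_distrib, ← Finset.prod_inv_distrib]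
      refine Y.QL.mul_mem (Y.QL.prod_mem fun w _ => ?_) (Y.QL.prod_mem fun i _ => ?_)
      · rw [inv_div]
        exact hA w (hY.h_mem w _)
      · rw [← inv_pow]
        exact Y.QL.pow_mem (hti _ i) _
    refine key (Subalgebra.toSubmodule (Y.A ⟨0, hm⟩)) (Subalgebra.toSubmodule Y.QL)
      ((∏ w, Y.h w / Y.h ⟨0, hm⟩) * (∏ i, Y.t ⟨0, hm⟩ i ^ Y.c ⟨0, hm⟩ i)) 1 hs0 one_ne_zero
      ?_ ?_ ?_ (hflat _)
    · intro x hx
      refine (Y.A ⟨0, hm⟩).mul_mem ((Y.A ⟨0, hm⟩).mul_mem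
        ((Y.A ⟨0, hm⟩).prod_mem fun w _ => hY.h_mem _ w)
        ((Y.A ⟨0, hm⟩).prod_mem fun i _ => (Y.A ⟨0, hm⟩).pow_mem (hY.t_mem _ i) _)) hx
    · intro x hx
      obtain ⟨e, he⟩ := hq x hx
      refine ⟨e, ?_⟩
      rw [div_one, mul_pow, ← mul_assoc]
      exact he
    · intro y hy e
      rw [one_mul, div_eq_mul_inv, ← inv_pow]
      exact Y.QL.mul_mem (hA _ hy) (Y.QL.pow_mem hsi e)

end Pool.Agent.DBX.SPR
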