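import Pool.Agent.DBX.SPR.Stmts

set_option autoImplicit false

/-! # MP_2c751f_ag, squad DBX, area SPR, module LOO -/

namespace Pool.Agent.DBX.SPR

universe u

namespace LOO_

variable {Λ L : Type u} [CommRing Λ] [Field L] [Algebra Λ L] {m N : ℕ}

lemma As_mono (Y : LMod Λ L m N) {σ τ : Finset (Fin m)} (h : σ ⊆ τ) : Y.As σ ≤ Y.As τ := by
  unfold LMod.As
  refine iSup₂_le fun v hv => ?_
  exact le_iSup₂_of_le v (h hv) le_rfl

lemma A_le (Y : LMod Λ L m N) {σ : Finset (Fin m)} {v : Fin m} (h : v ∈ σ) : Y.A v ≤ Y.As σ := by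
  unfold LMod.As
  exact le_iSup₂_of_le v h le_rfl

lemma prod_ne (Y : LMod Λ L m N) (hY : Y.Good) (d : Fin m → Fin N → ℕ) (v : Fin m) :
    (∏ i, Y.t v i ^ d v i) ≠ 0 :=
  Finset.prod_ne_zero_iff.2 fun i _ => pow_ne_zero _ (hY.t_ne v i)

lemma ratio (Y : LMod Λ L m N) (hY : Y.Good) (d : Fin m → Fin N → ℕ) (hd : d = Y.c ∨ d = Y.c')
    {σ : Finset (Fin m)} {v w : Fin m} (hv : v ∈ σ) (hw : w ∈ σ) :
    (∏ i, Y.t v i ^ d v i) / (∏ i, Y.t w i ^ d w i) ∈ Y.As σ := by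
  have hs : ({v, w} : Finset (Fin m)) ⊆ σ := by
    intro x hx
    rcases Finset.mem_insert.1 hx with rfl | hx
    · exact hv
    · rw [Finset.mem_singleton.1 hx]; exact hw
  rcases hd with rfl | rfl
  · exact As_mono Y hs (hY.c_glue v w)
  · exact As_mono Y hs (hY.c'_glue v w)

lemma mem_iff (Y : LMod Λ L m N) (hY : Y.Good) (d : Fin m → Fin N → ℕ)
    (hd : d = Y.c ∨ d = Y.c') (σ : Finset (Fin m)) (v : Fin m) (hv : v ∈ σ) (z : L) :
    z ∈ Y.O d σ ↔ z / ∏ i, Y.t v i ^ d v i ∈ Y.As σ := by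
  constructor
  · intro h
    exact h v hv
  · intro h w hw
    have h1 := ratio Y hY d hd hv hw
    have h2 := (Y.As σ).mul_mem h h1
    have h3 := prod_ne Y hY d v
    have h4 := prod_ne Y hY d w
    have h5 : z / (∏ i, Y.t v i ^ d v i) * ((∏ i, Y.t v i ^ d v i) / (∏ i, Y.t w i ^ d w i))
        = z / ∏ i, Y.t w i ^ d w i := by
      field_simp
    rw [h5] at h2
    exact h2

end LOO_

theorem loo_proof (_hLAS : Stmt_LAS.{u}) : Stmt_LOO.{u} := by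
  intro Λ L _ _ _ m N Y hY
  refine ⟨fun d hd => ⟨fun σ v hv z => LOO_.mem_iff Y hY d hd σ v hv z, ?_⟩, ?_⟩
  · intro σ τ hσ hστ z hz
    obtain ⟨v, hv⟩ := hσ
    exact (LOO_.mem_iff Y hY d hd τ v (hστ hv) z).2 (LOO_.As_mono Y hστ (hz v hv))
  · intro σ hσ z hz v hv
    have h1 : z / ∏ i, Y.t v i ^ Y.c' v i ∈ Y.As σ := hz v hv
    have h2 : ∀ i, Y.c v i ≤ Y.c' v i := by
      intro i
      have h3 := hY.c_le v i
      have h4 := hY.c_supp v i
      by_cases h5 : Y.c v i = 0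
      · omega
      · have : Y.c' v i ≠ 0 := fun h => h5 (h4.2 h)
        omega
    have h3 : (∏ i, Y.t v i ^ (Y.c' v i - Y.c v i)) ∈ Y.As σ := by
      refine Subalgebra.prod_mem _ fun i _ => ?_
      exact Subalgebra.pow_mem _ (LOO_.A_le Y hv (hY.t_mem v i)) _
    have h4 : (∏ i, Y.t v i ^ Y.c' v i)
        = (∏ i, Y.t v i ^ (Y.c' v i - Y.c v i)) * ∏ i, Y.t v i ^ Y.c v i := by
      rw [← Finset.prod_mul_distrib]
      refine Finset.prod_congr rfl fun i _ => ?_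
      rw [← pow_add, Nat.sub_add_cancel (h2 i)]
    have h5 := (Y.As σ).mul_mem h1 h3
    have h6 := LOO_.prod_ne Y hY Y.c v
    have h7 : (∏ i, Y.t v i ^ (Y.c' v i - Y.c v i)) ≠ 0 :=
      Finset.prod_ne_zero_iff.2 fun i _ => pow_ne_zero _ (hY.t_ne v i)
    have h8 : z / (∏ i, Y.t v i ^ Y.c' v i) * (∏ i, Y.t v i ^ (Y.c' v i - Y.c v i))
        = z / ∏ i, Y.t v i ^ Y.c v i := by
      rw [h4]
      field_simp
    rw [h8] at h5
    exact h5

end Pool.Agent.DBX.SPR
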