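import Pool.Agent.DBX.SPR.Stmts

set_option autoImplicit false

/-! # MP_2c751f_ag, squad DBX, area SPR, module LQL -/

namespace Pool.Agent.DBX.SPR

universe u

namespace LQL_

variable {Λ L : Type u} [CommRing Λ] [Field L] [Algebra Λ L] {m N : ℕ}

lemma As_mono (Y : LMod Λ L m N) {σ τ : Finset (Fin m)} (h : σ ⊆ τ) : Y.As σ ≤ Y.As τ := by
  unfold LMod.As
  refine iSup₂_le fun v hv => ?_
  exact le_iSup₂_of_le v (h hv) le_rfl

lemma A_le (Y : LMod Λ L m N) {σ : Finset (Fin m)} {v : Fin m} (h : v ∈ σ) : Y.A v ≤ Y.As σ := by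
  unfold LMod.As
  exact le_iSup₂_of_le v h le_rfl

lemma prod_ne (Y : LMod Λ L m N) (hY : Y.Good) (d : Fin m → Fin N → ℕ) (v : Fin m) :
    (∏ i, Y.t v i ^ d v i) ≠ 0 :=
  Finset.prod_ne_zero_iff.2 fun i _ => pow_ne_zero _ (hY.t_ne v i)

end LQL_

theorem lql_proof (hLAS : Stmt_LAS.{u}) : Stmt_LQL.{u} := by
  intro Λ L _ _ _ m N Y hY v x hx
  have hs : (∏ w, Y.h w / Y.h v) ∈ Y.A v := Subalgebra.prod_mem _ fun w _ => hY.h_mem v w
  have hT : (∏ i, Y.t v i ^ Y.c v i) ∈ Y.A v :=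
    Subalgebra.prod_mem _ fun i _ => Subalgebra.pow_mem _ (hY.t_mem v i) _
  have key : ∀ z, z ∈ Y.As Finset.univ → ∃ e : ℕ, z * (∏ w, Y.h w / Y.h v) ^ e ∈ Y.A v :=
    fun z hz => ((hLAS Λ L m N Y hY).1 Finset.univ v (Finset.mem_univ v) z).1 hz
  have fin : ∀ z, (∃ e : ℕ, z * (∏ w, Y.h w / Y.h v) ^ e ∈ Y.A v) →
      ∃ e : ℕ, z * (∏ w, Y.h w / Y.h v) ^ e * (∏ i, Y.t v i ^ Y.c v i) ^ e ∈ Y.A v := by
    rintro z ⟨e, he⟩
    exact ⟨e, (Y.A v).mul_mem he (Subalgebra.pow_mem _ hT _)⟩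
  unfold LMod.QL at hx
  induction hx using Algebra.adjoin_induction with
  | mem z hz =>
    rcases hz with ⟨w, hz⟩ | ⟨w, i, rfl⟩
    · exact fin z (key z (LQL_.A_le Y (Finset.mem_univ w) hz))
    · by_cases hc : Y.c w i = 0
      · exact fin _ (key _ (LQL_.A_le Y (Finset.mem_univ w) (hY.t_inv w i hc)))
      · have hc1 : Y.c w i = 1 := by
          have := hY.c_le w i
          omega
        have h1 : (Y.t w i)⁻¹ * (∏ j, Y.t w j ^ Y.c w j) ∈ Y.A w := by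
          rw [← Finset.mul_prod_erase Finset.univ (fun j => Y.t w j ^ Y.c w j)
            (Finset.mem_univ i), hc1, pow_one, ← mul_assoc, inv_mul_cancel₀ (hY.t_ne w i), one_mul]
          exact Subalgebra.prod_mem _ fun j _ => Subalgebra.pow_mem _ (hY.t_mem w j) _
        have h2 : (∏ i, Y.t v i ^ Y.c v i) / (∏ i, Y.t w i ^ Y.c w i) ∈ Y.As Finset.univ :=
          LQL_.As_mono Y (Finset.subset_univ _) (hY.c_glue v w)
        have h3 := (Y.As Finset.univ).mul_mem (LQL_.A_le Y (Finset.mem_univ w) h1) h2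
        have h4 := LQL_.prod_ne Y hY Y.c w
        have h5 : (Y.t w i)⁻¹ * (∏ j, Y.t w j ^ Y.c w j) *
            ((∏ i, Y.t v i ^ Y.c v i) / (∏ i, Y.t w i ^ Y.c w i))
            = (Y.t w i)⁻¹ * ∏ i, Y.t v i ^ Y.c v i := by
          field_simp
        rw [h5] at h3
        obtain ⟨e, he⟩ := key _ h3
        refine ⟨e + 1, ?_⟩
        have h6 := (Y.A v).mul_mem he ((Y.A v).mul_mem hs (Subalgebra.pow_mem _ hT e))
        have h7 : (Y.t w i)⁻¹ * (∏ i, Y.t v i ^ Y.c v i) * (∏ w, Y.h w / Y.h v) ^ e *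
            ((∏ w, Y.h w / Y.h v) * (∏ i, Y.t v i ^ Y.c v i) ^ e)
            = (Y.t w i)⁻¹ * (∏ w, Y.h w / Y.h v) ^ (e + 1) *
              (∏ i, Y.t v i ^ Y.c v i) ^ (e + 1) := by
          ring
        rw [h7] at h6
        exact h6
  | algebraMap r =>
    exact ⟨0, by simpa using (Y.A v).algebraMap_mem r⟩
  | add a b _ _ ha hb =>
    obtain ⟨e, he⟩ := ha
    obtain ⟨e', he'⟩ := hb
    refine ⟨e + e', ?_⟩
    have h1 := (Y.A v).mul_mem he ((Y.A v).mul_mem (Subalgebra.pow_mem _ hs e')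
      (Subalgebra.pow_mem _ hT e'))
    have h2 := (Y.A v).mul_mem he' ((Y.A v).mul_mem (Subalgebra.pow_mem _ hs e)
      (Subalgebra.pow_mem _ hT e))
    have h3 := (Y.A v).add_mem h1 h2
    convert h3 using 1
    ring
  | mul a b _ _ ha hb =>
    obtain ⟨e, he⟩ := ha
    obtain ⟨e', he'⟩ := hb
    refine ⟨e + e', ?_⟩
    have h1 := (Y.A v).mul_mem he he'
    convert h1 using 1
    ring

end Pool.Agent.DBX.SPR
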