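import Pool.Agent.DBX.SPR.Stmts

set_option autoImplicit false

/-! # MP_2c751f_ag, squad DBX, area SPR: module LSA -/

namespace Pool.Agent.DBX.SPR

open MvPolynomial

noncomputable section

universe u

namespace LSA_

section
variable {Λ L : Type u} [CommRing Λ] [Field L] [Algebra Λ L]

theorem mul_mem_J (A : Subalgebra Λ L) (J : Ideal Λ) {a x : L} (ha : a ∈ A)
    (hx : x ∈ J • Subalgebra.toSubmodule A) : a * x ∈ J • Subalgebra.toSubmodule A := by
  refine Submodule.smul_induction_on hx ?_ ?_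
  · intro r hr n hn
    rw [mul_smul_comm]
    exact Submodule.smul_mem_smul hr (A.mul_mem ha hn)
  · intro x y hx hy
    rw [mul_add]
    exact Submodule.add_mem _ hx hy

/-- `s ∈ A` can be cancelled modulo `J A`. -/
def Can (A : Subalgebra Λ L) (J : Ideal Λ) (s : L) : Prop :=
  s ∈ A ∧ ∀ x ∈ A, s * x ∈ J • Subalgebra.toSubmodule A → x ∈ J • Subalgebra.toSubmodule A

theorem can_one (A : Subalgebra Λ L) (J : Ideal Λ) : Can A J 1 :=
  ⟨A.one_mem, fun x _ h => by rwa [one_mul] at h⟩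

theorem can_mul {A : Subalgebra Λ L} {J : Ideal Λ} {s s' : L} (h : Can A J s) (h' : Can A J s') :
    Can A J (s * s') :=
  ⟨A.mul_mem h.1 h'.1, fun x hx hm => h'.2 x hx (h.2 _ (A.mul_mem h'.1 hx)
    (by rwa [mul_assoc] at hm))⟩

theorem can_pow {A : Subalgebra Λ L} {J : Ideal Λ} {s : L} (h : Can A J s) (e : ℕ) :
    Can A J (s ^ e) := by
  induction e with
  | zero => rw [pow_zero]; exact can_one A J
  | succ e ih => rw [pow_succ]; exact can_mul ih h

theorem can_prod {A : Subalgebra Λ L} {J : Ideal Λ} {ι : Type*} (S : Finset ι) (f : ι → L)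
    (h : ∀ i ∈ S, Can A J (f i)) : Can A J (∏ i ∈ S, f i) := by
  classical
  induction S using Finset.induction_on with
  | empty => rw [Finset.prod_empty]; exact can_one A J
  | insert a S ha ih =>
    rw [Finset.prod_insert ha]
    exact can_mul (h a (Finset.mem_insert_self a S))
      (ih (fun i hi => h i (Finset.mem_insert_of_mem hi)))

end

end LSA_

open LSA_

theorem lsa_proof (hEFL : Stmt_EFL.{u}) (hLAS : Stmt_LAS.{u}) (hLOO : Stmt_LOO.{u})
    (hLQL : Stmt_LQL.{u}) : Stmt_LSA.{u} := by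
  intro Λ L _ _ _ m N Y hY J hJ
  obtain ⟨hLAS1, hLAS2⟩ := hLAS Λ L m N Y hY
  have hLQL1 := hLQL Λ L m N Y hY
  -- cancellation
  have cq : ∀ (v : Fin m) (q : MvPolynomial (Fin N) Λ) (d : Fin N →₀ ℕ), IsUnit (q.coeff d) →
      ∀ (s y : L), s ∈ Y.A v → y ∈ Y.A v → aeval (Y.t v) q = s * y → Can (Y.A v) J s := by
    intro v q d hq s y hs hy he
    refine ⟨hs, fun x hx hm => ?_⟩
    refine (hEFL Λ L N (Y.A v) _ (hY.etale v)).2 J q (hJ q d hq) x hx ?_
    have h1 : aeval (Y.t v) q * x = y * (s * x) := by rw [he]; ring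
    have h2 : aeval (Y.t v) q * x ∈ J • Subalgebra.toSubmodule (Y.A v) := by
      rw [h1]; exact mul_mem_J _ _ hy hm
    exact h2
  have ch : ∀ v w, Can (Y.A v) J (Y.h w / Y.h v) := by
    intro v w
    obtain ⟨q, d, y, hq, hy, he⟩ := hY.nz v w
    exact cq v q d hq _ y (hY.h_mem v w) hy he
  have ct : ∀ v i, Can (Y.A v) J (Y.t v i) := by
    intro v i
    refine cq v (X i) (Finsupp.single i 1) ?_ _ 1 (hY.t_mem v i) (Y.A v).one_mem ?_
    · have h0 : coeff (Finsupp.single i 1) (X i : MvPolynomial (Fin N) Λ) = 1 := by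
        rw [coeff_X, if_pos rfl]
      rw [h0]; exact isUnit_one
    · rw [aeval_X, mul_one]
  have hA : ∀ (σ : Finset (Fin m)) (v : Fin m), v ∈ σ → Y.A v ≤ Y.As σ := by
    intro σ v hv
    unfold LMod.As
    exact le_iSup₂ (f := fun v (_ : v ∈ σ) => Y.A v) v hv
  -- the main lemma
  have main : ∀ (σ : Finset (Fin m)) (v : Fin m), v ∈ σ → ∀ s : L, Can (Y.A v) J s →
      ∀ u ∈ Y.As σ, s * u ∈ J • Subalgebra.toSubmodule Y.QL →
      u ∈ J • Subalgebra.toSubmodule (Y.As σ) := by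
    intro σ v hv s hs u hu hm
    set H : L := ∏ w, Y.h w / Y.h v with hH
    set T : L := ∏ i, Y.t v i ^ Y.c v i with hT
    set R : L := ∏ w ∈ σ, Y.h w / Y.h v with hR
    have cH : Can (Y.A v) J H := can_prod _ _ (fun w _ => ch v w)
    have cT : Can (Y.A v) J T := can_prod _ _ (fun i _ => can_pow (ct v i) _)
    have cR : Can (Y.A v) J R := can_prod _ _ (fun w _ => ch v w)
    -- clear the denominators of `s * u`
    have h1 : ∃ e : ℕ, (H * T) ^ e * (s * u) ∈ J • Subalgebra.toSubmodule (Y.A v) := by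
      refine Submodule.smul_induction_on hm ?_ ?_
      · intro r hr n hn
        obtain ⟨e, he⟩ := hLQL1 v n hn
        refine ⟨e, ?_⟩
        rw [mul_smul_comm]
        refine Submodule.smul_mem_smul hr ?_
        have h2 : (H * T) ^ e * n = n * H ^ e * T ^ e := by rw [mul_pow]; ring
        rw [h2]
        exact he
      · rintro x y ⟨e, hx⟩ ⟨e', hy⟩
        refine ⟨e + e', ?_⟩
        rw [mul_add]
        refine Submodule.add_mem _ ?_ ?_
        · rw [add_comm, pow_add, mul_assoc]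
          exact mul_mem_J _ _ ((Y.A v).pow_mem ((Y.A v).mul_mem cH.1 cT.1) _) hx
        · rw [pow_add, mul_assoc]
          exact mul_mem_J _ _ ((Y.A v).pow_mem ((Y.A v).mul_mem cH.1 cT.1) _) hy
    obtain ⟨e, he⟩ := h1
    obtain ⟨e', he'⟩ := (hLAS1 σ v hv u).mp hu
    have h2 : u * R ^ e' ∈ J • Subalgebra.toSubmodule (Y.A v) := by
      refine (can_mul (can_pow (can_mul cH cT) e) hs).2 _ he' ?_
      have h3 : (H * T) ^ e * s * (u * R ^ e') = R ^ e' * ((H * T) ^ e * (s * u)) := by ring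
      rw [h3]
      exact mul_mem_J _ _ ((Y.A v).pow_mem cR.1 _) he
    have h3 : u * R ^ e' ∈ J • Subalgebra.toSubmodule (Y.As σ) :=
      Submodule.smul_mono le_rfl (Subalgebra.toSubmodule.le_iff_le.mpr (hA σ v hv)) h2
    have hR0 : R ≠ 0 := by
      rw [hR]
      exact Finset.prod_ne_zero_iff.mpr (fun w _ => div_ne_zero (hY.h_ne w) (hY.h_ne v))
    have hRi : R⁻¹ ∈ Y.As σ := by
      rw [hR, ← Finset.prod_inv_distrib]
      refine Subalgebra.prod_mem _ (fun w hw => ?_)
      rw [inv_div]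
      exact hLAS2 σ w v hw hv
    have h4 : u = (R⁻¹) ^ e' * (u * R ^ e') := by
      rw [mul_comm u, ← mul_assoc, ← mul_pow, inv_mul_cancel₀ hR0, one_pow, one_mul]
    rw [h4]
    exact mul_mem_J _ _ ((Y.As σ).pow_mem hRi _) h3
  refine ⟨?_, ?_⟩
  · intro σ hσ x hx hm
    obtain ⟨v, hv⟩ := hσ
    exact main σ v hv 1 (can_one _ _) x hx (by rwa [one_mul])
  · intro d hd σ hσ x hx hm
    obtain ⟨v, hv⟩ := hσ
    have h1 := ((hLOO Λ L m N Y hY).1 d hd).1 σ v hv
    set T : L := ∏ i, Y.t v i ^ d v i with hT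
    have hT0 : T ≠ 0 := by
      rw [hT]
      exact Finset.prod_ne_zero_iff.mpr (fun i _ => pow_ne_zero _ (hY.t_ne v i))
    have hTx : T * (x / T) = x := mul_div_cancel₀ x hT0
    have h2 : x / T ∈ J • Subalgebra.toSubmodule (Y.As σ) :=
      main σ v hv T (can_prod _ _ (fun i _ => can_pow (ct v i) _)) _ ((h1 x).mp hx)
        (by rwa [hTx])
    rw [← hTx]
    refine Submodule.smul_induction_on h2 ?_ ?_
    · intro r hr n hn
      rw [mul_smul_comm]
      refine Submodule.smul_mem_smul hr ((h1 _).mpr ?_)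
      rw [mul_div_cancel_left₀ _ hT0]
      exact hn
    · intro y z hy hz
      rw [mul_add]
      exact Submodule.add_mem _ hy hz

end

end Pool.Agent.DBX.SPR
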