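import Pool.Agent.DBX.SPR.Stmts

set_option autoImplicit false

namespace Pool.Agent.DBX.SPR

open MvPolynomial

noncomputable section

universe u

namespace MCC_

/-- reduction modulo `p` -/
def red (p : ℕ) : ZMod (p ^ 2) →+* ZMod p := ZMod.castHom (dvd_pow_self p two_ne_zero) (ZMod p)

theorem red_zero (p : ℕ) (x : ZMod (p ^ 2)) :
    red p x = 0 ↔ x ∈ Ideal.span {(p : ZMod (p ^ 2))} := by
  constructor
  · intro h
    obtain ⟨n, rfl⟩ := ZMod.intCast_surjective x
    rw [map_intCast, ZMod.intCast_zmod_eq_zero_iff_dvd] at h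
    obtain ⟨m, rfl⟩ := h
    rw [Ideal.mem_span_singleton]
    exact ⟨(m : ZMod (p ^ 2)), by push_cast; rfl⟩
  · intro h
    rw [Ideal.mem_span_singleton] at h
    obtain ⟨y, rfl⟩ := h
    rw [map_mul, map_natCast, ZMod.natCast_self, zero_mul]

theorem red_of_mul (p : ℕ) [Fact p.Prime] (x : ZMod (p ^ 2)) (h : (p : ZMod (p ^ 2)) * x = 0) :
    red p x = 0 := by
  obtain ⟨n, rfl⟩ := ZMod.intCast_surjective x
  rw [map_intCast, ZMod.intCast_zmod_eq_zero_iff_dvd]
  have h1 : (((p : ℤ) * n : ℤ) : ZMod (p ^ 2)) = 0 := by push_cast; exact h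
  rw [ZMod.intCast_zmod_eq_zero_iff_dvd] at h1
  push_cast at h1
  rw [pow_two] at h1
  have hp : (p : ℤ) ≠ 0 := by exact_mod_cast (Fact.out : p.Prime).ne_zero
  exact (mul_dvd_mul_iff_left hp).mp h1

theorem nzj_dom {Λ : Type u} [CommRing Λ] {k : Type} [CommRing k] [IsDomain k] (N : ℕ)
    (ψ : Λ →+* k) : NZJ N (RingHom.ker ψ) := by
  intro q d hd g hg e
  have h1 : MvPolynomial.map ψ (q * g) = 0 := by
    ext m
    rw [MvPolynomial.coeff_map, MvPolynomial.coeff_zero]
    exact hg m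
  rw [map_mul, mul_eq_zero] at h1
  rcases h1 with h1 | h1
  · exfalso
    have h2 : MvPolynomial.coeff d (MvPolynomial.map ψ q) = 0 := by rw [h1, MvPolynomial.coeff_zero]
    rw [MvPolynomial.coeff_map] at h2
    exact (hd.map ψ).ne_zero h2
  · rw [RingHom.mem_ker, ← MvPolynomial.coeff_map, h1, MvPolynomial.coeff_zero]

end MCC_

theorem mcc_proof : Stmt_MCC.{u} := by
  intro Λ _ N p _ φ
  have hker : Ideal.comap φ (Ideal.span {(p : ZMod (p ^ 2))}) =
      RingHom.ker ((MCC_.red p).comp φ) := by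
    ext x
    rw [Ideal.mem_comap, RingHom.mem_ker, RingHom.comp_apply, MCC_.red_zero]
  refine ⟨?_, ?_, ?_⟩
  · intro q d hd g hg e
    have hQG : MvPolynomial.map φ q * MvPolynomial.map φ g = 0 := by
      rw [← map_mul]
      ext m
      rw [MvPolynomial.coeff_map, MvPolynomial.coeff_zero]
      exact hg m
    have hdQ : IsUnit (MvPolynomial.coeff d (MvPolynomial.map φ q)) := by
      rw [MvPolynomial.coeff_map]; exact hd.map φ
    have hnz := MCC_.nzj_dom N (MCC_.red p)
    -- first step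
    have h1 : ∀ e, MvPolynomial.coeff e (MvPolynomial.map φ g) ∈ RingHom.ker (MCC_.red p) :=
      hnz _ d hdQ _ (fun m => by rw [hQG, MvPolynomial.coeff_zero]; exact Ideal.zero_mem _)
    have h2 : MvPolynomial.map φ g ∈
        Ideal.map (C : ZMod (p ^ 2) →+* MvPolynomial (Fin N) (ZMod (p ^ 2)))
          (Ideal.span {(p : ZMod (p ^ 2))}) := by
      rw [MvPolynomial.mem_map_C_iff]
      intro m
      exact (MCC_.red_zero p _).mp (h1 m)
    rw [Ideal.map_span, Set.image_singleton, Ideal.mem_span_singleton] at h2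
    obtain ⟨G1, hG1⟩ := h2
    have h3 : ∀ m, MvPolynomial.coeff m (MvPolynomial.map φ q * G1) ∈ RingHom.ker (MCC_.red p) := by
      intro m
      apply MCC_.red_of_mul
      rw [← MvPolynomial.coeff_C_mul, ← MvPolynomial.coeff_zero m, ← hQG, hG1]
      congr 1
      ring
    have h4 := hnz _ d hdQ G1 h3
    rw [RingHom.mem_ker, ← MvPolynomial.coeff_map, hG1, MvPolynomial.coeff_C_mul]
    have h5 := (MCC_.red_zero p _).mp (h4 e)
    rw [Ideal.mem_span_singleton] at h5
    obtain ⟨y, hy⟩ := h5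
    rw [hy, ← mul_assoc, ← pow_two, ← Nat.cast_pow, ZMod.natCast_self, zero_mul]
  · rw [hker]
    exact MCC_.nzj_dom N _
  · rw [hker]
    exact RingHom.ker_isPrime _

end

end Pool.Agent.DBX.SPR
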