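import Pool.Agent.DBX.SPR.Stmts

set_option autoImplicit false

/-! # NFH: homomorphisms from finitely generated subrings of number fields to `Z/p²` -/

namespace Pool.Agent.DBX.SPR

open Polynomial

universe u

namespace NFH_

/-- every element of `ℚ[θ]` has an integer multiple in `ℤ[θ]` -/
lemma exists_mul_mem {E : Type u} [Field E] [Algebra ℚ E] (θ : E) {b : E}
    (hb : b ∈ Algebra.adjoin ℚ ({θ} : Set E)) :
    ∃ m : ℤ, m ≠ 0 ∧ (m : E) * b ∈ Algebra.adjoin ℤ ({θ} : Set E) := by
  induction hb using Algebra.adjoin_induction with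
  | mem x hx =>
    exact ⟨1, one_ne_zero, by simpa using Algebra.subset_adjoin (R := ℤ) hx⟩
  | algebraMap r =>
    refine ⟨(r.den : ℤ), by exact_mod_cast r.den_nz, ?_⟩
    have : (((r.den : ℕ) : ℤ) : E) * algebraMap ℚ E r = ((r.num : ℤ) : E) := by
      have h1 : ((r.den : ℚ)) * r = (r.num : ℚ) := Rat.den_mul_eq_num r
      have h2 := congrArg (algebraMap ℚ E) h1
      rw [map_mul, map_natCast, map_intCast] at h2
      rw [Int.cast_natCast]
      exact h2
    rw [this]
    exact intCast_mem _ _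
  | add x y _ _ hx hy =>
    obtain ⟨m, hm, hmx⟩ := hx
    obtain ⟨k, hk, hky⟩ := hy
    refine ⟨m * k, mul_ne_zero hm hk, ?_⟩
    have : ((m * k : ℤ) : E) * (x + y) = (k : E) * ((m : E) * x) + (m : E) * ((k : E) * y) := by
      push_cast; ring
    rw [this]
    exact add_mem (mul_mem (intCast_mem _ _) hmx) (mul_mem (intCast_mem _ _) hky)
  | mul x y _ _ hx hy =>
    obtain ⟨m, hm, hmx⟩ := hx
    obtain ⟨k, hk, hky⟩ := hy
    refine ⟨m * k, mul_ne_zero hm hk, ?_⟩
    have : ((m * k : ℤ) : E) * (x * y) = ((m : E) * x) * ((k : E) * y) := by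
      push_cast; ring
    rw [this]
    exact mul_mem hmx hky

lemma exists_common {E : Type u} [Field E] [Algebra ℚ E] (θ : E)
    (h : Algebra.adjoin ℚ ({θ} : Set E) = ⊤) (s : Finset E) :
    ∃ m : ℤ, m ≠ 0 ∧ ∀ b ∈ s, (m : E) * b ∈ Algebra.adjoin ℤ ({θ} : Set E) := by
  classical
  induction s using Finset.induction_on with
  | empty => exact ⟨1, one_ne_zero, by simp⟩
  | insert b s _ ih =>
    obtain ⟨m, hm, hms⟩ := ih
    obtain ⟨k, hk, hkb⟩ := exists_mul_mem θ (b := b) (by rw [h]; trivial)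
    refine ⟨k * m, mul_ne_zero hk hm, ?_⟩
    intro c hc
    rcases Finset.mem_insert.1 hc with rfl | hc
    · have : ((k * m : ℤ) : E) * c = (m : E) * ((k : E) * c) := by push_cast; ring
      rw [this]
      exact mul_mem (intCast_mem _ _) hkb
    · have : ((k * m : ℤ) : E) * c = (k : E) * ((m : E) * c) := by push_cast; ring
      rw [this]
      exact mul_mem (intCast_mem _ _) (hms c hc)

/-- extension of a homomorphism from a subring `O` to a subalgebra generated by elements with a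
common denominator -/
lemma exists_extend {E : Type u} [Field E] [CharZero E] (O : Subalgebra ℤ E) (s : Set E) (m : ℤ)
    (hm : m ≠ 0) (hms : ∀ b ∈ s, (m : E) * b ∈ O) {R : Type} [CommRing R] (ψ : O →+* R)
    (hu : IsUnit ((m : ℤ) : R)) : Nonempty (Algebra.adjoin ℤ s →+* R) := by
  let L := Localization.Away ((m : ℤ) : O)
  have hmE : ((m : ℤ) : E) ≠ 0 := by exact_mod_cast hm
  have hu1 : IsUnit (O.val.toRingHom ((m : ℤ) : O)) := by
    have : O.val.toRingHom ((m : ℤ) : O) = ((m : ℤ) : E) := by simp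
    rw [this]
    exact isUnit_iff_ne_zero.2 hmE
  have hu2 : IsUnit (ψ ((m : ℤ) : O)) := by simpa using hu
  let g : L →+* E := IsLocalization.Away.lift (S := L) ((m : ℤ) : O) hu1
  let h : L →+* R := IsLocalization.Away.lift (S := L) ((m : ℤ) : O) hu2
  have hg : Function.Injective g := by
    rw [injective_iff_map_eq_zero]
    intro x hx
    obtain ⟨k, y, hy⟩ := IsLocalization.Away.surj ((m : ℤ) : O) x
    have h1 : g (algebraMap O L y) = 0 := by rw [← hy, map_mul, hx, zero_mul]
    have h2 : g (algebraMap O L y) = (y : E) := IsLocalization.Away.lift_eq _ hu1 y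
    have h3 : y = 0 := by
      apply Subtype.ext
      rw [← h2, h1]; rfl
    rw [h3, map_zero] at hy
    have h4 : IsUnit (algebraMap O L ((m : ℤ) : O) ^ k) :=
      (IsLocalization.Away.algebraMap_isUnit ((m : ℤ) : O)).pow k
    exact (h4.mul_left_eq_zero).1 hy
  have hsub : ∀ x ∈ Algebra.adjoin ℤ s, x ∈ g.range := by
    intro x hx
    have : Algebra.adjoin ℤ s ≤ subalgebraOfSubring g.range := by
      apply Algebra.adjoin_le
      intro b hb
      refine ⟨(IsLocalization.Away.invSelf ((m : ℤ) : O) : L) * algebraMap O L ⟨(m : E) * b, hms b hb⟩, ?_⟩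
      have e1 : g (algebraMap O L ⟨(m : E) * b, hms b hb⟩) = (m : E) * b :=
        IsLocalization.Away.lift_eq _ hu1 _
      have e2 : g (algebraMap O L ((m : ℤ) : O)) = (m : E) := by
        simp
      have e3 : g (algebraMap O L ((m : ℤ) : O)) * g (IsLocalization.Away.invSelf ((m : ℤ) : O) : L) = 1 := by
        rw [← map_mul, IsLocalization.Away.mul_invSelf, map_one]
      rw [map_mul, e1]
      rw [e2] at e3
      calc g (IsLocalization.Away.invSelf ((m : ℤ) : O) : L) * ((m : E) * b)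
          = ((m : E) * g (IsLocalization.Away.invSelf ((m : ℤ) : O) : L)) * b := by ring
        _ = b := by rw [e3, one_mul]
    exact this hx
  let e : L ≃+* g.range := RingEquiv.ofBijective g.rangeRestrict
    ⟨fun x y hxy => hg (by simpa using congrArg Subtype.val hxy), g.rangeRestrict_surjective⟩
  let i : Algebra.adjoin ℤ s →+* g.range :=
    { toFun := fun x => ⟨x.1, hsub x.1 x.2⟩
      map_one' := rfl
      map_mul' := fun _ _ => rfl
      map_zero' := rfl
      map_add' := fun _ _ => rfl }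
  exact ⟨h.comp (e.symm.toRingHom.comp i)⟩

end NFH_

theorem nfh_proof (hHEN : Stmt_HEN) : Stmt_NFH.{u} := by
  intro E _ _ _ s n
  have : CharZero E := algebraRat.charZero E
  obtain ⟨α, hα⟩ := Field.exists_primitive_element ℚ E
  have hαalg : IsAlgebraic ℤ α :=
    (IsFractionRing.isAlgebraic_iff ℤ ℚ E).2 (Algebra.IsAlgebraic.isAlgebraic α)
  obtain ⟨d, hd, hint⟩ := hαalg.exists_integral_multiple
  obtain ⟨θ, hθ⟩ : ∃ θ : E, θ = d • α := ⟨_, rfl⟩
  rw [← hθ] at hint
  have hdE : ((d : ℤ) : E) ≠ 0 := by exact_mod_cast hd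
  have htop : Algebra.adjoin ℚ ({θ} : Set E) = ⊤ := by
    have h1 : Algebra.adjoin ℚ ({α} : Set E) = ⊤ := by
      rw [← IntermediateField.adjoin_simple_toSubalgebra_of_isAlgebraic
        (Algebra.IsAlgebraic.isAlgebraic α), hα]; rfl
    rw [eq_top_iff, ← h1]
    apply Algebra.adjoin_le
    intro x hx
    rw [Set.mem_singleton_iff] at hx
    have : x = ((d : ℚ)⁻¹) • θ := by
      rw [hx, hθ, Algebra.smul_def, zsmul_eq_mul, map_inv₀]
      simp only [map_intCast]
      field_simp
    rw [this]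
    have hθmem : θ ∈ Algebra.adjoin ℚ ({θ} : Set E) :=
      Algebra.subset_adjoin (Set.mem_singleton θ)
    exact Subalgebra.smul_mem _ hθmem _
  obtain ⟨m, hm, hms⟩ := NFH_.exists_common θ htop s
  have hG : (minpoly ℤ θ).map (Int.castRingHom ℚ) = minpoly ℚ θ :=
    (minpoly.isIntegrallyClosed_eq_field_fractions' ℚ hint).symm
  have hdeg : 0 < (minpoly ℤ θ).natDegree := minpoly.natDegree_pos hint
  have hsep : ((minpoly ℤ θ).map (Int.castRingHom ℚ)).Separable := by
    rw [hG]
    exact Algebra.IsSeparable.isSeparable ℚ θ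
  obtain ⟨p, hp, hnp, a, ha⟩ := hHEN (minpoly ℤ θ) hdeg hsep (max n m.natAbs)
  refine ⟨p, hp, lt_of_le_of_lt (le_max_left _ _) hnp, ?_⟩
  have h0 : eval₂ (Int.castRingHom (ZMod (p ^ 2))) ((a : ℤ) : ZMod (p ^ 2)) (minpoly ℤ θ) = 0 := by
    have h1 : ((eval a (minpoly ℤ θ) : ℤ) : ZMod (p ^ 2)) = 0 := by
      rw [ZMod.intCast_zmod_eq_zero_iff_dvd]
      push_cast
      exact ha
    have h2 : eval₂ (Int.castRingHom (ZMod (p ^ 2))) ((Int.castRingHom (ZMod (p ^ 2))) a)
        (minpoly ℤ θ) = Int.castRingHom (ZMod (p ^ 2)) (eval a (minpoly ℤ θ)) :=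
      eval₂_at_apply _ _
    rw [eq_intCast, eq_intCast] at h2
    rw [h2, h1]
  let ψ : Algebra.adjoin ℤ ({θ} : Set E) →+* ZMod (p ^ 2) :=
    (AdjoinRoot.lift (Int.castRingHom (ZMod (p ^ 2))) ((a : ℤ) : ZMod (p ^ 2)) h0).comp
      (minpoly.equivAdjoin hint).symm.toRingEquiv.toRingHom
  refine NFH_.exists_extend (Algebra.adjoin ℤ ({θ} : Set E)) (s : Set E) m hm
    (fun b hb => hms b (by simpa using hb)) ψ ?_
  have hcop : Nat.Coprime m.natAbs (p ^ 2) := by
    apply Nat.Coprime.pow_right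
    rw [Nat.coprime_comm]
    refine (Nat.Prime.coprime_iff_not_dvd hp).2 ?_
    intro hdvd
    have h1 : p ≤ m.natAbs := Nat.le_of_dvd (Int.natAbs_pos.2 hm) hdvd
    have h2 : m.natAbs < p := lt_of_le_of_lt (le_max_right _ _) hnp
    omega
  have h3 : IsUnit ((m.natAbs : ℕ) : ZMod (p ^ 2)) := (ZMod.isUnit_iff_coprime _ _).2 hcop
  rcases Int.natAbs_eq m with h | h
  · rw [h]
    simpa using h3
  · rw [h]
    simpa using h3

end Pool.Agent.DBX.SPR
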