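import Pool.Agent.DBX.SPR.Stmts

set_option autoImplicit false

namespace Pool.Agent.DBX.SPR

universe u

theorem NTF_.res (B : Type u) [CommRing B] [Nontrivial B] [Algebra ℚ B] [Algebra.FiniteType ℚ B] :
    ∃ (E : Type u) (_ : Field E) (_ : Algebra ℚ E) (_ : FiniteDimensional ℚ E) (_ : B →+* E),
      True := by
  obtain ⟨m, hm⟩ := Ideal.exists_maximal B
  letI : Field (B ⧸ m) := Ideal.Quotient.field m
  haveI : Algebra.FiniteType ℚ (B ⧸ m) :=
    Algebra.FiniteType.of_surjective (Ideal.Quotient.mkₐ ℚ m) (Ideal.Quotient.mkₐ_surjective ℚ m)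
  haveI hfd : Module.Finite ℚ (B ⧸ m) := finite_of_finite_type_of_isJacobsonRing ℚ (B ⧸ m)
  exact ⟨B ⧸ m, inferInstance, inferInstance, hfd, Ideal.Quotient.mk m, trivial⟩

theorem ntf_proof (hNFH : Stmt_NFH.{u}) : Stmt_NTF.{u} := by
  intro Λ _ _ _ hft f hf n
  classical
  obtain ⟨g, hg⟩ := hft.out
  let K := FractionRing Λ
  have hinj : Function.Injective (algebraMap Λ K) := IsFractionRing.injective Λ K
  haveI : CharZero K := charZero_of_injective_algebraMap hinj
  let S : Finset K := insert ((algebraMap Λ K f)⁻¹) (g.image (algebraMap Λ K))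
  let B : Subalgebra ℚ K := Algebra.adjoin ℚ (S : Set K)
  have hB : ∀ x : Λ, algebraMap Λ K x ∈ B := by
    intro x
    have hx : x ∈ Algebra.adjoin ℤ (g : Set Λ) := by rw [hg]; exact Algebra.mem_top
    induction hx using Algebra.adjoin_induction with
    | mem y hy =>
      apply Algebra.subset_adjoin
      rw [Finset.mem_coe]
      exact Finset.mem_insert_of_mem (Finset.mem_image_of_mem _ hy)
    | algebraMap r =>
      have : algebraMap Λ K (algebraMap ℤ Λ r) = (r : K) := by simp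
      rw [this]
      exact intCast_mem B r
    | add x y _ _ h1 h2 => rw [map_add]; exact B.add_mem h1 h2
    | mul x y _ _ h1 h2 => rw [map_mul]; exact B.mul_mem h1 h2
  have hfi : (algebraMap Λ K f)⁻¹ ∈ B := by
    apply Algebra.subset_adjoin
    rw [Finset.mem_coe]
    exact Finset.mem_insert_self _ _
  have hBfg : B.FG := ⟨S, rfl⟩
  haveI : Algebra.FiniteType ℚ B := (Subalgebra.fg_iff_finiteType B).mp hBfg
  obtain ⟨E, _, _, _, π, _⟩ := NTF_.res.{u} B
  let ιB : Λ →+* B := (algebraMap Λ K).codRestrict B hB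
  let ψ : Λ →+* E := (π).comp ιB
  let fi : E := π ⟨_, hfi⟩
  have hfi1 : ψ f * fi = 1 := by
    show π (ιB f) * π ⟨_, hfi⟩ = 1
    rw [← map_mul]
    have : ιB f * (⟨_, hfi⟩ : B) = 1 := by
      apply Subtype.ext
      show algebraMap Λ K f * (algebraMap Λ K f)⁻¹ = 1
      exact mul_inv_cancel₀ (fun h => hf (hinj (by rw [h, map_zero])))
    rw [this, map_one]
  let s : Finset E := insert fi (g.image ψ)
  obtain ⟨p, hp, hnp, ⟨χ⟩⟩ := hNFH E s n
  refine ⟨p, hp, hnp, ?_⟩
  have hψ : ∀ x : Λ, ψ x ∈ Algebra.adjoin ℤ (s : Set E) := by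
    intro x
    have hx : x ∈ Algebra.adjoin ℤ (g : Set Λ) := by rw [hg]; exact Algebra.mem_top
    induction hx using Algebra.adjoin_induction with
    | mem y hy =>
      apply Algebra.subset_adjoin
      rw [Finset.mem_coe]
      exact Finset.mem_insert_of_mem (Finset.mem_image_of_mem _ hy)
    | algebraMap r =>
      have : ψ (algebraMap ℤ Λ r) = algebraMap ℤ E r := by simp
      rw [this]
      exact Subalgebra.algebraMap_mem _ r
    | add x y _ _ h1 h2 => rw [map_add]; exact Subalgebra.add_mem _ h1 h2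
    | mul x y _ _ h1 h2 => rw [map_mul]; exact Subalgebra.mul_mem _ h1 h2
  have hfis : fi ∈ Algebra.adjoin ℤ (s : Set E) := by
    apply Algebra.subset_adjoin
    rw [Finset.mem_coe]
    exact Finset.mem_insert_self _ _
  let φ : Λ →+* ZMod (p ^ 2) := χ.comp (ψ.codRestrict _ hψ)
  refine ⟨φ, ?_⟩
  apply IsUnit.of_mul_eq_one (χ ⟨fi, hfis⟩)
  show χ (ψ.codRestrict _ hψ f) * χ ⟨fi, hfis⟩ = 1
  rw [← map_mul]
  have : ψ.codRestrict _ hψ f * (⟨fi, hfis⟩ : Algebra.adjoin ℤ (s : Set E)) = 1 :=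
    Subtype.ext hfi1
  rw [this, map_one]

end Pool.Agent.DBX.SPR
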