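import Pool.Agent.DBX.SPR.Stmts

set_option autoImplicit false

/-! # MP_2c751f_ag, squad DBX, area SPR: module RED, surjectivity modulo `p` lifted to `Λ` -/

namespace Pool.Agent.DBX.SPR

open MvPolynomial

noncomputable section

universe u

namespace RED_

theorem map_cd {V : Type*} [LinearOrder V] {M M' : Type*} [AddCommGroup M] [AddCommGroup M']
    (f : M →+ M') (x : Finset V → M) (σ : Finset V) :
    f (cd x σ) = cd (fun s => f (x s)) σ := by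
  simp only [cd, map_sum, map_zsmul]

theorem cd_add_smul {V : Type*} [LinearOrder V] {Q : Type*} [CommRing Q] (p : ℕ)
    (x q : Finset V → Q) (σ : Finset V) :
    cd (fun s => x s + (p : Q) * q s) σ = cd x σ + (p : Q) * cd q σ := by
  simp only [cd, smul_add, Finset.sum_add_distrib, Finset.mul_sum, mul_smul_comm]

section

variable {Λ L : Type u} [CommRing Λ] [Field L] [Algebra Λ L] {m N : ℕ}
  {Y : LMod Λ L m N} {p : ℕ} {φ : Λ →+* ZMod (p ^ 2)} {Q : Type u} [CommRing Q]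
  [Algebra (ZMod (p ^ 2)) Q] {π : Y.QL →+* Q} {D : DMod p Q m N}

theorem A_le_QL (v : Fin m) : Y.A v ≤ Y.QL :=
  fun _ hz => Algebra.subset_adjoin (Or.inl ⟨v, hz⟩)

theorem As_le_QL (σ : Finset (Fin m)) : Y.As σ ≤ Y.QL :=
  iSup₂_le fun v _ => A_le_QL v

theorem A_le_As {σ : Finset (Fin m)} {v : Fin m} (hv : v ∈ σ) : Y.A v ≤ Y.As σ :=
  le_iSup₂ (f := fun v (_ : v ∈ σ) => Y.A v) v hv

theorem DA_le_DAs (D : DMod p Q m N) {σ : Finset (Fin m)} {v : Fin m} (hv : v ∈ σ) :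
    D.A v ≤ D.As σ :=
  le_iSup₂ (f := fun v (_ : v ∈ σ) => D.A v) v hv

/-- `π` maps `A_σ` to `D.As σ`. -/
theorem map_As (hR : Red Y φ π D) (σ : Finset (Fin m)) (x : Y.QL) (hx : (x : L) ∈ Y.As σ) :
    π x ∈ D.As σ := by
  let C : Subalgebra Λ L :=
    { carrier := {x | ∃ h : x ∈ Y.QL, π ⟨x, h⟩ ∈ D.As σ}
      mul_mem' := by
        rintro a b ⟨ha, ha'⟩ ⟨hb, hb'⟩
        refine ⟨Y.QL.mul_mem ha hb, ?_⟩
        have h1 : (⟨a * b, Y.QL.mul_mem ha hb⟩ : Y.QL) = ⟨a, ha⟩ * ⟨b, hb⟩ := rfl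
        rw [h1, map_mul]
        exact (D.As σ).mul_mem ha' hb'
      add_mem' := by
        rintro a b ⟨ha, ha'⟩ ⟨hb, hb'⟩
        refine ⟨Y.QL.add_mem ha hb, ?_⟩
        have h1 : (⟨a + b, Y.QL.add_mem ha hb⟩ : Y.QL) = ⟨a, ha⟩ + ⟨b, hb⟩ := rfl
        rw [h1, map_add]
        exact (D.As σ).add_mem ha' hb'
      algebraMap_mem' := by
        intro r
        refine ⟨Y.QL.algebraMap_mem r, ?_⟩
        have h1 : (⟨algebraMap Λ L r, Y.QL.algebraMap_mem r⟩ : Y.QL) = algebraMap Λ Y.QL r := rfl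
        rw [h1, hR.alg]
        exact (D.As σ).algebraMap_mem _ }
  have h1 : Y.As σ ≤ C := by
    refine iSup₂_le fun v hv => ?_
    intro a ha
    refine ⟨A_le_QL v ha, DA_le_DAs D hv ?_⟩
    exact (hR.A_eq v _).mpr ⟨⟨a, A_le_QL v ha⟩, ha, rfl⟩
  obtain ⟨h, h'⟩ := h1 hx
  exact h'

/-- every element of `D.As σ` is the image of an element of `A_σ`. -/
theorem lift_As [Fact p.Prime] (hR : Red Y φ π D) (σ : Finset (Fin m)) (a : Q)
    (ha : a ∈ D.As σ) : ∃ x : Y.QL, (x : L) ∈ Y.As σ ∧ π x = a := by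
  have hφ : Function.Surjective φ := ZMod.ringHom_surjective φ
  let B : Subalgebra (ZMod (p ^ 2)) Q :=
    { carrier := {a | ∃ x : Y.QL, (x : L) ∈ Y.As σ ∧ π x = a}
      mul_mem' := by
        rintro a b ⟨x, hx, rfl⟩ ⟨y, hy, rfl⟩
        exact ⟨x * y, (Y.As σ).mul_mem hx hy, map_mul π x y⟩
      add_mem' := by
        rintro a b ⟨x, hx, rfl⟩ ⟨y, hy, rfl⟩
        exact ⟨x + y, (Y.As σ).add_mem hx hy, map_add π x y⟩
      algebraMap_mem' := by
        intro r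
        obtain ⟨a, rfl⟩ := hφ r
        exact ⟨algebraMap Λ Y.QL a, (Y.As σ).algebraMap_mem a, hR.alg a⟩ }
  have h1 : D.As σ ≤ B := by
    refine iSup₂_le fun v hv => ?_
    intro a ha
    obtain ⟨x, hx, hxa⟩ := (hR.A_eq v a).mp ha
    exact ⟨x, A_le_As hv hx, hxa⟩
  exact h1 ha

/-- Elements of `QL` whose image is divisible by `p`. -/
theorem mem_of_dvd (hR : Red Y φ π D) (x : Y.QL) (q : Q) (hx : π x = (p : Q) * q) :
    (x : L) ∈ Ideal.comap φ (Ideal.span {(p : ZMod (p ^ 2))}) • Subalgebra.toSubmodule Y.QL := by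
  obtain ⟨q', rfl⟩ := hR.surj q
  have h1 : π (x - (p : Y.QL) * q') = 0 := by
    rw [map_sub, hx, map_mul, map_natCast, sub_self]
  have h2 := (hR.ker _).mp h1
  have h3 : RingHom.ker φ ≤ Ideal.comap φ (Ideal.span {(p : ZMod (p ^ 2))}) := by
    intro a ha
    rw [Ideal.mem_comap, (RingHom.mem_ker).mp ha]
    exact Ideal.zero_mem _
  have h4 := Submodule.smul_mono_left (N := Subalgebra.toSubmodule Y.QL) h3 h2
  have h5 : (p : Λ) • (q' : L) ∈
      Ideal.comap φ (Ideal.span {(p : ZMod (p ^ 2))}) • Subalgebra.toSubmodule Y.QL := by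
    refine Submodule.smul_mem_smul ?_ q'.2
    rw [Ideal.mem_comap, map_natCast]
    exact Ideal.subset_span rfl
  have h6 : (x : L) = ((x - (p : Y.QL) * q' : Y.QL) : L) + (p : Λ) • (q' : L) := by
    rw [Algebra.smul_def, map_natCast]
    push_cast
    ring
  rw [h6]
  exact Submodule.add_mem _ h4 h5

end

end RED_

open RED_

theorem red_proof (hDI : Stmt_DI.{u}) (hRQ : Stmt_RQ.{u}) (hRGO : Stmt_RGO.{u})
    (hLOO : Stmt_LOO.{u}) (hLSA : Stmt_LSA.{u}) (hMCC : Stmt_MCC.{u}) : Stmt_RED.{u} := by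
  intro Λ L _ _ _ m N Y hY p _ φ hc' hNp z hz
  rcases Nat.eq_zero_or_pos m with hm | hm
  · subst hm
    refine ⟨0, Submodule.zero_mem _, 0, Submodule.zero_mem _, ?_, ?_⟩
    · rintro σ ⟨v, _⟩
      exact v.elim0
    · rintro σ ⟨v, _⟩
      exact v.elim0
  obtain ⟨Q, _, _, π, D, hR⟩ := hRQ Λ L m N Y hY hm p φ
  have hD : D.Good := hRGO Λ L m N Y hY hm p φ hc' Q π D hR
  obtain ⟨hO, hO'⟩ := hLOO Λ L m N Y hY
  set I := Ideal.comap φ (Ideal.span {(p : ZMod (p ^ 2))}) with hI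
  have hS := (hLSA Λ L m N Y hY I (hMCC Λ N p φ).2.1).2
  have htQ : ∀ v i, Y.t v i ∈ Y.QL := fun v i => A_le_QL v (hY.t_mem v i)
  let tq : Fin m → Fin N → Y.QL := fun v i => ⟨Y.t v i, htQ v i⟩
  have htq : ∀ v i, π (tq v i) = (D.t v i : Q) := fun v i => hR.t_eq v i _ rfl
  have hTv : ∀ (d : Fin m → Fin N → ℕ) (v : Fin m),
      ((∏ i, tq v i ^ d v i : Y.QL) : L) = ∏ i, Y.t v i ^ d v i := by
    intro d v
    exact (map_prod (Y.QL.val : Y.QL →ₐ[Λ] L) (fun i => tq v i ^ d v i) Finset.univ).trans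
      (Finset.prod_congr rfl fun i _ => map_pow (Y.QL.val : Y.QL →ₐ[Λ] L) _ _)
  have hT0 : ∀ (d : Fin m → Fin N → ℕ) (v : Fin m), ∏ i, Y.t v i ^ d v i ≠ 0 := by
    intro d v
    exact Finset.prod_ne_zero_iff.mpr (fun i _ => pow_ne_zero _ (hY.t_ne v i))
  have hTpi : ∀ (d : Fin m → Fin N → ℕ) (v : Fin m),
      π (∏ i, tq v i ^ d v i) = ∏ i, (D.t v i : Q) ^ d v i := by
    intro d v
    rw [map_prod]
    refine Finset.prod_congr rfl fun i _ => ?_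
    rw [map_pow, htq]
  -- elements of `O d σ` are in `QL`
  have hOQ : ∀ (d : Fin m → Fin N → ℕ) (σ : Finset (Fin m)), σ.Nonempty → ∀ x ∈ Y.O d σ,
      x ∈ Y.QL := by
    intro d σ hσ x hx
    obtain ⟨v, hv⟩ := hσ
    have h1 := As_le_QL σ (hx v hv)
    have h2 : x = (x / ∏ i, Y.t v i ^ d v i) * ((∏ i, tq v i ^ d v i : Y.QL) : L) := by
      rw [hTv, div_mul_cancel₀ _ (hT0 d v)]
    rw [h2]
    exact Y.QL.mul_mem h1 (∏ i, tq v i ^ d v i : Y.QL).2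
  -- reduction of cochains
  have hred : ∀ (d : Fin m → Fin N → ℕ), ∀ x ∈ Cc (Y.O d), ∃ X : Finset (Fin m) → Y.QL,
      (∀ σ, (X σ : L) = x σ) ∧ InC (D.O d) (fun σ => π (X σ)) := by
    intro d x hx
    have hxQ : ∀ σ, x σ ∈ Y.QL := by
      intro σ
      rcases σ.eq_empty_or_nonempty with rfl | hσ
      · rw [hx.1]; exact Y.QL.zero_mem
      · exact hOQ d σ hσ _ (hx.2 σ hσ)
    refine ⟨fun σ => ⟨x σ, hxQ σ⟩, fun σ => rfl, ?_, ?_⟩
    · have h1 : (⟨x ∅, hxQ ∅⟩ : Y.QL) = 0 := Subtype.ext hx.1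
      change π ⟨x ∅, hxQ ∅⟩ = 0
      rw [h1, map_zero]
    · intro σ hσ v hv
      have h1 := hx.2 σ hσ v hv
      refine ⟨π ⟨_, As_le_QL σ h1⟩, map_As hR σ _ h1, 0, ?_⟩
      change π ⟨x σ, hxQ σ⟩ = _
      rw [mul_zero, add_zero, ← hTpi, ← map_mul]
      congr 1
      refine Subtype.ext ?_
      change x σ = (x σ / ∏ i, Y.t v i ^ d v i) * ((∏ i, tq v i ^ d v i : Y.QL) : L)
      rw [hTv, div_mul_cancel₀ _ (hT0 d v)]
  -- lifting of cochains
  have hlift : ∀ (d : Fin m → Fin N → ℕ), d = Y.c ∨ d = Y.c' → ∀ x : Finset (Fin m) → Q,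
      InC (D.O d) x → ∃ X : Finset (Fin m) → Y.QL, (fun σ => (X σ : L)) ∈ Cc (Y.O d) ∧
        ∃ q : Finset (Fin m) → Q, ∀ σ, x σ = π (X σ) + (p : Q) * q σ := by
    intro d hd x hx
    have h1 : ∀ σ : Finset (Fin m), ∃ X : Y.QL, (σ = ∅ → X = 0) ∧
        (σ.Nonempty → (X : L) ∈ Y.O d σ) ∧ ∃ q : Q, x σ = π X + (p : Q) * q := by
      intro σ
      rcases σ.eq_empty_or_nonempty with rfl | hσ
      · refine ⟨0, fun _ => rfl, fun h => absurd h Finset.not_nonempty_empty, 0, ?_⟩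
        rw [hx.1, map_zero, mul_zero, add_zero]
      · obtain ⟨v, hv⟩ := hσ
        obtain ⟨a, ha, q, hq⟩ := hx.2 σ ⟨v, hv⟩ v hv
        obtain ⟨a', ha', rfl⟩ := lift_As hR σ a ha
        refine ⟨a' * ∏ i, tq v i ^ d v i, ?_, ?_, q, ?_⟩
        · intro h
          rw [h] at hv
          exact absurd hv (Finset.notMem_empty v)
        · intro _
          refine (((hO d hd).1 σ v hv) _).mpr ?_
          have h2 : ((a' * ∏ i, tq v i ^ d v i : Y.QL) : L) =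
              (a' : L) * ∏ i, Y.t v i ^ d v i := by
            rw [← hTv]; rfl
          rw [h2, mul_div_cancel_right₀ _ (hT0 d v)]
          exact ha'
        · rw [hq, map_mul, hTpi]
    choose X hX0 hX q hq using h1
    refine ⟨X, ⟨?_, fun σ hσ => hX σ hσ⟩, q, hq⟩
    change ((X ∅ : Y.QL) : L) = 0
    rw [hX0 ∅ rfl]
    rfl
  -- the differential and membership
  have hcdO : ∀ (d : Fin m → Fin N → ℕ), d = Y.c ∨ d = Y.c' → ∀ x ∈ Cc (Y.O d),
      ∀ σ : Finset (Fin m), σ.Nonempty → cd x σ ∈ Y.O d σ := by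
    intro d hd x hx σ hσ
    unfold cd
    refine Submodule.sum_mem _ fun v hv => ?_
    refine zsmul_mem ?_ _
    rcases (σ.erase v).eq_empty_or_nonempty with h | h
    · rw [h, hx.1]; exact Submodule.zero_mem _
    · exact (hO d hd).2 _ _ h (Finset.erase_subset v σ) (hx.2 _ h)
  -- the theorem over `Z/p²`
  obtain ⟨Z, hZ, hZC⟩ := hred Y.c z hz.1
  have hcz : cd z = 0 := hz.2
  have hcZ : ∀ σ, cd Z σ = 0 := by
    intro σ
    refine Subtype.ext ?_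
    have h1 : ((cd Z σ : Y.QL) : L) = cd (fun s => ((Z s : Y.QL) : L)) σ :=
      map_cd (Y.QL.val : Y.QL →ₐ[Λ] L).toLinearMap.toAddMonoidHom Z σ
    rw [h1]
    have h2 : (fun s => ((Z s : Y.QL) : L)) = z := funext hZ
    rw [h2, hcz]
    rfl
  have hmapcd : ∀ (X : Finset (Fin m) → Y.QL) (σ : Finset (Fin m)),
      π (cd X σ) = cd (fun s => π (X s)) σ := fun X σ => map_cd π.toAddMonoidHom X σ
  have hcoecd : ∀ (X : Finset (Fin m) → Y.QL) (σ : Finset (Fin m)),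
      ((cd X σ : Y.QL) : L) = cd (fun s => ((X s : Y.QL) : L)) σ := fun X σ =>
    map_cd (Y.QL.val : Y.QL →ₐ[Λ] L).toLinearMap.toAddMonoidHom X σ
  obtain ⟨z', y, hz', hcz', hy, hsum⟩ := hDI p Q m N D hD hNp (fun σ => π (Z σ))
    (by rw [hR.c_eq]; exact hZC)
    (by
      intro σ
      refine ⟨0, ?_⟩
      rw [← hmapcd, hcZ, map_zero, mul_zero])
  rw [hR.c'_eq] at hz'
  rw [hR.c_eq] at hy
  obtain ⟨Z', hZ'C, q1, hq1⟩ := hlift Y.c' (Or.inr rfl) z' hz'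
  obtain ⟨W, hWC, q2, hq2⟩ := hlift Y.c (Or.inl rfl) y hy
  refine ⟨fun σ => (Z' σ : L), hZ'C, fun σ => (W σ : L), hWC, ?_, ?_⟩
  · intro σ hσ
    refine hS Y.c' (Or.inr rfl) σ hσ _ (hcdO Y.c' (Or.inr rfl) _ hZ'C σ hσ) ?_
    rw [← hcoecd]
    obtain ⟨q, hq⟩ := hcz' σ
    have h1 : z' = fun s => π (Z' s) + (p : Q) * q1 s := funext hq1
    rw [h1, cd_add_smul] at hq
    refine mem_of_dvd hR _ (q - cd q1 σ) ?_
    rw [hmapcd, mul_sub, ← hq]
    ring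
  · intro σ hσ
    have hmem : z σ - (Z' σ : L) - cd (fun s => (W s : L)) σ ∈ Y.O Y.c σ := by
      refine Submodule.sub_mem _ (Submodule.sub_mem _ (hz.1.2 σ hσ) ?_) ?_
      · exact hO' σ hσ (hZ'C.2 σ hσ)
      · exact hcdO Y.c (Or.inl rfl) _ hWC σ hσ
    refine hS Y.c (Or.inl rfl) σ hσ _ hmem ?_
    have h0 : z σ - (Z' σ : L) - cd (fun s => (W s : L)) σ = ((Z σ - Z' σ - cd W σ : Y.QL) : L) := by
      rw [← hcoecd, ← hZ σ]
      rfl
    rw [h0]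
    obtain ⟨q, hq⟩ := hsum σ
    have h1 : y = fun s => π (W s) + (p : Q) * q2 s := funext hq2
    rw [h1, cd_add_smul, hq1 σ] at hq
    refine mem_of_dvd hR _ (q1 σ + cd q2 σ + q) ?_
    rw [map_sub, map_sub, hmapcd, hq]
    ring

end

end Pool.Agent.DBX.SPR
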