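import Pool.Agent.DBX.SPR.Stmts

set_option autoImplicit false

/-! # Module RET: étale coordinates on the chart rings of the reduction -/

namespace Pool.Agent.DBX.SPR

open MvPolynomial

universe u

namespace RET_

variable {Λ L : Type u} [CommRing Λ] [Field L] [Algebra Λ L] {m N : ℕ}

theorem A_le_QL (Y : LMod Λ L m N) (v : Fin m) : Y.A v ≤ Y.QL := fun _ hx =>
  Algebra.subset_adjoin (Or.inl ⟨v, hx⟩)

theorem As_single (Y : LMod Λ L m N) (v : Fin m) : Y.As {v} = Y.A v := by
  simp [LMod.As]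

/-- An element of `J • A` is in the ideal generated by `J`. -/
theorem mem_map (A : Subalgebra Λ L) (J : Ideal Λ) (x : L)
    (hx : x ∈ J • Subalgebra.toSubmodule A) :
    ∃ y : A, (y : L) = x ∧ y ∈ Ideal.map (algebraMap Λ A) J := by
  refine Submodule.smul_induction_on (p := fun x => ∃ y : A, (y : L) = x ∧
    y ∈ Ideal.map (algebraMap Λ A) J) hx ?_ ?_
  · intro r hr n hn
    refine ⟨algebraMap Λ A r * ⟨n, hn⟩, ?_, ?_⟩
    · rw [Algebra.smul_def]
      rfl
    · exact Ideal.mul_mem_right _ _ (Ideal.mem_map_of_mem _ hr)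
  · rintro x y ⟨a, rfl, ha⟩ ⟨b, rfl, hb⟩
    exact ⟨a + b, rfl, Ideal.add_mem _ ha hb⟩

theorem etale_comp {R S T : Type*} [CommRing R] [CommRing S] [CommRing T] (f : R →+* S)
    (g : S →+* T) (hf : f.Etale) (hg : g.Etale) : (g.comp f).Etale := by
  algebraize [f, g, g.comp f]
  exact Algebra.Etale.comp R S T

end RET_

open RET_ in
theorem ret_proof (hET2 : Stmt_ET2.{u}) (hLSA : Stmt_LSA.{u}) (hMCC : Stmt_MCC.{u}) :
    Stmt_RET.{u} := by
  intro Λ L _ _ _ m N Y hY hm p _ φ Q _ _ π D hR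
  have htm : ∀ v i, (D.t v i : Q) ∈ D.A v := by
    intro v i
    rw [hR.A_eq]
    exact ⟨⟨Y.t v i, A_le_QL Y v (hY.t_mem v i)⟩, hY.t_mem v i, hR.t_eq v i _ rfl⟩
  refine ⟨htm, fun v => ?_⟩
  have hNZ := (hMCC Λ N p φ).1
  have hφ : Function.Surjective φ := ZMod.ringHom_surjective φ
  -- the map on chart rings
  let q : Y.A v →+* D.A v :=
    { toFun := fun x => ⟨π ⟨x, A_le_QL Y v x.2⟩, (hR.A_eq v _).2 ⟨_, x.2, rfl⟩⟩
      map_one' := Subtype.ext (map_one π)
      map_mul' := fun x y => Subtype.ext (map_mul π ⟨x, A_le_QL Y v x.2⟩ ⟨y, A_le_QL Y v y.2⟩)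
      map_zero' := Subtype.ext (map_zero π)
      map_add' := fun x y => Subtype.ext (map_add π ⟨x, A_le_QL Y v x.2⟩ ⟨y, A_le_QL Y v y.2⟩) }
  have hq : ∀ x : Y.A v, ((q x : D.A v) : Q) = π ⟨x, A_le_QL Y v x.2⟩ := fun x => rfl
  have hqs : Function.Surjective q := by
    rintro ⟨a, ha⟩
    obtain ⟨x, hx, hxa⟩ := (hR.A_eq v a).1 ha
    exact ⟨⟨x, hx⟩, Subtype.ext hxa⟩
  let U : MvPolynomial (Fin N) (ZMod (p ^ 2)) ≃+*
      ULift.{u} (MvPolynomial (Fin N) (ZMod (p ^ 2))) := ULift.ringEquiv.symm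
  let U1 : MvPolynomial (Fin N) (ZMod (p ^ 2)) →+*
      ULift.{u} (MvPolynomial (Fin N) (ZMod (p ^ 2))) := U
  let g : MvPolynomial (Fin N) Λ →+* ULift.{u} (MvPolynomial (Fin N) (ZMod (p ^ 2))) :=
    (U : MvPolynomial (Fin N) (ZMod (p ^ 2)) →+* _).comp (MvPolynomial.map φ)
  let f0 : MvPolynomial (Fin N) (ZMod (p ^ 2)) →+* D.A v :=
    (MvPolynomial.aeval (R := ZMod (p ^ 2))
        (fun i => (⟨(D.t v i : Q), htm v i⟩ : D.A v))).toRingHom
  let f' : ULift.{u} (MvPolynomial (Fin N) (ZMod (p ^ 2))) →+* D.A v :=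
    f0.comp (U.symm : _ →+* MvPolynomial (Fin N) (ZMod (p ^ 2)))
  let f : MvPolynomial (Fin N) Λ →+* Y.A v :=
    (MvPolynomial.aeval (R := Λ)
      (fun i => (⟨Y.t v i, hY.t_mem v i⟩ : Y.A v))).toRingHom
  have hgs : Function.Surjective g :=
    U.surjective.comp (MvPolynomial.map_surjective φ hφ)
  have hcomp : f'.comp g = q.comp f := by
    refine MvPolynomial.ringHom_ext ?_ ?_
    · intro a
      refine Subtype.ext ?_
      change ((f0 (U.symm (U (MvPolynomial.map φ (C a)))) : D.A v) : Q) =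
        π ⟨(f (C a) : Y.A v), _⟩
      rw [RingEquiv.symm_apply_apply, MvPolynomial.map_C]
      have e1 : f0 (C (φ a)) = algebraMap (ZMod (p ^ 2)) (D.A v) (φ a) := by
        change MvPolynomial.aeval _ (C (φ a)) = _
        rw [MvPolynomial.aeval_C]
      have e2 : f (C a) = algebraMap Λ (Y.A v) a := by
        change MvPolynomial.aeval _ (C a) = _
        rw [MvPolynomial.aeval_C]
      rw [e1]
      have e3 : (⟨((f (C a) : Y.A v) : L), A_le_QL Y v (f (C a)).2⟩ : Y.QL) =
          algebraMap Λ Y.QL a := by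
        refine Subtype.ext ?_
        rw [e2]
        rfl
      rw [e3, hR.alg]
      rfl
    · intro i
      refine Subtype.ext ?_
      change ((f0 (U.symm (U (MvPolynomial.map φ (X i)))) : D.A v) : Q) =
        π ⟨(f (X i) : Y.A v), _⟩
      rw [RingEquiv.symm_apply_apply, MvPolynomial.map_X]
      have e1 : f0 (X i) = ⟨(D.t v i : Q), htm v i⟩ := by
        change MvPolynomial.aeval _ (X i) = _
        rw [MvPolynomial.aeval_X]
      have e2 : f (X i) = ⟨Y.t v i, hY.t_mem v i⟩ := by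
        change MvPolynomial.aeval _ (X i) = _
        rw [MvPolynomial.aeval_X]
      rw [e1]
      refine (hR.t_eq v i _ ?_).symm
      rw [e2]
  have hker : RingHom.ker q = Ideal.map f (RingHom.ker g) := by
    apply le_antisymm
    · intro x hx
      rw [RingHom.mem_ker] at hx
      have hx1 : π ⟨x, A_le_QL Y v x.2⟩ = 0 := by rw [← hq, hx]; rfl
      rw [hR.ker] at hx1
      have hx2 := (hLSA Λ L m N Y hY (RingHom.ker φ) hNZ).1 {v} (Finset.singleton_nonempty v)
        (x : L) (by rw [As_single]; exact x.2) hx1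
      rw [As_single] at hx2
      obtain ⟨y, hy, hyJ⟩ := mem_map (Y.A v) (RingHom.ker φ) _ hx2
      have hyx : y = x := Subtype.ext hy
      subst hyx
      refine (Ideal.map_le_iff_le_comap.2 ?_) hyJ
      intro a ha
      rw [Ideal.mem_comap]
      have e2 : algebraMap Λ (Y.A v) a = f (C a) := by
        change _ = MvPolynomial.aeval _ (C a)
        rw [MvPolynomial.aeval_C]
      rw [e2]
      refine Ideal.mem_map_of_mem f ?_
      rw [RingHom.mem_ker] at ha ⊢
      change U (MvPolynomial.map φ (C a)) = 0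
      rw [MvPolynomial.map_C, ha, C_0, map_zero]
    · rw [Ideal.map_le_iff_le_comap]
      intro r hr
      rw [RingHom.mem_ker] at hr
      rw [Ideal.mem_comap, RingHom.mem_ker]
      have := RingHom.congr_fun hcomp r
      rw [RingHom.comp_apply, RingHom.comp_apply, hr, map_zero] at this
      exact this.symm
  have hf'E : f'.Etale := hET2 _ _ _ _ f g q f' (hY.etale v) hgs hqs hcomp hker
  have hUE : U1.Etale := RingHom.Etale.of_bijective (f := U1) U.bijective
  have h0 : f0 = f'.comp U1 := by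
    refine RingHom.ext fun x => ?_
    change f0 x = f0 (U.symm (U x))
    rw [RingEquiv.symm_apply_apply]
  change f0.Etale
  rw [h0]
  exact etale_comp _ _ hUE hf'E

end Pool.Agent.DBX.SPR
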