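import Pool.Agent.DBX.SPR.Stmts

set_option autoImplicit false

/-! # MP_2c751f_ag, squad DBX, area SPR, module RFL: the reduction modulo `p²` is flat, and its
chart rings are saturated -/

namespace Pool.Agent.DBX.SPR

noncomputable section

universe u v

namespace RFL_

theorem exists_sum {R : Type u} {M : Type v} [CommRing R] [AddCommGroup M] [Module R M]
    (J : Ideal R) (x : M) (hx : x ∈ J • (⊤ : Submodule R M)) :
    ∃ (ι : Type) (_ : Fintype ι) (c : ι → R) (y : ι → M), (∀ i, c i ∈ J) ∧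
      x = ∑ i, c i • y i := by
  refine Submodule.smul_induction_on hx ?_ ?_
  · intro r hr n _
    exact ⟨Unit, inferInstance, fun _ => r, fun _ => n, fun _ => hr, by simp⟩
  · rintro a b ⟨ι, _, c, y, h1, h2⟩ ⟨ι', _, c', y', h1', h2'⟩
    refine ⟨ι ⊕ ι', inferInstance, Sum.elim c c', Sum.elim y y', ?_, ?_⟩
    · rintro (i | i)
      · exact h1 i
      · exact h1' i
    · rw [Fintype.sum_sum_type, h2, h2']
      rfl

/-- Flatness: `f x ∈ J M` implies `x ∈ I M` if `I` contains all `a` with `f a ∈ J`. -/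
theorem flat_colon {R : Type u} {M : Type v} [CommRing R] [AddCommGroup M] [Module R M]
    [Module.Flat R M] (J I : Ideal R) (f : R) (hI : ∀ a, f * a ∈ J → a ∈ I) (x : M)
    (hx : f • x ∈ J • (⊤ : Submodule R M)) : x ∈ I • (⊤ : Submodule R M) := by
  obtain ⟨ι, _, c, y, hc, hs⟩ := exists_sum J _ hx
  let F : Option ι → R := fun o => Option.elim o f (fun i => - c i)
  let G : Option ι → M := fun o => Option.elim o x y
  have hrel : ∑ o : Option ι, F o • G o = 0 := by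
    rw [Fintype.sum_option]
    change f • x + ∑ i, (- c i) • y i = 0
    rw [hs, ← Finset.sum_add_distrib]
    refine Finset.sum_eq_zero fun i _ => ?_
    rw [neg_smul, add_neg_cancel]
  obtain ⟨k, b, z, h1, h2⟩ := Module.Flat.isTrivialRelation_of_sum_smul_eq_zero hrel
  have h3 : x = ∑ j, b none j • z j := h1 none
  rw [h3]
  refine Submodule.sum_mem _ fun j _ => ?_
  refine Submodule.smul_mem_smul (hI _ ?_) Submodule.mem_top
  have h4 := h2 j
  rw [Fintype.sum_option] at h4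
  change f * b none j + ∑ i, (- c i) * b (some i) j = 0 at h4
  have h5 : f * b none j = ∑ i, c i * b (some i) j := by
    rw [← sub_eq_zero, ← h4, sub_eq_add_neg, ← Finset.sum_neg_distrib]
    congr 1
    refine Finset.sum_congr rfl fun i _ => ?_
    rw [neg_mul]
  rw [h5]
  exact Ideal.sum_mem _ fun i _ => J.mul_mem_right _ (hc i)

theorem zmod_p (p : ℕ) [hp : Fact p.Prime] (z : ZMod (p ^ 2)) (hz : (p : ZMod (p ^ 2)) * z = 0) :
    z ∈ Ideal.span {(p : ZMod (p ^ 2))} := by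
  haveI : NeZero (p ^ 2) := ⟨pow_ne_zero 2 hp.out.ne_zero⟩
  rw [← ZMod.natCast_zmod_val z, ← Nat.cast_mul, ZMod.natCast_eq_zero_iff] at hz
  obtain ⟨b, hb'⟩ := hz
  have hb : z.val = p * b := by
    refine Nat.eq_of_mul_eq_mul_left hp.out.pos ?_
    rw [hb']
    ring
  rw [Ideal.mem_span_singleton, ← ZMod.natCast_zmod_val z, hb]
  exact ⟨(b : ZMod (p ^ 2)), by push_cast; ring⟩

section

variable {Λ L : Type u} [CommRing Λ] [Field L] [Algebra Λ L] {m N : ℕ} (Y : LMod Λ L m N)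

theorem As_le (σ : Finset (Fin m)) : Y.As σ ≤ Y.QL := by
  refine iSup₂_le fun v _ => ?_
  intro z hz
  exact Algebra.subset_adjoin (Or.inl ⟨v, hz⟩)

theorem smul_top (Q : Subalgebra Λ L) (J : Ideal Λ) (x : Q)
    (hx : (x : L) ∈ J • Subalgebra.toSubmodule Q) : x ∈ J • (⊤ : Submodule Λ Q) := by
  have h1 : Subalgebra.toSubmodule Q = Submodule.map Q.val.toLinearMap ⊤ := by
    ext z
    simp only [Subalgebra.mem_toSubmodule, Submodule.mem_map, Submodule.mem_top, true_and]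
    constructor
    · intro hz
      exact ⟨⟨z, hz⟩, rfl⟩
    · rintro ⟨y, rfl⟩
      exact y.2
  rw [h1, ← Submodule.map_smul''] at hx
  obtain ⟨y, hy, hyx⟩ := hx
  have : y = x := Subtype.ext hyx
  rw [← this]
  exact hy

variable {Y} {p : ℕ} {φ : Λ →+* ZMod (p ^ 2)} {Q : Type u} [CommRing Q]
  [Algebra (ZMod (p ^ 2)) Q] {π : Y.QL →+* Q} {D : DMod p Q m N}

theorem lift_As (hR : Red Y φ π D) (σ : Finset (Fin m)) (a : Q) (ha : a ∈ D.As σ) :
    ∃ x : Y.QL, (x : L) ∈ Y.As σ ∧ π x = a := by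
  let S : Subalgebra (ZMod (p ^ 2)) Q :=
    { carrier := {a | ∃ x : Y.QL, (x : L) ∈ Y.As σ ∧ π x = a}
      mul_mem' := by
        rintro a b ⟨x, hx, rfl⟩ ⟨y, hy, rfl⟩
        exact ⟨x * y, (Y.As σ).mul_mem hx hy, map_mul π x y⟩
      add_mem' := by
        rintro a b ⟨x, hx, rfl⟩ ⟨y, hy, rfl⟩
        exact ⟨x + y, (Y.As σ).add_mem hx hy, map_add π x y⟩
      algebraMap_mem' := by
        intro r
        obtain ⟨a, rfl⟩ := ZMod.ringHom_surjective φ r
        exact ⟨algebraMap Λ Y.QL a, (Y.As σ).algebraMap_mem a, hR.alg a⟩ }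
  have h : D.As σ ≤ S := by
    refine iSup₂_le fun v hv => ?_
    intro z hz
    obtain ⟨x, hx, hxz⟩ := (hR.A_eq v z).mp hz
    exact ⟨x, (le_iSup₂ (f := fun v (_ : v ∈ σ) => Y.A v) v hv) hx, hxz⟩
  exact h ha

theorem push_As (hR : Red Y φ π D) (σ : Finset (Fin m)) (x : L) (hx : x ∈ Y.As σ) :
    ∃ h : x ∈ Y.QL, π ⟨x, h⟩ ∈ D.As σ := by
  let S : Subalgebra Λ L :=
    { carrier := {x | ∃ h : x ∈ Y.QL, π ⟨x, h⟩ ∈ D.As σ}
      mul_mem' := by
        rintro a b ⟨ha, ha'⟩ ⟨hb, hb'⟩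
        refine ⟨Y.QL.mul_mem ha hb, ?_⟩
        have : (⟨a * b, Y.QL.mul_mem ha hb⟩ : Y.QL) = ⟨a, ha⟩ * ⟨b, hb⟩ := rfl
        rw [this, map_mul]
        exact (D.As σ).mul_mem ha' hb'
      add_mem' := by
        rintro a b ⟨ha, ha'⟩ ⟨hb, hb'⟩
        refine ⟨Y.QL.add_mem ha hb, ?_⟩
        have : (⟨a + b, Y.QL.add_mem ha hb⟩ : Y.QL) = ⟨a, ha⟩ + ⟨b, hb⟩ := rfl
        rw [this, map_add]
        exact (D.As σ).add_mem ha' hb'
      algebraMap_mem' := by
        intro r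
        refine ⟨Y.QL.algebraMap_mem r, ?_⟩
        have : (⟨algebraMap Λ L r, Y.QL.algebraMap_mem r⟩ : Y.QL) = algebraMap Λ Y.QL r := rfl
        rw [this, hR.alg]
        exact (D.As σ).algebraMap_mem _ }
  have h : Y.As σ ≤ S := by
    refine iSup₂_le fun v hv => ?_
    intro z hz
    refine ⟨As_le Y σ ((le_iSup₂ (f := fun v (_ : v ∈ σ) => Y.A v) v hv) hz), ?_⟩
    refine (le_iSup₂ (f := fun v (_ : v ∈ σ) => D.A v) v hv) ?_
    exact (hR.A_eq v _).mpr ⟨_, hz, rfl⟩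
  exact h hx

/-- the image of `𝔪 As σ` is in `p π(As σ)` -/
theorem smul_As (hR : Red Y φ π D) (B : Subalgebra Λ L) (E : Subalgebra (ZMod (p ^ 2)) Q)
    (hB : ∀ x ∈ B, ∃ h : x ∈ Y.QL, π ⟨x, h⟩ ∈ E) (x : L)
    (hx : x ∈ (Ideal.comap φ (Ideal.span {(p : ZMod (p ^ 2))})) • Subalgebra.toSubmodule B) :
    ∃ h : x ∈ Y.QL, ∃ y ∈ E, π ⟨x, h⟩ = (p : Q) * y := by
  refine Submodule.smul_induction_on hx ?_ ?_
  · intro r hr n hn
    obtain ⟨h, hn'⟩ := hB n hn
    refine ⟨Y.QL.smul_mem h r, ?_⟩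
    obtain ⟨b, hb⟩ := Ideal.mem_span_singleton.mp (Ideal.mem_comap.mp hr)
    refine ⟨algebraMap (ZMod (p ^ 2)) Q b * π ⟨n, h⟩, E.mul_mem (E.algebraMap_mem _) hn', ?_⟩
    have h1 : (⟨r • n, Y.QL.smul_mem h r⟩ : Y.QL) = algebraMap Λ Y.QL r * ⟨n, h⟩ := by
      refine Subtype.ext ?_
      change r • n = algebraMap Λ L r * n
      rw [Algebra.smul_def]
    rw [h1, map_mul, hR.alg, hb, map_mul, map_natCast, mul_assoc]
  · rintro x y ⟨hx, x', hx', hx''⟩ ⟨hy, y', hy', hy''⟩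
    refine ⟨Y.QL.add_mem hx hy, x' + y', E.add_mem hx' hy', ?_⟩
    have : (⟨x + y, Y.QL.add_mem hx hy⟩ : Y.QL) = ⟨x, hx⟩ + ⟨y, hy⟩ := rfl
    rw [this, map_add, hx'', hy'', mul_add]

end

end RFL_

theorem rfl_proof (hLFL : Stmt_LFL.{u}) (hLSA : Stmt_LSA.{u}) (hMCC : Stmt_MCC.{u}) :
    Stmt_RFL.{u} := by
  intro Λ L _ _ _ m N Y hY hm p _ φ Q _ _ π D hR
  obtain ⟨-, hNZ, -⟩ := hMCC Λ N p φ
  have hpm : (p : Λ) ∈ Ideal.comap φ (Ideal.span {(p : ZMod (p ^ 2))}) := by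
    rw [Ideal.mem_comap, map_natCast]
    exact Ideal.mem_span_singleton_self _
  have hJm : RingHom.ker φ ≤ Ideal.comap φ (Ideal.span {(p : ZMod (p ^ 2))}) := by
    intro a ha
    rw [Ideal.mem_comap, (RingHom.mem_ker).mp ha]
    exact Ideal.zero_mem _
  constructor
  · intro x hx
    obtain ⟨x', rfl⟩ := hR.surj x
    haveI : Module.Flat Λ Y.QL := (hLFL Λ L m N Y hY).2 hm
    have h1 : π ((p : Λ) • x') = 0 := by
      rw [Algebra.smul_def, map_mul, hR.alg, map_natCast, map_natCast]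
      exact hx
    have h2 := RFL_.smul_top Y.QL _ _ ((hR.ker _).mp h1)
    have h3 := RFL_.flat_colon (RingHom.ker φ)
      (Ideal.comap φ (Ideal.span {(p : ZMod (p ^ 2))})) (p : Λ) (by
        intro a ha
        rw [Ideal.mem_comap]
        refine RFL_.zmod_p p _ ?_
        rw [RingHom.mem_ker, map_mul, map_natCast] at ha
        exact ha) x' h2
    have h4 : (x' : L) ∈ (Ideal.comap φ (Ideal.span {(p : ZMod (p ^ 2))})) •
        Subalgebra.toSubmodule Y.QL := by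
      refine Submodule.smul_induction_on h3 ?_ ?_
      · intro r hr n _
        exact Submodule.smul_mem_smul hr n.2
      · intro a b ha hb
        exact Submodule.add_mem _ ha hb
    obtain ⟨_, y, _, hy⟩ := RFL_.smul_As hR Y.QL ⊤
      (fun x hx => ⟨hx, Algebra.mem_top⟩) _ h4
    exact ⟨y, hy⟩
  · intro σ hσ x hx
    obtain ⟨x', rfl⟩ := hR.surj x
    obtain ⟨a, ha, hax⟩ := RFL_.lift_As hR σ _ hx
    have h1 : π ((p : Λ) • x' - a) = 0 := by
      rw [map_sub, hax, Algebra.smul_def, map_mul, hR.alg, map_natCast, map_natCast, sub_self]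
    have h2 := (hR.ker _).mp h1
    have h3 : (a : L) ∈ (Ideal.comap φ (Ideal.span {(p : ZMod (p ^ 2))})) •
        Subalgebra.toSubmodule Y.QL := by
      have h4 := Submodule.smul_mono_left (N := Subalgebra.toSubmodule Y.QL) hJm h2
      have h5 : (p : Λ) • (x' : L) ∈ (Ideal.comap φ (Ideal.span {(p : ZMod (p ^ 2))})) •
          Subalgebra.toSubmodule Y.QL := Submodule.smul_mem_smul hpm x'.2
      have h6 := Submodule.sub_mem _ h5 h4
      have h7 : (p : Λ) • (x' : L) - (((p : Λ) • x' - a : Y.QL) : L) = a := by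
        change (p : Λ) • (x' : L) - ((p : Λ) • (x' : L) - (a : L)) = a
        rw [sub_sub_cancel]
      rw [h7] at h6
      exact h6
    have h8 := ((hLSA Λ L m N Y hY _ hNZ).1 σ hσ (a : L) ha h3)
    obtain ⟨_, y, hy, hy'⟩ := RFL_.smul_As hR (Y.As σ) (D.As σ) (RFL_.push_As hR σ) _ h8
    exact ⟨y, hy, by rw [← hax]; exact hy'.symm⟩

end

end Pool.Agent.DBX.SPR
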