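import Pool.Agent.DBX.SPR.Stmts

/-!
# MP_2c751f_ag, area SPR: the reduction is a good model
-/

set_option autoImplicit false

namespace Pool.Agent.DBX.SPR

open MvPolynomial

noncomputable section

universe u v w

namespace RGO_

section

variable {Λ L : Type u} [CommRing Λ] [Field L] [Algebra Λ L] {m N : ℕ} {Y : LMod Λ L m N}
  {p : ℕ} {φ : Λ →+* ZMod (p ^ 2)} {Q : Type u} [CommRing Q] [Algebra (ZMod (p ^ 2)) Q]
  {π : Y.QL →+* Q} {D : DMod p Q m N}

/-- the inverse image of a subalgebra -/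
def CM (hR : Red Y φ π D) (B : Subalgebra (ZMod (p ^ 2)) Q) : Subalgebra Λ L where
  carrier := {x | ∃ hx : x ∈ Y.QL, π ⟨x, hx⟩ ∈ B}
  mul_mem' := by
    rintro a b ⟨ha, ha'⟩ ⟨hb, hb'⟩
    refine ⟨mul_mem ha hb, ?_⟩
    have : (⟨a * b, mul_mem ha hb⟩ : Y.QL) = ⟨a, ha⟩ * ⟨b, hb⟩ := rfl
    rw [this, map_mul]
    exact mul_mem ha' hb'
  add_mem' := by
    rintro a b ⟨ha, ha'⟩ ⟨hb, hb'⟩
    refine ⟨add_mem ha hb, ?_⟩
    have : (⟨a + b, add_mem ha hb⟩ : Y.QL) = ⟨a, ha⟩ + ⟨b, hb⟩ := rfl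
    rw [this, map_add]
    exact add_mem ha' hb'
  algebraMap_mem' := by
    intro r
    refine ⟨Y.QL.algebraMap_mem r, ?_⟩
    have : (⟨algebraMap Λ L r, Y.QL.algebraMap_mem r⟩ : Y.QL) = algebraMap Λ Y.QL r := rfl
    rw [this, hR.alg]
    exact B.algebraMap_mem _

theorem mem_CM (hR : Red Y φ π D) (B : Subalgebra (ZMod (p ^ 2)) Q) (x : L) :
    x ∈ CM hR B ↔ ∃ hx : x ∈ Y.QL, π ⟨x, hx⟩ ∈ B := Iff.rfl

theorem A_le_QL (Y : LMod Λ L m N) (v : Fin m) : Y.A v ≤ Y.QL := by
  intro x hx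
  exact Algebra.subset_adjoin (Or.inl ⟨v, hx⟩)

theorem A_le_CM (hR : Red Y φ π D) (v : Fin m) : Y.A v ≤ CM hR (D.A v) := by
  intro x hx
  refine ⟨A_le_QL Y v hx, ?_⟩
  rw [hR.A_eq]
  exact ⟨_, hx, rfl⟩

theorem As_le_CM (hR : Red Y φ π D) (σ : Finset (Fin m)) : Y.As σ ≤ CM hR (D.As σ) := by
  unfold LMod.As
  refine iSup₂_le fun v hv => ?_
  intro x hx
  obtain ⟨h1, h2⟩ := A_le_CM hR v hx
  refine ⟨h1, ?_⟩
  have h3 : D.A v ≤ D.As σ := by
    unfold DMod.As
    exact le_iSup₂_of_le v hv le_rfl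
  exact h3 h2

/-- the coordinates as elements of `QL` -/
def tq (hY : Y.Good) (v : Fin m) (i : Fin N) : Y.QL := ⟨Y.t v i, A_le_QL Y v (hY.t_mem v i)⟩

theorem pi_tq (hY : Y.Good) (hR : Red Y φ π D) (v : Fin m) (i : Fin N) :
    π (tq hY v i) = D.t v i := hR.t_eq v i _ rfl

/-- the ratios as elements of `QL` -/
def hq (hY : Y.Good) (v w : Fin m) : Y.QL := ⟨Y.h w / Y.h v, A_le_QL Y v (hY.h_mem v w)⟩

theorem pi_hq (hY : Y.Good) (hR : Red Y φ π D) (v w : Fin m) :
    π (hq hY v w) = (D.h w : Q) * ((D.h v)⁻¹ : Qˣ) := hR.h_eq v w _ rfl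

theorem glueC (hY : Y.Good) (hR : Red Y φ π D) (c : Fin m → Fin N → ℕ) (v w : Fin m)
    (h : (∏ i, Y.t v i ^ c v i) / (∏ i, Y.t w i ^ c w i) ∈ Y.As {v, w}) :
    (∏ i, (D.t v i : Q) ^ c v i) * (∏ i, (((D.t w i)⁻¹ : Qˣ) : Q) ^ c w i) ∈ D.As {v, w} := by
  obtain ⟨h1, h2⟩ := As_le_CM hR {v, w} h
  have h3 : (⟨_, h1⟩ : Y.QL) * ∏ i, tq hY w i ^ c w i = ∏ i, tq hY v i ^ c v i := by
    apply Subtype.ext
    have hne : (∏ i, Y.t w i ^ c w i) ≠ 0 :=
      Finset.prod_ne_zero_iff.2 fun i _ => pow_ne_zero _ (hY.t_ne w i)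
    have e1 : (((∏ i, tq hY w i ^ c w i : Y.QL)) : L) = ∏ i, Y.t w i ^ c w i := by
      rw [SubmonoidClass.coe_finsetProd]
      rfl
    have e2 : (((∏ i, tq hY v i ^ c v i : Y.QL)) : L) = ∏ i, Y.t v i ^ c v i := by
      rw [SubmonoidClass.coe_finsetProd]
      rfl
    rw [MulMemClass.coe_mul, e1, e2]
    exact div_mul_cancel₀ _ hne
  have h4 := congrArg π h3
  rw [map_mul, map_prod, map_prod] at h4
  simp only [map_pow, pi_tq hY hR] at h4
  have h5 : (∏ i, (D.t w i : Q) ^ c w i) * (∏ i, (((D.t w i)⁻¹ : Qˣ) : Q) ^ c w i) = 1 := by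
    rw [← Finset.prod_mul_distrib]
    apply Finset.prod_eq_one
    intro i _
    rw [← mul_pow, Units.mul_inv, one_pow]
  rw [← h4, mul_assoc, h5, mul_one]
  exact h2

end

end RGO_

open RGO_ in
theorem rgo_proof (hRET : Stmt_RET.{u}) (hRFL : Stmt_RFL.{u}) (hLQL : Stmt_LQL.{u})
    (_hLAS : Stmt_LAS.{u}) : Stmt_RGO.{u} := by
  intro Λ L _ _ _ m N Y hY hm p _ φ hc' Q _ _ π D hR
  obtain ⟨t_mem, het⟩ := hRET Λ L m N Y hY hm p φ Q π D hR
  obtain ⟨hfl, hsat⟩ := hRFL Λ L m N Y hY hm p φ Q π D hR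
  exact
    { flat := hfl
      sat := hsat
      t_mem := t_mem
      h_mem := fun v w => by
        rw [← pi_hq hY hR v w, hR.A_eq]
        exact ⟨_, hY.h_mem v w, rfl⟩
      glue := fun v w => by
        intro a ha
        rw [hR.A_eq] at ha
        obtain ⟨x, hx, rfl⟩ := ha
        have h1 : Algebra.adjoin Λ ((Y.A v : Set L) ∪ {Y.h v / Y.h w}) ≤
            CM hR (Algebra.adjoin (ZMod (p ^ 2))
              ((D.A v : Set Q) ∪ {(D.h v : Q) * ((D.h w)⁻¹ : Qˣ)})) := by
          apply Algebra.adjoin_le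
          rintro y (hy | rfl)
          · obtain ⟨h1, h2⟩ := A_le_CM hR v hy
            exact ⟨h1, Algebra.subset_adjoin (Or.inl h2)⟩
          · refine ⟨(hq hY w v).2, Algebra.subset_adjoin (Or.inr ?_)⟩
            exact pi_hq hY hR w v
        exact (h1 (hY.glue v w hx)).2
      fin := fun v => by
        obtain ⟨G, hG, hsp⟩ := hY.fin v
        classical
        let f : L → Q := fun x => if hx : x ∈ Y.QL then π ⟨x, hx⟩ else 0
        have hf : ∀ (x : L) (hx : x ∈ Y.QL), f x = π ⟨x, hx⟩ := fun x hx => dif_pos hx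
        refine ⟨G.image f, ?_, ?_⟩
        · intro y hy
          rw [Finset.coe_image] at hy
          obtain ⟨x, hx, rfl⟩ := hy
          obtain ⟨h1, h2⟩ := A_le_CM hR v (hG hx)
          rw [hf x h1]
          exact h2
        · intro a ha
          rw [hR.A_eq] at ha
          obtain ⟨x, hx, rfl⟩ := ha
          have hP : Y.P v ≤ CM hR (Prg (ZMod (p ^ 2)) D.h {v}) := by
            unfold LMod.P
            apply Algebra.adjoin_le
            rintro y ⟨w, rfl⟩
            refine ⟨(hq hY v w).2, Algebra.subset_adjoin ⟨v, Finset.mem_singleton_self v, w, ?_⟩⟩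
            exact pi_hq hY hR v w
          have key : ∀ y : L, y ∈ Submodule.span (Y.P v) (G : Set L) →
              ∃ hy : y ∈ Y.QL, π ⟨y, hy⟩ ∈
                Submodule.span (Prg (ZMod (p ^ 2)) D.h {v}) ((G.image f : Finset Q) : Set Q) := by
            intro y hy
            induction hy using Submodule.span_induction with
            | mem y hy =>
              have h1 := A_le_QL Y v (hG hy)
              refine ⟨h1, Submodule.subset_span ?_⟩
              rw [Finset.coe_image]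
              exact ⟨y, hy, hf y h1⟩
            | zero =>
              refine ⟨Y.QL.zero_mem, ?_⟩
              have : (⟨0, Y.QL.zero_mem⟩ : Y.QL) = 0 := rfl
              rw [this, map_zero]
              exact Submodule.zero_mem _
            | add y z _ _ hy hz =>
              obtain ⟨h1, h2⟩ := hy
              obtain ⟨h3, h4⟩ := hz
              refine ⟨add_mem h1 h3, ?_⟩
              have : (⟨y + z, add_mem h1 h3⟩ : Y.QL) = ⟨y, h1⟩ + ⟨z, h3⟩ := rfl
              rw [this, map_add]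
              exact Submodule.add_mem _ h2 h4
            | smul r y _ hy =>
              obtain ⟨h1, h2⟩ := hy
              obtain ⟨h3, h4⟩ := hP r.2
              have h5 : r • y = (r : L) * y := rfl
              refine ⟨by rw [h5]; exact mul_mem h3 h1, ?_⟩
              have : (⟨r • y, by rw [h5]; exact mul_mem h3 h1⟩ : Y.QL) =
                ⟨(r : L), h3⟩ * ⟨y, h1⟩ := rfl
              rw [this, map_mul]
              exact Submodule.smul_mem _ (⟨π ⟨(r : L), h3⟩, h4⟩ :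
                Prg (ZMod (p ^ 2)) D.h {v}) h2
          exact (key _ (hsp _ hx)).2
      loc := fun v x => by
        obtain ⟨x, rfl⟩ := hR.surj x
        obtain ⟨e, he⟩ := hLQL Λ L m N Y hY v (x : L) x.2
        refine ⟨e, ?_⟩
        obtain ⟨h1, h2⟩ := A_le_CM hR v he
        have h3 : (⟨_, h1⟩ : Y.QL) = x * (∏ w, hq hY v w) ^ e *
            (∏ i, tq hY v i ^ Y.c v i) ^ e := by
          apply Subtype.ext
          rw [MulMemClass.coe_mul, MulMemClass.coe_mul, SubmonoidClass.coe_pow,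
            SubmonoidClass.coe_pow, SubmonoidClass.coe_finsetProd,
            SubmonoidClass.coe_finsetProd]
          rfl
        rw [h3, map_mul, map_mul, map_pow, map_pow, map_prod, map_prod] at h2
        simp only [map_pow, pi_tq hY hR, pi_hq hY hR] at h2
        rw [hR.c_eq]
        exact h2
      etale := het
      c_le := fun v i => by rw [hR.c_eq]; exact hY.c_le v i
      c'_le := fun v i => by rw [hR.c'_eq]; exact hc' v i
      c_supp := fun v i => by rw [hR.c_eq, hR.c'_eq]; exact hY.c_supp v i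
      t_inv := fun v i h => by
        rw [hR.c_eq] at h
        obtain ⟨h1, h2⟩ := A_le_CM hR v (hY.t_inv v i h)
        have h3 : (⟨_, h1⟩ : Y.QL) * tq hY v i = 1 :=
          Subtype.ext (inv_mul_cancel₀ (hY.t_ne v i))
        have h4 := congrArg π h3
        rw [map_mul, map_one, pi_tq hY hR] at h4
        have h5 : (((D.t v i)⁻¹ : Qˣ) : Q) = π ⟨_, h1⟩ := by
          rw [← one_mul (((D.t v i)⁻¹ : Qˣ) : Q), ← h4, mul_assoc, Units.mul_inv, mul_one]
        rw [h5]
        exact h2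
      c_glue := fun v w => by
        rw [hR.c_eq]
        exact glueC hY hR Y.c v w (hY.c_glue v w)
      c'_glue := fun v w => by
        rw [hR.c'_eq]
        exact glueC hY hR Y.c' v w (hY.c'_glue v w) }

end

end Pool.Agent.DBX.SPR
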