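import Pool.Agent.DBX.SPR.Stmts

set_option autoImplicit false

/-! # MP_2c751f_ag, squad DBX, area SPR, module RQ: the reduction modulo `p²` exists -/

namespace Pool.Agent.DBX.SPR

noncomputable section

universe u

namespace RQ_

section

variable {Λ L : Type u} [CommRing Λ] [Field L] [Algebra Λ L] {m N : ℕ}

theorem mem_map_iff (Q : Subalgebra Λ L) (J : Ideal Λ) (x : Q) :
    x ∈ Ideal.map (algebraMap Λ Q) J ↔ (x : L) ∈ J • Subalgebra.toSubmodule Q := by
  have h1 : Subalgebra.toSubmodule Q = Submodule.map Q.val.toLinearMap ⊤ := by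
    ext z
    simp only [Subalgebra.mem_toSubmodule, Submodule.mem_map, Submodule.mem_top, true_and]
    constructor
    · intro hz
      exact ⟨⟨z, hz⟩, rfl⟩
    · rintro ⟨y, rfl⟩
      exact y.2
  rw [h1, ← Submodule.map_smul'', Ideal.smul_top_eq_map]
  constructor
  · intro hx
    exact ⟨x, hx, rfl⟩
  · rintro ⟨y, hy, hyx⟩
    have : y = x := Subtype.ext hyx
    rw [← this]
    exact hy

variable (Y : LMod Λ L m N)

theorem A_le (v : Fin m) {z : L} (hz : z ∈ Y.A v) : z ∈ Y.QL :=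
  Algebra.subset_adjoin (Or.inl ⟨v, hz⟩)

theorem ti_mem (v : Fin m) (i : Fin N) : (Y.t v i)⁻¹ ∈ Y.QL :=
  Algebra.subset_adjoin (Or.inr ⟨v, i, rfl⟩)

end

end RQ_

theorem rq_proof : Stmt_RQ.{u} := by
  intro Λ L _ _ _ m N Y hY hm p _ φ
  have hφ : Function.Surjective φ := ZMod.ringHom_surjective φ
  let I : Ideal Y.QL := Ideal.map (algebraMap Λ Y.QL) (RingHom.ker φ)
  let π : Y.QL →+* (Y.QL ⧸ I) := Ideal.Quotient.mk I
  let g : Λ →+* (Y.QL ⧸ I) := π.comp (algebraMap Λ Y.QL)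
  have hg : RingHom.ker φ ≤ RingHom.ker g := by
    intro a ha
    rw [RingHom.mem_ker]
    exact Ideal.Quotient.eq_zero_iff_mem.mpr (Ideal.mem_map_of_mem _ ha)
  let α : ZMod (p ^ 2) →+* (Y.QL ⧸ I) := RingHom.liftOfRightInverse φ (Function.surjInv hφ)
    (Function.rightInverse_surjInv hφ) ⟨g, hg⟩
  have hα : ∀ a, α (φ a) = g a := fun a =>
    RingHom.liftOfRightInverse_comp_apply φ (Function.surjInv hφ)
      (Function.rightInverse_surjInv hφ) ⟨g, hg⟩ a
  letI : Algebra (ZMod (p ^ 2)) (Y.QL ⧸ I) := α.toAlgebra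
  let v0 : Fin m := ⟨0, hm⟩
  have hh : ∀ v w, Y.h w / Y.h v ∈ Y.QL := fun v w => RQ_.A_le Y v (hY.h_mem v w)
  have ht : ∀ v i, Y.t v i ∈ Y.QL := fun v i => RQ_.A_le Y v (hY.t_mem v i)
  have hti : ∀ v i, (Y.t v i)⁻¹ ∈ Y.QL := fun v i => RQ_.ti_mem Y v i
  have hmul : ∀ (a b : L) (ha : a ∈ Y.QL) (hb : b ∈ Y.QL), a * b = 1 →
      π ⟨a, ha⟩ * π ⟨b, hb⟩ = 1 := by
    intro a b ha hb hab
    rw [← map_mul]
    have : (⟨a, ha⟩ * ⟨b, hb⟩ : Y.QL) = 1 := Subtype.ext hab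
    rw [this, map_one]
  let D : DMod p (Y.QL ⧸ I) m N :=
    { h := fun v => ⟨π ⟨Y.h v / Y.h v0, hh v0 v⟩, π ⟨Y.h v0 / Y.h v, hh v v0⟩,
        hmul _ _ _ _ (by
          have h1 := hY.h_ne v
          have h2 := hY.h_ne v0
          field_simp),
        hmul _ _ _ _ (by
          have h1 := hY.h_ne v
          have h2 := hY.h_ne v0
          field_simp)⟩
      A := fun v =>
        { carrier := {a | ∃ x : Y.QL, (x : L) ∈ Y.A v ∧ π x = a}
          mul_mem' := by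
            rintro a b ⟨x, hx, rfl⟩ ⟨y, hy, rfl⟩
            exact ⟨x * y, (Y.A v).mul_mem hx hy, map_mul π x y⟩
          add_mem' := by
            rintro a b ⟨x, hx, rfl⟩ ⟨y, hy, rfl⟩
            exact ⟨x + y, (Y.A v).add_mem hx hy, map_add π x y⟩
          algebraMap_mem' := by
            intro r
            obtain ⟨a, rfl⟩ := hφ r
            refine ⟨algebraMap Λ Y.QL a, (Y.A v).algebraMap_mem a, ?_⟩
            exact (hα a).symm }
      t := fun v i => ⟨π ⟨Y.t v i, ht v i⟩, π ⟨(Y.t v i)⁻¹, hti v i⟩,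
        hmul _ _ _ _ (mul_inv_cancel₀ (hY.t_ne v i)),
        hmul _ _ _ _ (inv_mul_cancel₀ (hY.t_ne v i))⟩
      c := Y.c
      c' := Y.c' }
  refine ⟨Y.QL ⧸ I, inferInstance, α.toAlgebra, π, D, ?_⟩
  refine ⟨Ideal.Quotient.mk_surjective, ?_, ?_, ?_, ?_, ?_, rfl, rfl⟩
  · intro x
    rw [← RQ_.mem_map_iff]
    exact Ideal.Quotient.eq_zero_iff_mem
  · intro a
    exact (hα a).symm
  · intro v w x hx
    change π x = π ⟨Y.h w / Y.h v0, hh v0 w⟩ * π ⟨Y.h v0 / Y.h v, hh v v0⟩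
    rw [← map_mul]
    congr 1
    refine Subtype.ext ?_
    change (x : L) = Y.h w / Y.h v0 * (Y.h v0 / Y.h v)
    rw [hx]
    have h1 := hY.h_ne v
    have h2 := hY.h_ne v0
    field_simp
  · intro v i x hx
    change π x = π ⟨Y.t v i, ht v i⟩
    congr 1
    exact Subtype.ext hx
  · intro v a
    rfl

end

end Pool.Agent.DBX.SPR
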