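import Pool.Agent.DBX.SPR.Stmts

set_option autoImplicit false

/-! # DBX/SPR/SFL: generic flatness of the cohomology of the saturated system -/

namespace Pool.Agent.DBX.SPR

namespace SFL_

universe u v

variable {Λ : Type u} {X : Type v} [CommRing Λ] [AddCommGroup X] [Module Λ X] {m : ℕ}

theorem mem_Cc {O : Finset (Fin m) → Submodule Λ X} {x : Finset (Fin m) → X} :
    x ∈ Cc O ↔ x ∅ = 0 ∧ ∀ σ, σ.Nonempty → x σ ∈ O σ := Iff.rfl

theorem mem_sat {f : Λ} {C : Submodule Λ X} {x : X} : x ∈ sat f C ↔ ∃ e : ℕ, f ^ e • x ∈ C :=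
  Iff.rfl

theorem mem_Zc {O : Finset (Fin m) → Submodule Λ X} {x : Finset (Fin m) → X} :
    x ∈ Zc O ↔ x ∈ Cc O ∧ cdL Λ X m x = 0 := by
  unfold Zc
  rw [Submodule.mem_inf, LinearMap.mem_ker]

theorem mem_Bc {O : Finset (Fin m) → Submodule Λ X} {x : Finset (Fin m) → X} :
    x ∈ Bc O ↔ ∃ y ∈ Cc O, cdL Λ X m y = x := by
  unfold Bc
  rw [Submodule.mem_map]

theorem pow_inj {f : Λ} (hf : Function.Bijective (fun x : X => f • x)) (e : ℕ) :
    Function.Bijective (fun x : X => f ^ e • x) := by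
  induction e with
  | zero =>
    have h : (fun x : X => f ^ 0 • x) = id := by funext x; simp
    rw [h]; exact Function.bijective_id
  | succ n ih =>
    have := ih.comp hf
    convert this using 2 with x
    simp [pow_succ, mul_smul]

theorem pow_injF {f : Λ} (hf : Function.Bijective (fun x : X => f • x)) (e : ℕ)
    {x y : Finset (Fin m) → X} (h : f ^ e • x = f ^ e • y) : x = y := by
  funext σ
  exact (pow_inj hf e).1 (by simpa using congrFun h σ)

theorem pow_surjF {f : Λ} (hf : Function.Bijective (fun x : X => f • x)) (e : ℕ)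
    (x : Finset (Fin m) → X) : ∃ y, f ^ e • y = x := by
  choose g hg using (pow_inj hf e).2
  exact ⟨fun σ => g (x σ), by funext σ; simpa using hg (x σ)⟩

theorem Cc_sat {f : Λ} (hf : Function.Bijective (fun x : X => f • x))
    (O : Finset (Fin m) → Submodule Λ X) (x : Finset (Fin m) → X) :
    x ∈ Cc (fun σ => sat f (O σ)) ↔ ∃ e : ℕ, f ^ e • x ∈ Cc O := by
  constructor
  · rintro ⟨h0, h1⟩
    have h2 : ∀ σ : Finset (Fin m), ∃ e : ℕ, σ.Nonempty → f ^ e • x σ ∈ O σ := by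
      intro σ
      by_cases hσ : σ.Nonempty
      · obtain ⟨e, he⟩ := h1 σ hσ
        exact ⟨e, fun _ => he⟩
      · exact ⟨0, fun h => absurd h hσ⟩
    choose e he using h2
    refine ⟨∑ σ, e σ, ?_, ?_⟩
    · simp [h0]
    · intro σ hσ
      have h3 : ∑ τ, e τ = (∑ τ ∈ Finset.univ.erase σ, e τ) + e σ := by
        rw [Finset.sum_erase_add _ _ (Finset.mem_univ σ)]
      rw [Pi.smul_apply, h3, pow_add, mul_smul]
      exact (O σ).smul_mem _ (he σ hσ)
  · rintro ⟨e, h0, h1⟩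
    refine ⟨?_, fun σ hσ => ⟨e, by simpa using h1 σ hσ⟩⟩
    exact (pow_inj hf e).1 (by simpa using h0)

theorem Zc_sat {f : Λ} (hf : Function.Bijective (fun x : X => f • x))
    (O : Finset (Fin m) → Submodule Λ X) (x : Finset (Fin m) → X) :
    x ∈ Zc (fun σ => sat f (O σ)) ↔ ∃ e : ℕ, f ^ e • x ∈ Zc O := by
  constructor
  · intro h
    rw [mem_Zc] at h
    obtain ⟨e, he⟩ := (Cc_sat hf O x).1 h.1
    refine ⟨e, ?_⟩
    rw [mem_Zc]
    exact ⟨he, by rw [map_smul, h.2, smul_zero]⟩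
  · rintro ⟨e, he⟩
    rw [mem_Zc] at he ⊢
    refine ⟨(Cc_sat hf O x).2 ⟨e, he.1⟩, ?_⟩
    apply pow_injF hf e
    rw [← map_smul, he.2, smul_zero]

theorem Bc_sat {f : Λ} (hf : Function.Bijective (fun x : X => f • x))
    (O : Finset (Fin m) → Submodule Λ X) (x : Finset (Fin m) → X) :
    x ∈ Bc (fun σ => sat f (O σ)) ↔ ∃ e : ℕ, f ^ e • x ∈ Bc O := by
  constructor
  · intro h
    rw [mem_Bc] at h
    obtain ⟨y, hy, rfl⟩ := h
    obtain ⟨e, he⟩ := (Cc_sat hf O y).1 hy
    refine ⟨e, ?_⟩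
    rw [mem_Bc]
    exact ⟨_, he, by rw [map_smul]⟩
  · rintro ⟨e, he⟩
    rw [mem_Bc] at he ⊢
    obtain ⟨y, hy, h⟩ := he
    obtain ⟨y', rfl⟩ := pow_surjF hf e y
    refine ⟨y', (Cc_sat hf O y').2 ⟨e, hy⟩, ?_⟩
    apply pow_injF hf e
    rw [← map_smul, h]

/-- the inclusion of the cocycles -/
def incZ (f : Λ) (O : Finset (Fin m) → Submodule Λ X) (h : Zc O ≤ Zc (fun σ => sat f (O σ))) :
    Zc O →ₗ[Λ] Zc (fun σ => sat f (O σ)) := Submodule.inclusion h

theorem le_satZ (f : Λ) (hf : Function.Bijective (fun x : X => f • x))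
    (O : Finset (Fin m) → Submodule Λ X) : Zc O ≤ Zc (fun σ => sat f (O σ)) := by
  intro x hx
  exact (Zc_sat hf O x).2 ⟨0, by simpa using hx⟩

theorem le_satB (f : Λ) (hf : Function.Bijective (fun x : X => f • x))
    (O : Finset (Fin m) → Submodule Λ X) : Bc O ≤ Bc (fun σ => sat f (O σ)) := by
  intro x hx
  exact (Bc_sat hf O x).2 ⟨0, by simpa using hx⟩

/-- the induced map on cohomology -/
noncomputable def incH (f : Λ) (hf : Function.Bijective (fun x : X => f • x))
    (O : Finset (Fin m) → Submodule Λ X) : Hc O →ₗ[Λ] Hc (fun σ => sat f (O σ)) :=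
  Submodule.mapQ _ _ (incZ f O (le_satZ f hf O)) (by
    intro x hx
    rw [Submodule.mem_comap] at hx ⊢
    exact le_satB f hf O hx)

theorem isLoc (f : Λ) (hf : Function.Bijective (fun x : X => f • x))
    (O : Finset (Fin m) → Submodule Λ X) :
    IsLocalizedModule (Submonoid.powers f) (incH f hf O) := by
  constructor
  · rintro ⟨_, n, rfl⟩
    rw [Module.End.isUnit_iff]
    constructor
    · rw [injective_iff_map_eq_zero]
      intro x hx
      obtain ⟨⟨z, hz⟩, rfl⟩ := Submodule.Quotient.mk_surjective _ x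
      have h1 : (Submodule.Quotient.mk (f ^ n • (⟨z, hz⟩ : Zc (fun σ => sat f (O σ)))) :
          Hc (fun σ => sat f (O σ))) = 0 := hx
      rw [Submodule.Quotient.mk_eq_zero, Submodule.mem_comap] at h1
      rw [Submodule.Quotient.mk_eq_zero, Submodule.mem_comap]
      have h2 : f ^ n • z ∈ Bc (fun σ => sat f (O σ)) := h1
      show z ∈ Bc (fun σ => sat f (O σ))
      obtain ⟨e, he⟩ := (Bc_sat hf O _).1 h2
      exact (Bc_sat hf O _).2 ⟨e + n, by rw [pow_add, mul_smul]; exact he⟩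
    · intro x
      obtain ⟨⟨z, hz⟩, rfl⟩ := Submodule.Quotient.mk_surjective _ x
      obtain ⟨z', rfl⟩ := pow_surjF hf n z
      have hz' : z' ∈ Zc (fun σ => sat f (O σ)) := by
        obtain ⟨e, he⟩ := (Zc_sat hf O _).1 hz
        exact (Zc_sat hf O _).2 ⟨e + n, by rw [pow_add, mul_smul]; exact he⟩
      exact ⟨Submodule.Quotient.mk ⟨z', hz'⟩, rfl⟩
  · intro y
    obtain ⟨⟨z, hz⟩, rfl⟩ := Submodule.Quotient.mk_surjective _ y
    obtain ⟨e, he⟩ := (Zc_sat hf O _).1 hz
    exact ⟨(Submodule.Quotient.mk ⟨f ^ e • z, he⟩, ⟨f ^ e, e, rfl⟩), rfl⟩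
  · intro x1 x2 h
    obtain ⟨⟨z1, hz1⟩, rfl⟩ := Submodule.Quotient.mk_surjective _ x1
    obtain ⟨⟨z2, hz2⟩, rfl⟩ := Submodule.Quotient.mk_surjective _ x2
    have h1 : (Submodule.Quotient.mk (⟨z1, le_satZ f hf O hz1⟩ : Zc (fun σ => sat f (O σ))) :
        Hc (fun σ => sat f (O σ))) =
        Submodule.Quotient.mk (⟨z2, le_satZ f hf O hz2⟩ : Zc (fun σ => sat f (O σ))) := h
    rw [Submodule.Quotient.eq, Submodule.mem_comap] at h1
    have h2 : z1 - z2 ∈ Bc (fun σ => sat f (O σ)) := h1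
    obtain ⟨e, he⟩ := (Bc_sat hf O _).1 h2
    refine ⟨⟨f ^ e, e, rfl⟩, ?_⟩
    show (Submodule.Quotient.mk (f ^ e • (⟨z1, hz1⟩ : Zc O)) : Hc O) =
      Submodule.Quotient.mk (f ^ e • (⟨z2, hz2⟩ : Zc O))
    rw [Submodule.Quotient.eq, Submodule.mem_comap]
    show f ^ e • z1 - f ^ e • z2 ∈ Bc O
    rw [← smul_sub]
    exact he

end SFL_

open SFL_ in
theorem sfl_proof.{u, v} (hGFL : Stmt_GFL.{u, v}) : Stmt_SFL.{u, v} := by
  intro Λ X _ _ _ _ _ m O hbij hmono hfin
  obtain ⟨G, hG, hspan⟩ := hfin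
  have hfinite : Module.Finite Λ (Hc O) := by
    classical
    refine ⟨⟨G.attach.image (fun x => (Submodule.Quotient.mk (⟨x.1, hG x.1 x.2⟩ : Zc O) : Hc O)),
      ?_⟩⟩
    rw [eq_top_iff]
    intro x _
    obtain ⟨⟨z, hz⟩, rfl⟩ := Submodule.Quotient.mk_surjective _ x
    obtain ⟨a, ha, b, hb, hab⟩ := Submodule.mem_sup.1 (hspan hz)
    have haZ : a ∈ Zc O := by
      have : Submodule.span Λ (G : Set (Finset (Fin m) → X)) ≤ Zc O := Submodule.span_le.2 hG
      exact this ha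
    have hbZ : b ∈ Zc O := by
      have : b = z - a := by rw [← hab]; abel
      rw [this]; exact (Zc O).sub_mem hz haZ
    have h1 : (Submodule.Quotient.mk (⟨z, hz⟩ : Zc O) : Hc O) =
        Submodule.Quotient.mk (⟨a, haZ⟩ : Zc O) := by
      rw [Submodule.Quotient.eq, Submodule.mem_comap]
      show z - a ∈ Bc O
      have : z - a = b := by rw [← hab]; abel
      rw [this]; exact hb
    rw [h1]
    clear h1 hab
    induction ha using Submodule.span_induction with
    | mem x hx =>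
      apply Submodule.subset_span
      simp only [Finset.coe_image, Set.mem_image, Finset.mem_coe, Finset.mem_attach, true_and,
        Subtype.exists]
      exact ⟨x, hx, rfl⟩
    | zero => exact Submodule.zero_mem _
    | add x y hx hy ihx ihy =>
      have hx' : x ∈ Zc O := (Submodule.span_le.2 hG) hx
      have hy' : y ∈ Zc O := (Submodule.span_le.2 hG) hy
      have := Submodule.add_mem _ (ihx hx') (ihy hy')
      exact this
    | smul a x hx ih =>
      have hx' : x ∈ Zc O := (Submodule.span_le.2 hG) hx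
      have := Submodule.smul_mem _ a (ih hx')
      exact this
  obtain ⟨f, hf0, hf⟩ := hGFL Λ (Hc O)
  refine ⟨f, hf0, fun f' hdvd hf' => ?_⟩
  have hfl := hf f' hdvd hf'
  have hloc := isLoc f' (hbij f' hf') O
  exact Module.Flat.of_linearEquiv
    (IsLocalizedModule.iso (Submonoid.powers f') (incH f' (hbij f' hf') O)).symm

end Pool.Agent.DBX.SPR
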