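import Pool.Agent.DBX.SPR.Stmts

set_option autoImplicit false

/-! # MP_2c751f_ag, squad DBX, area SPR: SPA -/

namespace Pool.Agent.DBX.SPR

universe u

theorem spa_proof : Stmt_SPA.{u} := by
  intro K L _ _ _ S x hx
  classical
  induction hx using Algebra.adjoin_induction with
  | mem x hx => exact ⟨∅, fun Λ _ => Algebra.subset_adjoin hx⟩
  | algebraMap r =>
    refine ⟨{r}, fun Λ hΛ => ?_⟩
    have hr : r ∈ Λ := hΛ (by simp)
    have : algebraMap K L r = algebraMap Λ L ⟨r, hr⟩ := rfl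
    rw [this]
    exact Subalgebra.algebraMap_mem _ _
  | add x y _ _ hx hy =>
    obtain ⟨F, hF⟩ := hx
    obtain ⟨G, hG⟩ := hy
    refine ⟨F ∪ G, fun Λ hΛ => ?_⟩
    rw [Finset.coe_union, Set.union_subset_iff] at hΛ
    exact Subalgebra.add_mem _ (hF Λ hΛ.1) (hG Λ hΛ.2)
  | mul x y _ _ hx hy =>
    obtain ⟨F, hF⟩ := hx
    obtain ⟨G, hG⟩ := hy
    refine ⟨F ∪ G, fun Λ hΛ => ?_⟩
    rw [Finset.coe_union, Set.union_subset_iff] at hΛ
    exact Subalgebra.mul_mem _ (hF Λ hΛ.1) (hG Λ hΛ.2)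

end Pool.Agent.DBX.SPR
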