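import Pool.Agent.DBX.SPR.Stmts

set_option autoImplicit false

namespace Pool.Agent.DBX.SPR

open MvPolynomial

noncomputable section

universe u

namespace SPF_

/-- finitely many conditions, each satisfied for large `Λ` -/
theorem all_fin {K : Type u} [Field K] {ι : Type*} (s : Finset ι)
    (P : ι → Subalgebra ℤ K → Prop)
    (h : ∀ i ∈ s, ∃ F : Finset K, ∀ Λ : Subalgebra ℤ K, (F : Set K) ⊆ Λ → P i Λ) :
    ∃ F : Finset K, ∀ Λ : Subalgebra ℤ K, (F : Set K) ⊆ Λ → ∀ i ∈ s, P i Λ := by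
  classical
  induction s using Finset.induction_on with
  | empty => exact ⟨∅, fun Λ _ i hi => absurd hi (Finset.notMem_empty i)⟩
  | insert a s ha ih =>
    obtain ⟨F1, h1⟩ := h a (Finset.mem_insert_self a s)
    obtain ⟨F2, h2⟩ := ih (fun i hi => h i (Finset.mem_insert_of_mem hi))
    refine ⟨F1 ∪ F2, fun Λ hΛ i hi => ?_⟩
    rw [Finset.coe_union, Set.union_subset_iff] at hΛ
    rcases Finset.mem_insert.mp hi with rfl | hi
    · exact h1 Λ hΛ.1
    · exact h2 Λ hΛ.2 i hi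

variable {K L : Type u} [Field K] [Field L] [Algebra K L] {m N : ℕ}

theorem span_def (hSPA : Stmt_SPA.{u}) (Y : PMod K L m N) (S : Fin m → Finset L) (v : Fin m)
    (G : Finset L) (x : L) (hx : x ∈ Submodule.span (Y.P v) (G : Set L)) :
    ∃ F : Finset K, ∀ Λ : Subalgebra ℤ K, (F : Set K) ⊆ Λ →
      x ∈ Submodule.span ((mdl Y S Λ).P v) (G : Set L) := by
  classical
  induction hx using Submodule.span_induction with
  | mem x hx => exact ⟨∅, fun Λ _ => Submodule.subset_span hx⟩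
  | zero => exact ⟨∅, fun Λ _ => Submodule.zero_mem _⟩
  | add x y _ _ hx hy =>
    obtain ⟨F1, h1⟩ := hx
    obtain ⟨F2, h2⟩ := hy
    refine ⟨F1 ∪ F2, fun Λ hΛ => ?_⟩
    rw [Finset.coe_union, Set.union_subset_iff] at hΛ
    exact Submodule.add_mem _ (h1 Λ hΛ.1) (h2 Λ hΛ.2)
  | smul a x _ hx =>
    obtain ⟨F1, h1⟩ := hx
    obtain ⟨F2, h2⟩ := hSPA K L _ (a : L) a.2
    refine ⟨F1 ∪ F2, fun Λ hΛ => ?_⟩
    rw [Finset.coe_union, Set.union_subset_iff] at hΛ
    exact Submodule.smul_mem _ (⟨(a : L), h2 Λ hΛ.2⟩ : (mdl Y S Λ).P v) (h1 Λ hΛ.1)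

theorem one (hSPA : Stmt_SPA.{u}) (Y : PMod K L m N) (S : Fin m → Finset L)
    (hY : Y.Good) (hS : ∀ v, Algebra.adjoin K (S v : Set L) = Y.A v) (v : Fin m) :
    ∃ F : Finset K, ∀ Λ : Subalgebra ℤ K, (F : Set K) ⊆ Λ →
      ∃ G : Finset L, (G : Set L) ⊆ (mdl Y S Λ).A v ∧
        ∀ x ∈ (mdl Y S Λ).A v, x ∈ Submodule.span ((mdl Y S Λ).P v) (G : Set L) := by
  classical
  obtain ⟨G, hG1, hG2⟩ := hY.fin v
  obtain ⟨F1, h1⟩ := all_fin (K := K) G (fun g Λ => g ∈ Algebra.adjoin Λ (S v : Set L))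
    (fun g hg => hSPA K L _ g (by rw [hS v]; exact hG1 hg))
  obtain ⟨F2, h2⟩ := span_def hSPA Y S v G 1 (hG2 1 (Y.A v).one_mem)
  obtain ⟨F3, h3⟩ := all_fin (K := K) (S v ×ˢ G)
    (fun sg Λ => sg.1 * sg.2 ∈ Submodule.span ((mdl Y S Λ).P v) (G : Set L))
    (fun sg hsg => span_def hSPA Y S v G _ (hG2 _ ((Y.A v).mul_mem
      (by rw [← hS v]; exact Algebra.subset_adjoin (Finset.mem_product.mp hsg).1)
      (hG1 (Finset.mem_product.mp hsg).2))))
  refine ⟨F1 ∪ (F2 ∪ F3), fun Λ hΛ => ⟨G, ?_, ?_⟩⟩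
  · rw [Finset.coe_union, Set.union_subset_iff] at hΛ
    exact fun g hg => h1 Λ hΛ.1 g hg
  · rw [Finset.coe_union, Set.union_subset_iff, Finset.coe_union, Set.union_subset_iff] at hΛ
    obtain ⟨_, hΛ2, hΛ3⟩ := hΛ
    have key : ∀ x ∈ Algebra.adjoin Λ (S v : Set L),
        ∀ y ∈ Submodule.span ((mdl Y S Λ).P v) (G : Set L),
          x * y ∈ Submodule.span ((mdl Y S Λ).P v) (G : Set L) := by
      intro x hx
      induction hx using Algebra.adjoin_induction with
      | mem s hs =>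
        intro y hy
        induction hy using Submodule.span_induction with
        | mem g hg => exact h3 Λ hΛ3 (s, g) (Finset.mem_product.mpr ⟨hs, hg⟩)
        | zero => rw [mul_zero]; exact Submodule.zero_mem _
        | add y z _ _ hy hz => rw [mul_add]; exact Submodule.add_mem _ hy hz
        | smul a y _ hy =>
          have e : s * (a • y) = a • (s * y) := by
            simp only [Subalgebra.smul_def, smul_eq_mul]; ring
          rw [e]
          exact Submodule.smul_mem _ a hy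
      | algebraMap r =>
        intro y hy
        have e : algebraMap Λ L r * y =
            (algebraMap Λ ((mdl Y S Λ).P v) r) • y := by
          rw [Subalgebra.smul_def, smul_eq_mul]
          rfl
        rw [e]
        exact Submodule.smul_mem _ _ hy
      | add x x' _ _ hx hx' =>
        intro y hy
        rw [add_mul]
        exact Submodule.add_mem _ (hx y hy) (hx' y hy)
      | mul x x' _ _ hx hx' =>
        intro y hy
        rw [mul_assoc]
        exact hx _ (hx' y hy)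
    intro x hx
    have := key x hx 1 (h2 Λ hΛ2)
    rwa [mul_one] at this

end SPF_

theorem spf_proof (hSPA : Stmt_SPA.{u}) : Stmt_SPF.{u} := by
  intro K L _ _ _ m N Y S hY hS
  obtain ⟨F, hF⟩ := SPF_.all_fin (K := K) (Finset.univ : Finset (Fin m))
    (fun v Λ => ∃ G : Finset L, (G : Set L) ⊆ (mdl Y S Λ).A v ∧
        ∀ x ∈ (mdl Y S Λ).A v, x ∈ Submodule.span ((mdl Y S Λ).P v) (G : Set L))
    (fun v _ => SPF_.one hSPA Y S hY hS v)
  exact ⟨F, fun Λ hΛ v => hF Λ hΛ v (Finset.mem_univ v)⟩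

end

end Pool.Agent.DBX.SPR
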