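import Pool.Agent.DBX.SPR.Stmts

set_option autoImplicit false

/-! # MP_2c751f_ag, squad DBX, area SPR, module SPH -/

namespace Pool.Agent.DBX.SPR

open MvPolynomial

noncomputable section

universe u

namespace SPH_

variable {K L : Type u} [Field K] [Field L] [Algebra K L]

/-- a property of large subrings -/
def Ev (P : Subalgebra ℤ K → Prop) : Prop :=
  ∃ F : Finset K, ∀ Λ : Subalgebra ℤ K, (F : Set K) ⊆ Λ → P Λ

theorem ev_and {P Q : Subalgebra ℤ K → Prop} (hP : Ev P) (hQ : Ev Q) :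
    Ev (fun Λ => P Λ ∧ Q Λ) := by
  classical
  obtain ⟨F, hF⟩ := hP
  obtain ⟨G, hG⟩ := hQ
  refine ⟨F ∪ G, fun Λ hΛ => ⟨hF Λ ?_, hG Λ ?_⟩⟩
  · intro x hx
    exact hΛ (by rw [Finset.coe_union]; exact Or.inl hx)
  · intro x hx
    exact hΛ (by rw [Finset.coe_union]; exact Or.inr hx)

theorem ev_all {ι : Type*} [Finite ι] {P : ι → Subalgebra ℤ K → Prop} (h : ∀ i, Ev (P i)) :
    Ev (fun Λ => ∀ i, P i Λ) := by
  classical
  haveI := Fintype.ofFinite ι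
  choose F hF using h
  refine ⟨Finset.univ.biUnion F, fun Λ hΛ i => hF i Λ ?_⟩
  intro x hx
  apply hΛ
  rw [Finset.mem_coe, Finset.mem_biUnion]
  exact ⟨i, Finset.mem_univ i, hx⟩

theorem ev_mono {P Q : Subalgebra ℤ K → Prop} (hP : Ev P) (h : ∀ Λ, P Λ → Q Λ) : Ev Q := by
  obtain ⟨F, hF⟩ := hP
  exact ⟨F, fun Λ hΛ => h Λ (hF Λ hΛ)⟩

theorem ev_triv (P : Prop) (hP : P) : Ev (K := K) (fun _ => P) := ⟨∅, fun _ _ => hP⟩

theorem ev_imp {A : Prop} {P : Subalgebra ℤ K → Prop} (h : A → Ev P) : Ev (fun Λ => A → P Λ) := by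
  by_cases hA : A
  · exact ev_mono (h hA) (fun Λ hΛ _ => hΛ)
  · exact ⟨∅, fun _ _ h' => absurd h' hA⟩

variable {m N : ℕ} (Y : PMod K L m N) (S : Fin m → Finset L)

theorem ev_A (hSPA : Stmt_SPA.{u}) (hS : ∀ v, Algebra.adjoin K (S v : Set L) = Y.A v) (v : Fin m)
    (x : L) (hx : x ∈ Y.A v) : Ev (fun Λ => x ∈ (mdl Y S Λ).A v) := by
  rw [← hS v] at hx
  exact hSPA K L (S v : Set L) x hx

theorem ev_As (hSPA : Stmt_SPA.{u}) (hS : ∀ v, Algebra.adjoin K (S v : Set L) = Y.A v)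
    (σ : Finset (Fin m)) (x : L) (hx : x ∈ Y.As σ) : Ev (fun Λ => x ∈ (mdl Y S Λ).As σ) := by
  have h1 : x ∈ Algebra.adjoin K (⋃ v ∈ σ, (S v : Set L)) := by
    have h2 : Y.As σ ≤ Algebra.adjoin K (⋃ v ∈ σ, (S v : Set L)) := by
      unfold PMod.As
      refine iSup₂_le fun v hv => ?_
      rw [← hS v]
      exact Algebra.adjoin_mono (Set.subset_biUnion_of_mem (u := fun v => (S v : Set L)) hv)
    exact h2 hx
  refine ev_mono (hSPA K L _ x h1) ?_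
  intro Λ hΛ
  have h3 : Algebra.adjoin Λ (⋃ v ∈ σ, (S v : Set L)) ≤ (mdl Y S Λ).As σ := by
    refine Algebra.adjoin_le ?_
    intro y hy
    rw [Set.mem_iUnion₂] at hy
    obtain ⟨v, hv, hy⟩ := hy
    have h4 : (mdl Y S Λ).A v ≤ (mdl Y S Λ).As σ := by
      unfold LMod.As
      exact le_iSup₂_of_le v hv le_rfl
    exact h4 (Algebra.subset_adjoin hy)
  exact h3 hΛ

theorem ev_glue (hSPA : Stmt_SPA.{u}) (hS : ∀ v, Algebra.adjoin K (S v : Set L) = Y.A v)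
    (v : Fin m) (y x : L) (hx : x ∈ Algebra.adjoin K ((Y.A v : Set L) ∪ {y})) :
    Ev (fun Λ => x ∈ Algebra.adjoin Λ (((mdl Y S Λ).A v : Set L) ∪ {y})) := by
  have h1 : x ∈ Algebra.adjoin K ((S v : Set L) ∪ {y}) := by
    have h2 : Algebra.adjoin K ((Y.A v : Set L) ∪ {y}) ≤
        Algebra.adjoin K ((S v : Set L) ∪ {y}) := by
      refine Algebra.adjoin_le ?_
      rintro z (hz | hz)
      · rw [← hS v] at hz
        exact Algebra.adjoin_mono Set.subset_union_left hz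
      · exact Algebra.subset_adjoin (Or.inr hz)
    exact h2 hx
  refine ev_mono (hSPA K L _ x h1) ?_
  intro Λ hΛ
  refine Algebra.adjoin_mono ?_ hΛ
  rintro z (hz | hz)
  · exact Or.inl (Algebra.subset_adjoin hz)
  · exact Or.inr hz

end SPH_

theorem sph_proof (hSPA : Stmt_SPA.{u}) : Stmt_SPH.{u} := by
  intro K L _ _ _ m N Y S hY hS z hz
  refine SPH_.ev_and (SPH_.ev_all fun v => SPH_.ev_all fun w => ?_)
    (SPH_.ev_and (SPH_.ev_all fun v => SPH_.ev_all fun w => ?_)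
    (SPH_.ev_and (SPH_.ev_all fun v => SPH_.ev_all fun i => SPH_.ev_imp fun hc => ?_)
    (SPH_.ev_and (SPH_.ev_all fun v => SPH_.ev_all fun w => ?_)
    (SPH_.ev_and (SPH_.ev_all fun v => SPH_.ev_all fun w => ?_) ?_))))
  · exact SPH_.ev_A Y S hSPA hS v _ (hY.h_mem v w)
  · have h1 : SPH_.Ev (K := K) (fun Λ => ∀ s : S w, (s : L) ∈
        Algebra.adjoin Λ (((mdl Y S Λ).A v : Set L) ∪ {Y.h v / Y.h w})) := by
      refine SPH_.ev_all fun s => SPH_.ev_glue Y S hSPA hS v _ _ (hY.glue v w ?_)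
      rw [← hS w]
      exact Algebra.subset_adjoin s.2
    refine SPH_.ev_mono h1 ?_
    intro Λ hΛ
    exact Algebra.adjoin_le fun s hs => hΛ ⟨s, hs⟩
  · exact SPH_.ev_A Y S hSPA hS v _ (hY.t_inv v i hc)
  · exact SPH_.ev_As Y S hSPA hS _ _ (hY.c_glue v w)
  · exact SPH_.ev_As Y S hSPA hS _ _ (hY.c'_glue v w)
  · have h1 : SPH_.Ev (K := K) (fun Λ => ∀ σ : Finset (Fin m), σ.Nonempty → ∀ v : Fin m, v ∈ σ →
        z σ / ∏ i, Y.t v i ^ Y.c v i ∈ (mdl Y S Λ).As σ) := by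
      refine SPH_.ev_all fun σ => SPH_.ev_imp fun hσ => SPH_.ev_all fun v =>
        SPH_.ev_imp fun hv => ?_
      exact SPH_.ev_As Y S hSPA hS _ _ (hz.2 σ hσ v hv)
    refine SPH_.ev_mono h1 ?_
    intro Λ hΛ
    exact ⟨hz.1, fun σ hσ v hv => hΛ σ hσ v hv⟩

end

end Pool.Agent.DBX.SPR
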