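import Pool.Agent.DBX.SPR.Stmts

set_option autoImplicit false

/-! # MP_2c751f_ag, squad DBX, area SPR: module SPN -/

namespace Pool.Agent.DBX.SPR

open MvPolynomial

universe u

namespace SPN_

theorem one {K L : Type u} [Field K] [Field L] [Algebra K L] (hSPA : Stmt_SPA.{u}) {N : ℕ}
    (S : Set L) (t : Fin N → L) (s : L) (q0 : MvPolynomial (Fin N) K) (hq : q0 ≠ 0)
    (y : L) (hy : y ∈ Algebra.adjoin K S) (he : MvPolynomial.aeval t q0 = s * y) :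
    ∃ F : Finset K, ∀ Λ : Subalgebra ℤ K, (F : Set K) ⊆ Λ →
      ∃ (q : MvPolynomial (Fin N) Λ) (d : Fin N →₀ ℕ) (y : L), IsUnit (q.coeff d) ∧
        y ∈ Algebra.adjoin Λ S ∧ MvPolynomial.aeval t q = s * y := by
  classical
  obtain ⟨F1, hF1⟩ := hSPA K L S y hy
  obtain ⟨d, hd⟩ := MvPolynomial.ne_zero_iff.mp hq
  refine ⟨F1 ∪ q0.coeffs ∪ {(q0.coeff d)⁻¹}, fun Λ hΛ => ?_⟩
  have h1 : (F1 : Set K) ⊆ Λ := fun a ha => hΛ (by
    simp only [Finset.coe_union, Set.mem_union]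
    exact Or.inl (Or.inl ha))
  have h2 : (q0.coeffs : Set K) ⊆ Λ := fun a ha => hΛ (by
    simp only [Finset.coe_union, Set.mem_union]
    exact Or.inl (Or.inr ha))
  have h3 : (q0.coeff d)⁻¹ ∈ Λ := hΛ (by simp)
  have h4 : q0 ∈ Set.range (MvPolynomial.map (σ := Fin N) (algebraMap Λ K)) := by
    rw [MvPolynomial.mem_range_map_iff_coeffs_subset]
    intro a ha
    exact ⟨⟨a, h2 ha⟩, rfl⟩
  obtain ⟨q, rfl⟩ := h4
  refine ⟨q, d, y, ?_, hF1 Λ h1, ?_⟩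
  · rw [MvPolynomial.coeff_map] at h3 hd
    refine IsUnit.of_mul_eq_one ⟨_, h3⟩ ?_
    apply Subtype.ext
    change (algebraMap Λ K) (q.coeff d) * ((algebraMap Λ K) (q.coeff d))⁻¹ = 1
    exact mul_inv_cancel₀ hd
  · rw [← he, MvPolynomial.aeval_map_algebraMap]

end SPN_

theorem spn_proof (hEAL : Stmt_EAL.{u}) (hSPA : Stmt_SPA.{u}) : Stmt_SPN.{u} := by
  classical
  intro K L _ _ _ m N Y S hY hS
  have h1 : ∀ v w : Fin m, ∃ F : Finset K, ∀ Λ : Subalgebra ℤ K, (F : Set K) ⊆ Λ →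
      ∃ (q : MvPolynomial (Fin N) Λ) (d : Fin N →₀ ℕ) (y : L), IsUnit (q.coeff d) ∧
        y ∈ Algebra.adjoin Λ (S v : Set L) ∧
          MvPolynomial.aeval (Y.t v) q = Y.h w / Y.h v * y := by
    intro v w
    obtain ⟨q, hq, y, hy, he⟩ := hEAL K L N (Y.A v) (fun i => ⟨Y.t v i, hY.t_mem v i⟩)
      (hY.etale v) (Y.h w / Y.h v) (hY.h_mem v w) (div_ne_zero (hY.h_ne w) (hY.h_ne v))
    refine SPN_.one hSPA (S v : Set L) (Y.t v) (Y.h w / Y.h v) q hq y ?_ he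
    rw [hS v]; exact hy
  choose F hF using h1
  refine ⟨Finset.univ.biUnion (fun v => Finset.univ.biUnion (fun w => F v w)), ?_⟩
  intro Λ hΛ v w
  refine hF v w Λ ?_
  intro a ha
  apply hΛ
  rw [Finset.mem_coe, Finset.mem_biUnion]
  refine ⟨v, Finset.mem_univ v, ?_⟩
  rw [Finset.mem_biUnion]
  exact ⟨w, Finset.mem_univ w, ha⟩

end Pool.Agent.DBX.SPR
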