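import Pool.Agent.DBX.SPR.SCH
import Pool.Agent.DBX.SPR.HEN
import Pool.Agent.DBX.SPR.NFH
import Pool.Agent.DBX.SPR.NTF
import Pool.Agent.DBX.SPR.FLJ
import Pool.Agent.DBX.SPR.FLK
import Pool.Agent.DBX.SPR.FLN
import Pool.Agent.DBX.SPR.FLC
import Pool.Agent.DBX.SPR.GFL
import Pool.Agent.DBX.SPR.SFL
import Pool.Agent.DBX.SPR.FNC
import Pool.Agent.DBX.SPR.ET1
import Pool.Agent.DBX.SPR.ET2
import Pool.Agent.DBX.SPR.EAL
import Pool.Agent.DBX.SPR.EFL
import Pool.Agent.DBX.SPR.LAS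
import Pool.Agent.DBX.SPR.LOO
import Pool.Agent.DBX.SPR.LCO
import Pool.Agent.DBX.SPR.LQL
import Pool.Agent.DBX.SPR.LFL
import Pool.Agent.DBX.SPR.MCC
import Pool.Agent.DBX.SPR.LSA
import Pool.Agent.DBX.SPR.RQ
import Pool.Agent.DBX.SPR.RET
import Pool.Agent.DBX.SPR.RFL
import Pool.Agent.DBX.SPR.RGO
import Pool.Agent.DBX.SPR.RED
import Pool.Agent.DBX.SPR.SPA
import Pool.Agent.DBX.SPR.SPF
import Pool.Agent.DBX.SPR.SPN
import Pool.Agent.DBX.SPR.SPH
import Pool.Agent.DBX.SPR.SPM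
import Pool.Agent.DBX.SPR.COR
import Pool.Agent.DBX.SPR.INJ

set_option autoImplicit false

/-! # MP_2c751f_ag, squad DBX, area SPR: the injectivity theorem in characteristic zero from
the theorem of Deligne and Illusie modulo `p` and Serre finiteness -/

namespace Pool.Agent.DBX.SPR

universe u

theorem a_INJ (hDI : Stmt_DI.{u}) (hSER1 : Stmt_SER1.{u, u}) : Stmt_INJ.{u} := by
  have hNTF : Stmt_NTF.{u} := ntf_proof (nfh_proof (hen_proof sch_proof))
  have hEFL : Stmt_EFL.{u} := efl_proof fln_proof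
  have hLAS : Stmt_LAS.{u} := las_proof
  have hLOO : Stmt_LOO.{u} := loo_proof hLAS
  have hLQL : Stmt_LQL.{u} := lql_proof hLAS
  have hLFL : Stmt_LFL.{u} := lfl_proof hEFL hLAS hLOO hLQL
  have hMCC : Stmt_MCC.{u} := mcc_proof
  have hLSA : Stmt_LSA.{u} := lsa_proof hEFL hLAS hLOO hLQL
  have hRET : Stmt_RET.{u} := ret_proof et2_proof hLSA hMCC
  have hRFL : Stmt_RFL.{u} := rfl_proof hLFL hLSA hMCC
  have hRGO : Stmt_RGO.{u} := rgo_proof hRET hRFL hLQL hLAS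
  have hRED : Stmt_RED.{u} := red_proof hDI rq_proof hRGO hLOO hLSA hMCC
  have hSPA : Stmt_SPA.{u} := spa_proof
  have hSPM : Stmt_SPM.{u} := spm_proof et1_proof (spf_proof hSPA) (spn_proof eal_proof hSPA)
    (sph_proof hSPA)
  have hCOR : Stmt_COR.{u, u} := cor_proof (sfl_proof gfl_proof) fls_proof
    (flc_proof flk_proof fle_proof flj_proof) fnc_proof
  exact inj_proof hSPM hNTF (lco_proof hSER1 hLAS hLOO) hLFL hLOO hMCC hRED hCOR

end Pool.Agent.DBX.SPR
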