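import Pool.Agent.DBX.SPR.Stmts

set_option autoImplicit false

/-! # MP_2c751f_ag, squad DBX, area SPR, module LAS -/

namespace Pool.Agent.DBX.SPR

open MvPolynomial

noncomputable section

universe u

namespace LAS_

variable {Λ L : Type u} [CommRing Λ] [Field L] [Algebra Λ L]

/-- elements which land in `A` after multiplication by a power of `P ∈ A` -/
def U (A : Subalgebra Λ L) (P : L) (hP : P ∈ A) : Subalgebra Λ L where
  carrier := {x | ∃ e : ℕ, x * P ^ e ∈ A}
  mul_mem' := by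
    rintro a b ⟨e, ha⟩ ⟨e', hb⟩
    refine ⟨e + e', ?_⟩
    have h : a * b * P ^ (e + e') = (a * P ^ e) * (b * P ^ e') := by rw [pow_add]; ring
    rw [h]
    exact A.mul_mem ha hb
  add_mem' := by
    rintro a b ⟨e, ha⟩ ⟨e', hb⟩
    refine ⟨e + e', ?_⟩
    have h : (a + b) * P ^ (e + e') = (a * P ^ e) * P ^ e' + (b * P ^ e') * P ^ e := by
      rw [pow_add]; ring
    rw [h]
    exact A.add_mem (A.mul_mem ha (A.pow_mem hP _)) (A.mul_mem hb (A.pow_mem hP _))
  algebraMap_mem' := by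
    intro r
    refine ⟨0, ?_⟩
    rw [pow_zero, mul_one]
    exact A.algebraMap_mem r

end LAS_

open LAS_ in
theorem las_proof : Stmt_LAS.{u} := by
  intro Λ L _ _ _ m N Y hY
  have hle : ∀ (σ : Finset (Fin m)) (v : Fin m), v ∈ σ → Y.A v ≤ Y.As σ := by
    intro σ v hv
    unfold LMod.As
    exact le_iSup₂_of_le v hv le_rfl
  refine ⟨?_, fun σ v w hv _ => hle σ v hv (hY.h_mem v w)⟩
  intro σ v hv x
  have hPA : (∏ w ∈ σ, Y.h w / Y.h v) ∈ Y.A v :=
    Subalgebra.prod_mem _ (fun w _ => hY.h_mem v w)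
  constructor
  · intro hx
    have h1 : Y.As σ ≤ U (Y.A v) _ hPA := by
      unfold LMod.As
      refine iSup₂_le (fun w hw => ?_)
      refine (hY.glue v w).trans (Algebra.adjoin_le ?_)
      rintro z (hz | hz)
      · refine ⟨0, ?_⟩
        rw [pow_zero, mul_one]
        exact hz
      · rw [Set.mem_singleton_iff] at hz
        subst hz
        refine ⟨1, ?_⟩
        rw [pow_one, ← Finset.mul_prod_erase σ _ hw]
        have h2 : Y.h v / Y.h w * (Y.h w / Y.h v * ∏ u ∈ σ.erase w, Y.h u / Y.h v) =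
            ∏ u ∈ σ.erase w, Y.h u / Y.h v := by
          rw [← mul_assoc, div_mul_div_cancel₀ (hY.h_ne w), div_self (hY.h_ne v), one_mul]
        rw [h2]
        exact Subalgebra.prod_mem _ (fun u _ => hY.h_mem v u)
    exact h1 hx
  · rintro ⟨e, he⟩
    have h3 : (∏ w ∈ σ, Y.h v / Y.h w) ∈ Y.As σ :=
      Subalgebra.prod_mem _ (fun w hw => hle σ w hw (hY.h_mem w v))
    have h4 : (∏ w ∈ σ, Y.h w / Y.h v) * (∏ w ∈ σ, Y.h v / Y.h w) = 1 := by
      rw [← Finset.prod_mul_distrib]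
      refine Finset.prod_eq_one (fun w _ => ?_)
      rw [div_mul_div_cancel₀ (hY.h_ne v), div_self (hY.h_ne w)]
    have h5 : x = x * (∏ w ∈ σ, Y.h w / Y.h v) ^ e * (∏ w ∈ σ, Y.h v / Y.h w) ^ e := by
      rw [mul_assoc, ← mul_pow, h4, one_pow, mul_one]
    rw [h5]
    exact (Y.As σ).mul_mem (hle σ v hv he) ((Y.As σ).pow_mem h3 e)

end

end Pool.Agent.DBX.SPR
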