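import Pool.Agent.DBX.SPR.Stmts

set_option autoImplicit false

namespace Pool.Agent.DBX.SPR

open Polynomial

theorem sch_proof : Stmt_SCH := by
  intro G hG n
  by_cases hc : G.eval 0 = 0
  · obtain ⟨p, hp1, hp2⟩ := Nat.exists_infinite_primes (n+1)
    exact ⟨p, hp2, hp1, 0, by rw [hc]; exact dvd_zero _⟩
  · obtain ⟨c, hcc⟩ : ∃ c, c = G.eval 0 := ⟨_, rfl⟩
    rw [← hcc] at hc
    have hm : c * (n.factorial : ℤ) ≠ 0 := by
      apply mul_ne_zero hc
      exact_mod_cast Nat.factorial_ne_zero n
    have hex : ∃ t : ℤ, (G.eval (c * (n.factorial : ℤ) * t)) ^ 2 ≠ c ^ 2 := by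
      by_contra h
      push Not at h
      have h1 : (G.comp (C (c * (n.factorial : ℤ)) * X)) ^ 2 = C (c ^ 2) := by
        apply Polynomial.funext
        intro t
        simp only [eval_pow, eval_comp, eval_mul, eval_C, eval_X]
        have := h t
        simpa using this
      have h2 := congrArg natDegree h1
      rw [natDegree_pow, natDegree_comp, natDegree_C_mul_X _ hm, natDegree_C] at h2
      omega
    obtain ⟨t, ht⟩ := hex
    have hdiv : (c * (n.factorial : ℤ) * t) ∣ G.eval (c * (n.factorial : ℤ) * t) - c := by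
      have := G.sub_dvd_eval_sub (c * (n.factorial : ℤ) * t) 0
      rw [← hcc, sub_zero] at this
      exact this
    obtain ⟨q, hq⟩ := hdiv
    have hval : G.eval (c * (n.factorial : ℤ) * t) = c * (1 + n.factorial * t * q) := by
      linear_combination hq
    have hk : (1 + (n.factorial : ℤ) * t * q).natAbs ≠ 1 := by
      intro hk
      apply ht
      rw [hval]
      have : (1 + (n.factorial : ℤ) * t * q) ^ 2 = 1 := by
        rcases Int.natAbs_eq (1 + (n.factorial : ℤ) * t * q) with h | h <;> rw [hk] at h <;> rw [h] <;> norm_num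
      rw [mul_pow, this, mul_one]
    obtain ⟨p, hp, hpd⟩ := Nat.exists_prime_and_dvd hk
    have hpd' : (p : ℤ) ∣ (1 + (n.factorial : ℤ) * t * q) := Int.natCast_dvd.mpr hpd
    refine ⟨p, hp, ?_, c * (n.factorial : ℤ) * t, ?_⟩
    · by_contra hle
      push Not at hle
      have h1 : (p : ℤ) ∣ (n.factorial : ℤ) := by
        exact_mod_cast (hp.dvd_factorial).mpr hle
      have h2 : (p : ℤ) ∣ 1 := by
        have h3 : (p : ℤ) ∣ (n.factorial : ℤ) * t * q := by
          rw [mul_assoc]
          exact h1.mul_right _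
        have h4 := dvd_sub hpd' h3
        simpa using h4
      have := Int.natAbs_dvd_natAbs.mpr h2
      simp at this
      exact hp.one_lt.ne' this
    · rw [hval]
      exact hpd'.mul_left _

end Pool.Agent.DBX.SPR
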