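import Pool.Agent.DBX.SPR.Stmts

set_option autoImplicit false

namespace Pool.Agent.DBX.SPR

universe u

theorem spm_proof (hET1 : Stmt_ET1.{u}) (hSPF : Stmt_SPF.{u}) (hSPN : Stmt_SPN.{u})
    (hSPH : Stmt_SPH.{u}) : Stmt_SPM.{u} := by
  intro K L _ _ _ m N Y hY z hz
  classical
  have h1 := fun v => hET1 K L N (Y.A v) (fun i => ⟨Y.t v i, hY.t_mem v i⟩) (hY.etale v)
  choose F S hSA hadj hΛ using h1
  obtain ⟨F2, hF2⟩ := hSPF K L m N Y S hY hadj
  obtain ⟨F3, hF3⟩ := hSPN K L m N Y S hY hadj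
  obtain ⟨F4, hF4⟩ := hSPH K L m N Y S hY hadj z hz
  let FF : Finset K := (Finset.univ.biUnion F) ∪ F2 ∪ F3 ∪ F4
  let Λ : Subalgebra ℤ K := Algebra.adjoin ℤ (FF : Set K)
  have hFF : (FF : Set K) ⊆ Λ := Algebra.subset_adjoin
  have e1 : ∀ v, (F v : Set K) ⊆ Λ := by
    intro v x hx
    apply hFF
    rw [Finset.mem_coe] at hx ⊢
    simp only [FF, Finset.mem_union, Finset.mem_biUnion, Finset.mem_univ, true_and]
    exact Or.inl (Or.inl (Or.inl ⟨v, hx⟩))
  have e2 : (F2 : Set K) ⊆ Λ := by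
    intro x hx
    apply hFF
    rw [Finset.mem_coe] at hx ⊢
    simp only [FF, Finset.mem_union]
    exact Or.inl (Or.inl (Or.inr hx))
  have e3 : (F3 : Set K) ⊆ Λ := by
    intro x hx
    apply hFF
    rw [Finset.mem_coe] at hx ⊢
    simp only [FF, Finset.mem_union]
    exact Or.inl (Or.inr hx)
  have e4 : (F4 : Set K) ⊆ Λ := by
    intro x hx
    apply hFF
    rw [Finset.mem_coe] at hx ⊢
    simp only [FF, Finset.mem_union]
    exact Or.inr hx
  have g2 := hF2 Λ e2
  have g3 := hF3 Λ e3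
  obtain ⟨a1, a2, a3, a4, a5, a6⟩ := hF4 Λ e4
  have ht : ∀ v i, Y.t v i ∈ (mdl Y S Λ).A v := fun v i => (hΛ v Λ (e1 v)).choose i
  have het : ∀ v, (MvPolynomial.aeval (R := Λ) (fun i => (⟨Y.t v i, ht v i⟩ :
      (mdl Y S Λ).A v))).toRingHom.Etale := fun v => (hΛ v Λ (e1 v)).choose_spec
  refine ⟨S, Λ, ⟨FF, rfl⟩, ?_, ?_, a6⟩
  · exact
      { inj := by
          intro x y hxy
          apply Subtype.ext
          exact (algebraMap K L).injective hxy
        h_ne := hY.h_ne
        t_ne := hY.t_ne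
        t_mem := ht
        h_mem := a1
        glue := a2
        fin := g2
        etale := het
        c_le := hY.c_le
        c_supp := hY.c_supp
        t_inv := a3
        c_glue := a4
        c'_glue := a5
        nz := g3 }
  · intro v x hx
    have hx' : x ∈ Algebra.adjoin Λ (S v : Set L) := hx
    show x ∈ Y.A v
    induction hx' using Algebra.adjoin_induction with
    | mem y hy => exact hSA v hy
    | algebraMap r =>
      have : algebraMap Λ L r = algebraMap K L (r : K) := rfl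
      rw [this]
      exact (Y.A v).algebraMap_mem _
    | add x y _ _ h1 h2 => exact (Y.A v).add_mem (h1 (by assumption)) (h2 (by assumption))
    | mul x y _ _ h1 h2 => exact (Y.A v).mul_mem (h1 (by assumption)) (h2 (by assumption))

end Pool.Agent.DBX.SPR
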