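import Pool.Agent.DBX.Interface

set_option autoImplicit false

/-! # MP_2c751f_ag, squad DBX, area SPR (spreading out): definitions and statements

Target: `Stmt_INJ` from `Stmt_DI` and `Stmt_SER1`. -/

namespace Pool.Agent.DBX.SPR

open MvPolynomial

noncomputable section

universe u v w

/-! ## Part N: number theory -/

/-- Schur: a nonconstant integer polynomial has roots modulo infinitely many primes. -/
def Stmt_SCH : Prop :=
  ∀ (G : Polynomial ℤ), 0 < G.natDegree → ∀ n : ℕ, ∃ p : ℕ, p.Prime ∧ n < p ∧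
    ∃ a : ℤ, (p : ℤ) ∣ G.eval a

/-- Roots modulo `p²` for infinitely many `p`. -/
def Stmt_HEN : Prop :=
  ∀ (G : Polynomial ℤ), 0 < G.natDegree → (G.map (Int.castRingHom ℚ)).Separable →
    ∀ n : ℕ, ∃ p : ℕ, p.Prime ∧ n < p ∧ ∃ a : ℤ, ((p : ℤ) ^ 2) ∣ G.eval a

/-- Number fields: finitely many elements generate a ring with a homomorphism to `Z/p²`. -/
def Stmt_NFH : Prop :=
  ∀ (E : Type u) [Field E] [Algebra ℚ E] [FiniteDimensional ℚ E] (s : Finset E) (n : ℕ),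
    ∃ p : ℕ, p.Prime ∧ n < p ∧ Nonempty ((Algebra.adjoin ℤ (s : Set E)) →+* ZMod (p ^ 2))

/-- A finitely generated domain of characteristic zero has homomorphisms to `Z/p²` for
infinitely many `p`, with a given nonzero element mapped to a unit. -/
def Stmt_NTF : Prop :=
  ∀ (Λ : Type u) [CommRing Λ] [IsDomain Λ] [CharZero Λ] [Algebra.FiniteType ℤ Λ] (f : Λ), f ≠ 0 →
    ∀ n : ℕ, ∃ p : ℕ, p.Prime ∧ n < p ∧ ∃ φ : Λ →+* ZMod (p ^ 2), IsUnit (φ f)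

/-! ## Part F: flatness -/

/-- `N` is flat if `M` and `M/N` are flat. -/
def Stmt_FLK : Prop :=
  ∀ (Λ : Type u) (M : Type v) [CommRing Λ] [AddCommGroup M] [Module Λ M] (N : Submodule Λ M),
    Module.Flat Λ M → Module.Flat Λ (M ⧸ N) → Module.Flat Λ N

/-- `M` is flat if `N` and `M/N` are flat. -/
def Stmt_FLE : Prop :=
  ∀ (Λ : Type u) (M : Type v) [CommRing Λ] [AddCommGroup M] [Module Λ M] (N : Submodule Λ M),
    Module.Flat Λ N → Module.Flat Λ (M ⧸ N) → Module.Flat Λ M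

/-- `N ∩ J M = J N` if `M/N` is flat. -/
def Stmt_FLJ : Prop :=
  ∀ (Λ : Type u) (M : Type v) [CommRing Λ] [AddCommGroup M] [Module Λ M] (N : Submodule Λ M),
    Module.Flat Λ (M ⧸ N) → ∀ (J : Ideal Λ) (x : M), x ∈ N → x ∈ J • (⊤ : Submodule Λ M) →
      x ∈ J • N

/-- A nonzerodivisor modulo an ideal stays one after flat base change. -/
def Stmt_FLN : Prop :=
  ∀ (R : Type u) (M : Type v) [CommRing R] [AddCommGroup M] [Module R M], Module.Flat R M →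
    ∀ (I : Ideal R) (q : R), (∀ g : R, q * g ∈ I → g ∈ I) →
      ∀ x : M, q • x ∈ I • (⊤ : Submodule R M) → x ∈ I • (⊤ : Submodule R M)

section Coch

variable {Λ : Type u} {X : Type v} [CommRing Λ] [AddCommGroup X] [Module Λ X] {m : ℕ}

/-- The cochains with values in a system of submodules. -/
def Cc (O : Finset (Fin m) → Submodule Λ X) : Submodule Λ (Finset (Fin m) → X) where
  carrier := {x | x ∅ = 0 ∧ ∀ σ, σ.Nonempty → x σ ∈ O σ}
  zero_mem' := ⟨rfl, fun σ _ => (O σ).zero_mem⟩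
  add_mem' := fun {a b} ha hb => ⟨by simp [ha.1, hb.1], fun σ h => (O σ).add_mem (ha.2 σ h) (hb.2 σ h)⟩
  smul_mem' := fun r {a} ha => ⟨by simp [ha.1], fun σ h => (O σ).smul_mem r (ha.2 σ h)⟩

variable (Λ X m) in
/-- The differential as a linear map. -/
def cdL : (Finset (Fin m) → X) →ₗ[Λ] (Finset (Fin m) → X) where
  toFun := cd
  map_add' := by
    intro x y
    funext σ
    simp only [cd, Pi.add_apply, smul_add, Finset.sum_add_distrib]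
  map_smul' := by
    intro r x
    funext σ
    simp only [cd, Pi.smul_apply, RingHom.id_apply, Finset.smul_sum]
    refine Finset.sum_congr rfl fun v _ => ?_
    rw [smul_comm]

/-- Cocycles. -/
def Zc (O : Finset (Fin m) → Submodule Λ X) : Submodule Λ (Finset (Fin m) → X) :=
  Cc O ⊓ LinearMap.ker (cdL Λ X m)

/-- Coboundaries. -/
def Bc (O : Finset (Fin m) → Submodule Λ X) : Submodule Λ (Finset (Fin m) → X) :=
  Submodule.map (cdL Λ X m) (Cc O)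

/-- Cohomology. -/
abbrev Hc (O : Finset (Fin m) → Submodule Λ X) : Type _ :=
  (Zc O) ⧸ (Submodule.comap (Zc O).subtype (Bc O))

end Coch

/-- Base change for the cohomology of a system of flat modules with flat cohomology,
elementwise: (a) a cochain which is a cocycle modulo `J` is congruent to a cocycle modulo `J`;
(b) a cocycle divisible by `J` is in `J` times the cocycles. -/
def Stmt_FLC : Prop :=
  ∀ (Λ : Type u) (X : Type v) [CommRing Λ] [AddCommGroup X] [Module Λ X] (m : ℕ)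
    (O : Finset (Fin m) → Submodule Λ X),
    (∀ σ τ, σ.Nonempty → σ ⊆ τ → O σ ≤ O τ) → (∀ σ, σ.Nonempty → Module.Flat Λ (O σ)) →
    Module.Flat Λ (Hc O) → ∀ J : Ideal Λ,
      (∀ x ∈ Cc O, (∀ σ, σ.Nonempty → cd x σ ∈ J • O σ) → ∃ x' ∈ Zc O,
        ∀ σ, σ.Nonempty → x σ - x' σ ∈ J • O σ) ∧
      (∀ x ∈ Zc O, (∀ σ, σ.Nonempty → x σ ∈ J • O σ) → x ∈ J • Zc O)

/-- Saturation by the powers of `f`. -/
def sat {Λ : Type u} {X : Type v} [CommRing Λ] [AddCommGroup X] [Module Λ X] (f : Λ)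
    (C : Submodule Λ X) : Submodule Λ X where
  carrier := {x | ∃ e : ℕ, f ^ e • x ∈ C}
  zero_mem' := ⟨0, by simp⟩
  add_mem' := by
    rintro a b ⟨e, ha⟩ ⟨e', hb⟩
    refine ⟨e + e', ?_⟩
    rw [smul_add]
    refine C.add_mem ?_ ?_
    · rw [add_comm, pow_add, mul_smul]; exact C.smul_mem _ ha
    · rw [pow_add, mul_smul]; exact C.smul_mem _ hb
  smul_mem' := by
    rintro r a ⟨e, ha⟩
    exact ⟨e, by rw [smul_comm]; exact C.smul_mem _ ha⟩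

/-- Generic flatness of a finitely generated module over a noetherian domain. -/
def Stmt_GFL : Prop :=
  ∀ (Λ : Type u) (H : Type v) [CommRing Λ] [IsDomain Λ] [IsNoetherianRing Λ] [AddCommGroup H]
    [Module Λ H] [Module.Finite Λ H], ∃ f : Λ, f ≠ 0 ∧ ∀ f' : Λ, f ∣ f' → f' ≠ 0 →
      Module.Flat Λ (LocalizedModule (Submonoid.powers f') H)

/-- Generic flatness of the cohomology of the saturated system. -/
def Stmt_SFL : Prop :=
  ∀ (Λ : Type u) (X : Type v) [CommRing Λ] [IsDomain Λ] [IsNoetherianRing Λ] [AddCommGroup X]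
    [Module Λ X] (m : ℕ) (O : Finset (Fin m) → Submodule Λ X),
    (∀ a : Λ, a ≠ 0 → Function.Bijective (fun x : X => a • x)) →
    (∀ σ τ, σ.Nonempty → σ ⊆ τ → O σ ≤ O τ) →
    (∃ G : Finset (Finset (Fin m) → X), (∀ x ∈ G, x ∈ Zc O) ∧
      Zc O ≤ Submodule.span Λ (G : Set (Finset (Fin m) → X)) ⊔ Bc O) →
    ∃ f : Λ, f ≠ 0 ∧ ∀ f' : Λ, f ∣ f' → f' ≠ 0 →
      Module.Flat Λ (Hc (fun σ => sat f' (O σ)))

/-- A linear functional on `Z` which vanishes on `B` and not at `z`. -/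
def Stmt_FNC : Prop :=
  ∀ (Λ : Type u) (X : Type v) [CommRing Λ] [IsDomain Λ] [AddCommGroup X] [Module Λ X]
    (Z B : Submodule Λ X) (G : Finset X), Z ≤ Submodule.span Λ (G : Set X) ⊔ B → ∀ z ∈ Z,
    (∀ a : Λ, a ≠ 0 → a • z ∉ B) → (G : Set X) ⊆ Z →
    ∃ (μ : Z →ₗ[Λ] Λ) (b : Λ), b ≠ 0 ∧ (∀ x : Z, (x : X) ∈ B → μ x = 0) ∧
      ∀ x : Z, (x : X) = z → μ x = b

/-! ## Part E: étale ring maps -/

/-- Descent of étale coordinates to finitely generated subrings of `K`. -/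
def Stmt_ET1 : Prop :=
  ∀ (K L : Type u) [Field K] [Field L] [Algebra K L] (N : ℕ) (A : Subalgebra K L)
    (t : Fin N → A), (MvPolynomial.aeval (R := K) t).toRingHom.Etale →
    ∃ (F : Finset K) (S : Finset L), (S : Set L) ⊆ A ∧ Algebra.adjoin K (S : Set L) = A ∧
      ∀ Λ : Subalgebra ℤ K, (F : Set K) ⊆ Λ →
        ∃ ht : ∀ i, (t i : L) ∈ Algebra.adjoin Λ (S : Set L),
          (MvPolynomial.aeval (R := Λ) (fun i => (⟨(t i : L), ht i⟩ :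
            Algebra.adjoin Λ (S : Set L)))).toRingHom.Etale

/-- Étale maps modulo an ideal. -/
def Stmt_ET2 : Prop :=
  ∀ (R S R' S' : Type u) [CommRing R] [CommRing S] [CommRing R'] [CommRing S'] (f : R →+* S)
    (g : R →+* R') (q : S →+* S') (f' : R' →+* S'), f.Etale → Function.Surjective g →
    Function.Surjective q → f'.comp g = q.comp f →
    RingHom.ker q = Ideal.map f (RingHom.ker g) → f'.Etale

/-- Étale coordinates: every nonzero element divides a nonzero polynomial in the coordinates. -/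
def Stmt_EAL : Prop :=
  ∀ (K L : Type u) [Field K] [Field L] [Algebra K L] (N : ℕ) (A : Subalgebra K L)
    (t : Fin N → A), (MvPolynomial.aeval (R := K) t).toRingHom.Etale → ∀ s ∈ A, s ≠ 0 →
    ∃ q : MvPolynomial (Fin N) K, q ≠ 0 ∧ ∃ y ∈ A, MvPolynomial.aeval (fun i => (t i : L)) q = s * y

/-- Étale over a polynomial ring implies flat over the coefficients, and nonzerodivisors. -/
def Stmt_EFL : Prop :=
  ∀ (Λ L : Type u) [CommRing Λ] [Field L] [Algebra Λ L] (N : ℕ) (A : Subalgebra Λ L)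
    (t : Fin N → A), (MvPolynomial.aeval (R := Λ) t).toRingHom.Etale →
    Module.Flat Λ A ∧
    ∀ (J : Ideal Λ) (q : MvPolynomial (Fin N) Λ),
      (∀ g : MvPolynomial (Fin N) Λ, (∀ e, (q * g).coeff e ∈ J) → ∀ e, g.coeff e ∈ J) →
      ∀ x : L, x ∈ A → MvPolynomial.aeval (fun i => (t i : L)) q * x ∈ J • Subalgebra.toSubmodule A →
        x ∈ J • Subalgebra.toSubmodule A

/-! ## Part L: models over a subring -/

/-- A projective model over a ring `Λ` inside a field `L`. -/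
structure LMod (Λ L : Type u) [CommRing Λ] [Field L] [Algebra Λ L] (m N : ℕ) where
  h : Fin m → L
  A : Fin m → Subalgebra Λ L
  t : Fin m → Fin N → L
  c : Fin m → Fin N → ℕ
  c' : Fin m → Fin N → ℕ

namespace LMod

variable {Λ L : Type u} [CommRing Λ] [Field L] [Algebra Λ L] {m N : ℕ}

/-- coordinate ring of the intersection of the charts `v ∈ σ` -/
def As (Y : LMod Λ L m N) (σ : Finset (Fin m)) : Subalgebra Λ L :=
  ⨆ v ∈ σ, Y.A v

/-- `Λ[h_w/h_v : w]` -/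
def P (Y : LMod Λ L m N) (v : Fin m) : Subalgebra Λ L :=
  Algebra.adjoin Λ {z | ∃ w, z = Y.h w / Y.h v}

/-- `O(-∑ c_i D_i)` on the intersection of the charts `v ∈ σ` -/
def O (Y : LMod Λ L m N) (c : Fin m → Fin N → ℕ) (σ : Finset (Fin m)) : Submodule Λ L where
  carrier := {z | ∀ v ∈ σ, z / ∏ i, Y.t v i ^ c v i ∈ Y.As σ}
  zero_mem' := fun v _ => by rw [zero_div]; exact (Y.As σ).zero_mem
  add_mem' := fun {a b} ha hb v hv => by
    rw [add_div]; exact (Y.As σ).add_mem (ha v hv) (hb v hv)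
  smul_mem' := fun r {a} ha v hv => by
    rw [smul_div_assoc]; exact (Y.As σ).smul_mem (ha v hv) r

structure Good (Y : LMod Λ L m N) : Prop where
  inj : Function.Injective (algebraMap Λ L)
  h_ne : ∀ v, Y.h v ≠ 0
  t_ne : ∀ v i, Y.t v i ≠ 0
  t_mem : ∀ v i, Y.t v i ∈ Y.A v
  h_mem : ∀ v w, Y.h w / Y.h v ∈ Y.A v
  glue : ∀ v w, Y.A w ≤ Algebra.adjoin Λ ((Y.A v : Set L) ∪ {Y.h v / Y.h w})
  fin : ∀ v, ∃ G : Finset L, (G : Set L) ⊆ Y.A v ∧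
    ∀ x ∈ Y.A v, x ∈ Submodule.span (Y.P v) (G : Set L)
  etale : ∀ v, (MvPolynomial.aeval (R := Λ) (fun i => (⟨Y.t v i, t_mem v i⟩ : Y.A v))).toRingHom.Etale
  c_le : ∀ v i, Y.c v i ≤ 1
  c_supp : ∀ v i, Y.c v i = 0 ↔ Y.c' v i = 0
  t_inv : ∀ v i, Y.c v i = 0 → (Y.t v i)⁻¹ ∈ Y.A v
  c_glue : ∀ v w, (∏ i, Y.t v i ^ Y.c v i) / (∏ i, Y.t w i ^ Y.c w i) ∈ Y.As {v, w}
  c'_glue : ∀ v w, (∏ i, Y.t v i ^ Y.c' v i) / (∏ i, Y.t w i ^ Y.c' w i) ∈ Y.As {v, w}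
  /-- every ratio `h w / h v` divides a polynomial in the coordinates with a unit coefficient -/
  nz : ∀ v w, ∃ (q : MvPolynomial (Fin N) Λ) (d : Fin N →₀ ℕ) (y : L), IsUnit (q.coeff d) ∧
    y ∈ Y.A v ∧ MvPolynomial.aeval (Y.t v) q = Y.h w / Y.h v * y

end LMod

/-- The model over `Λ` generated by given finite sets. -/
def mdl {K L : Type u} [Field K] [Field L] [Algebra K L] {m N : ℕ} (Y : PMod K L m N)
    (S : Fin m → Finset L) (Λ : Subalgebra ℤ K) : LMod Λ L m N where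
  h := Y.h
  A := fun v => Algebra.adjoin Λ (S v : Set L)
  t := Y.t
  c := Y.c
  c' := Y.c'

/-! ### Properties of good models -/

/-- `A_σ` is the localisation of `A_v` at the ratios `h w / h v`, `w ∈ σ`. -/
def Stmt_LAS : Prop :=
  ∀ (Λ L : Type u) [CommRing Λ] [Field L] [Algebra Λ L] (m N : ℕ) (Y : LMod Λ L m N), Y.Good →
    (∀ σ v, v ∈ σ → ∀ x : L, x ∈ Y.As σ ↔ ∃ e : ℕ, x * (∏ w ∈ σ, Y.h w / Y.h v) ^ e ∈ Y.A v) ∧
    (∀ σ v w, v ∈ σ → w ∈ σ → Y.h w / Y.h v ∈ Y.As σ)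

/-- `O(c)(σ)` is `∏ t_v^c · A_σ` for every `v ∈ σ`; it is monotone in `σ`, and
`O(c') ⊆ O(c)`. -/
def Stmt_LOO : Prop :=
  ∀ (Λ L : Type u) [CommRing Λ] [Field L] [Algebra Λ L] (m N : ℕ) (Y : LMod Λ L m N), Y.Good →
    (∀ d : Fin m → Fin N → ℕ, d = Y.c ∨ d = Y.c' →
      (∀ σ v, v ∈ σ → ∀ z : L, z ∈ Y.O d σ ↔ z / ∏ i, Y.t v i ^ d v i ∈ Y.As σ) ∧
      (∀ σ τ : Finset (Fin m), σ.Nonempty → σ ⊆ τ → Y.O d σ ≤ Y.O d τ)) ∧
    (∀ σ : Finset (Fin m), σ.Nonempty → Y.O Y.c' σ ≤ Y.O Y.c σ)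

/-- Finiteness of the cohomology, from Serre's theorem. -/
def Stmt_LCO : Prop :=
  ∀ (Λ L : Type u) [CommRing Λ] [Field L] [Algebra Λ L] [IsNoetherianRing Λ] (m N : ℕ)
    (Y : LMod Λ L m N), Y.Good → ∀ d : Fin m → Fin N → ℕ, d = Y.c ∨ d = Y.c' →
      ∃ G : Finset (Finset (Fin m) → L), (∀ x ∈ G, x ∈ Zc (Y.O d)) ∧
        Zc (Y.O d) ≤ Submodule.span Λ (G : Set (Finset (Fin m) → L)) ⊔ Bc (Y.O d)

/-- The saturation of a flat submodule is flat. -/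
def Stmt_FLS : Prop :=
  ∀ (Λ : Type u) (X : Type v) [CommRing Λ] [AddCommGroup X] [Module Λ X] (f : Λ)
    (C : Submodule Λ X), Function.Bijective (fun x : X => f • x) → Module.Flat Λ C →
    Module.Flat Λ (sat f C)

namespace LMod

variable {Λ L : Type u} [CommRing Λ] [Field L] [Algebra Λ L] {m N : ℕ}

/-- The coordinate ring of the intersection of all charts minus the divisor. -/
def QL (Y : LMod Λ L m N) : Subalgebra Λ L :=
  Algebra.adjoin Λ ({z | ∃ v, z ∈ Y.A v} ∪ {z | ∃ v i, z = (Y.t v i)⁻¹})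

end LMod

/-- `QL` is the localisation of every `A_v`. -/
def Stmt_LQL : Prop :=
  ∀ (Λ L : Type u) [CommRing Λ] [Field L] [Algebra Λ L] (m N : ℕ) (Y : LMod Λ L m N), Y.Good →
    ∀ v, ∀ x ∈ Y.QL, ∃ e : ℕ, x * (∏ w, Y.h w / Y.h v) ^ e * (∏ i, Y.t v i ^ Y.c v i) ^ e ∈ Y.A v

/-- Flatness. -/
def Stmt_LFL : Prop :=
  ∀ (Λ L : Type u) [CommRing Λ] [Field L] [Algebra Λ L] (m N : ℕ) (Y : LMod Λ L m N), Y.Good →
    (∀ d : Fin m → Fin N → ℕ, d = Y.c ∨ d = Y.c' → ∀ σ : Finset (Fin m), σ.Nonempty →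
      Module.Flat Λ (Y.O d σ)) ∧ (0 < m → Module.Flat Λ Y.QL)

/-- Polynomials with a unit coefficient are nonzerodivisors modulo `J`. -/
def NZJ {Λ : Type u} [CommRing Λ] (N : ℕ) (J : Ideal Λ) : Prop :=
  ∀ (q : MvPolynomial (Fin N) Λ) (d : Fin N →₀ ℕ), IsUnit (q.coeff d) →
    ∀ g : MvPolynomial (Fin N) Λ, (∀ e, (q * g).coeff e ∈ J) → ∀ e, g.coeff e ∈ J

/-- McCoy for `Z/p²` and `Z/p`. -/
def Stmt_MCC : Prop :=
  ∀ (Λ : Type u) [CommRing Λ] (N p : ℕ) [Fact p.Prime] (φ : Λ →+* ZMod (p ^ 2)),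
    NZJ N (RingHom.ker φ) ∧ NZJ N (Ideal.comap φ (Ideal.span {(p : ZMod (p ^ 2))})) ∧
    (Ideal.comap φ (Ideal.span {(p : ZMod (p ^ 2))})).IsPrime

/-- `A_σ ∩ J QL = J A_σ` and `O(c)(σ) ∩ J QL = J O(c)(σ)`. -/
def Stmt_LSA : Prop :=
  ∀ (Λ L : Type u) [CommRing Λ] [Field L] [Algebra Λ L] (m N : ℕ) (Y : LMod Λ L m N), Y.Good →
    ∀ J : Ideal Λ, NZJ N J →
      (∀ σ : Finset (Fin m), σ.Nonempty → ∀ x ∈ Y.As σ, x ∈ J • Subalgebra.toSubmodule Y.QL →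
        x ∈ J • Subalgebra.toSubmodule (Y.As σ)) ∧
      (∀ d : Fin m → Fin N → ℕ, d = Y.c ∨ d = Y.c' → ∀ σ : Finset (Fin m), σ.Nonempty →
        ∀ x ∈ Y.O d σ, x ∈ J • Subalgebra.toSubmodule Y.QL → x ∈ J • Y.O d σ)

/-! ## Part R: reduction modulo `p²` -/

/-- `D` is the reduction of `Y` along `φ : Λ → Z/p²`. -/
structure Red {Λ L : Type u} [CommRing Λ] [Field L] [Algebra Λ L] {m N : ℕ}
    (Y : LMod Λ L m N) {p : ℕ} (φ : Λ →+* ZMod (p ^ 2)) {Q : Type u} [CommRing Q]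
    [Algebra (ZMod (p ^ 2)) Q] (π : Y.QL →+* Q) (D : DMod p Q m N) : Prop where
  surj : Function.Surjective π
  ker : ∀ x : Y.QL, π x = 0 ↔ (x : L) ∈ RingHom.ker φ • Subalgebra.toSubmodule Y.QL
  alg : ∀ a : Λ, π (algebraMap Λ Y.QL a) = algebraMap (ZMod (p ^ 2)) Q (φ a)
  h_eq : ∀ v w (x : Y.QL), (x : L) = Y.h w / Y.h v → π x = (D.h w : Q) * ((D.h v)⁻¹ : Qˣ)
  t_eq : ∀ v i (x : Y.QL), (x : L) = Y.t v i → π x = (D.t v i : Q)
  A_eq : ∀ v (a : Q), a ∈ D.A v ↔ ∃ x : Y.QL, (x : L) ∈ Y.A v ∧ π x = a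
  c_eq : D.c = Y.c
  c'_eq : D.c' = Y.c'

/-- Existence of the reduction. -/
def Stmt_RQ : Prop :=
  ∀ (Λ L : Type u) [CommRing Λ] [Field L] [Algebra Λ L] (m N : ℕ) (Y : LMod Λ L m N), Y.Good →
    0 < m → ∀ (p : ℕ) [Fact p.Prime] (φ : Λ →+* ZMod (p ^ 2)),
      ∃ (Q : Type u) (_ : CommRing Q) (_ : Algebra (ZMod (p ^ 2)) Q) (π : Y.QL →+* Q)
        (D : DMod p Q m N), Red Y φ π D

/-- The chart rings of the reduction: étale coordinates. -/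
def Stmt_RET : Prop :=
  ∀ (Λ L : Type u) [CommRing Λ] [Field L] [Algebra Λ L] (m N : ℕ) (Y : LMod Λ L m N), Y.Good →
    0 < m → ∀ (p : ℕ) [Fact p.Prime] (φ : Λ →+* ZMod (p ^ 2)) (Q : Type u) [CommRing Q]
      [Algebra (ZMod (p ^ 2)) Q] (π : Y.QL →+* Q) (D : DMod p Q m N), Red Y φ π D →
    ∃ t_mem : ∀ v i, (D.t v i : Q) ∈ D.A v, ∀ v,
      (MvPolynomial.aeval (R := ZMod (p ^ 2))
        (fun i => (⟨(D.t v i : Q), t_mem v i⟩ : D.A v))).toRingHom.Etale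

/-- The reduction: flatness over `Z/p²` and saturation of the chart rings. -/
def Stmt_RFL : Prop :=
  ∀ (Λ L : Type u) [CommRing Λ] [Field L] [Algebra Λ L] (m N : ℕ) (Y : LMod Λ L m N), Y.Good →
    0 < m → ∀ (p : ℕ) [Fact p.Prime] (φ : Λ →+* ZMod (p ^ 2)) (Q : Type u) [CommRing Q]
      [Algebra (ZMod (p ^ 2)) Q] (π : Y.QL →+* Q) (D : DMod p Q m N), Red Y φ π D →
    (∀ x : Q, (p : Q) * x = 0 → ∃ y, x = (p : Q) * y) ∧
    (∀ σ, σ.Nonempty → ∀ x : Q, (p : Q) * x ∈ D.As σ → ∃ y ∈ D.As σ, (p : Q) * y = (p : Q) * x)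

/-- The reduction is a good model over `Z/p²`. -/
def Stmt_RGO : Prop :=
  ∀ (Λ L : Type u) [CommRing Λ] [Field L] [Algebra Λ L] (m N : ℕ) (Y : LMod Λ L m N), Y.Good →
    0 < m → ∀ (p : ℕ) [Fact p.Prime] (φ : Λ →+* ZMod (p ^ 2)), (∀ v i, Y.c' v i ≤ p) →
      ∀ (Q : Type u) [CommRing Q]
      [Algebra (ZMod (p ^ 2)) Q] (π : Y.QL →+* Q) (D : DMod p Q m N), Red Y φ π D → D.Good

/-- Surjectivity modulo `p`, lifted to `Λ`. -/
def Stmt_RED : Prop :=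
  ∀ (Λ L : Type u) [CommRing Λ] [Field L] [Algebra Λ L] (m N : ℕ) (Y : LMod Λ L m N), Y.Good →
    ∀ (p : ℕ) [Fact p.Prime] (φ : Λ →+* ZMod (p ^ 2)), (∀ v i, Y.c' v i ≤ p) → N < p →
      ∀ z ∈ Zc (Y.O Y.c), ∃ z' ∈ Cc (Y.O Y.c'), ∃ y ∈ Cc (Y.O Y.c),
        (∀ σ : Finset (Fin m), σ.Nonempty →
          cd z' σ ∈ Ideal.comap φ (Ideal.span {(p : ZMod (p ^ 2))}) • Y.O Y.c' σ) ∧
        (∀ σ : Finset (Fin m), σ.Nonempty →
          z σ - z' σ - cd y σ ∈ Ideal.comap φ (Ideal.span {(p : ZMod (p ^ 2))}) • Y.O Y.c σ)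

/-! ## Part S: spreading out -/

/-- An element of a finitely generated algebra is defined over a finitely generated ring. -/
def Stmt_SPA : Prop :=
  ∀ (K L : Type u) [Field K] [Field L] [Algebra K L] (S : Set L) (x : L),
    x ∈ Algebra.adjoin K S → ∃ F : Finset K, ∀ Λ : Subalgebra ℤ K, (F : Set K) ⊆ Λ →
      x ∈ Algebra.adjoin Λ S

/-- Finiteness over the subring `Λ[h_w/h_v]`. -/
def Stmt_SPF : Prop :=
  ∀ (K L : Type u) [Field K] [Field L] [Algebra K L] (m N : ℕ) (Y : PMod K L m N)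
    (S : Fin m → Finset L), Y.Good → (∀ v, Algebra.adjoin K (S v : Set L) = Y.A v) →
    ∃ F : Finset K, ∀ Λ : Subalgebra ℤ K, (F : Set K) ⊆ Λ →
      ∀ v, ∃ G : Finset L, (G : Set L) ⊆ (mdl Y S Λ).A v ∧
        ∀ x ∈ (mdl Y S Λ).A v, x ∈ Submodule.span ((mdl Y S Λ).P v) (G : Set L)

/-- The ratios of the `h v` divide polynomials with a unit coefficient. -/
def Stmt_SPN : Prop :=
  ∀ (K L : Type u) [Field K] [Field L] [Algebra K L] (m N : ℕ) (Y : PMod K L m N)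
    (S : Fin m → Finset L), Y.Good → (∀ v, Algebra.adjoin K (S v : Set L) = Y.A v) →
    ∃ F : Finset K, ∀ Λ : Subalgebra ℤ K, (F : Set K) ⊆ Λ →
      ∀ v w, ∃ (q : MvPolynomial (Fin N) Λ) (d : Fin N →₀ ℕ) (y : L), IsUnit (q.coeff d) ∧
        y ∈ (mdl Y S Λ).A v ∧ MvPolynomial.aeval (Y.t v) q = Y.h w / Y.h v * y

/-- All other relations. -/
def Stmt_SPH : Prop :=
  ∀ (K L : Type u) [Field K] [Field L] [Algebra K L] (m N : ℕ) (Y : PMod K L m N)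
    (S : Fin m → Finset L), Y.Good → (∀ v, Algebra.adjoin K (S v : Set L) = Y.A v) →
    ∀ z : Finset (Fin m) → L, InC (Y.O Y.c) z →
    ∃ F : Finset K, ∀ Λ : Subalgebra ℤ K, (F : Set K) ⊆ Λ →
      (∀ v w, Y.h w / Y.h v ∈ (mdl Y S Λ).A v) ∧
      (∀ v w, (mdl Y S Λ).A w ≤
        Algebra.adjoin Λ (((mdl Y S Λ).A v : Set L) ∪ {Y.h v / Y.h w})) ∧
      (∀ v i, Y.c v i = 0 → (Y.t v i)⁻¹ ∈ (mdl Y S Λ).A v) ∧
      (∀ v w, (∏ i, Y.t v i ^ Y.c v i) / (∏ i, Y.t w i ^ Y.c w i) ∈ (mdl Y S Λ).As {v, w}) ∧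
      (∀ v w, (∏ i, Y.t v i ^ Y.c' v i) / (∏ i, Y.t w i ^ Y.c' w i) ∈ (mdl Y S Λ).As {v, w}) ∧
      z ∈ Cc ((mdl Y S Λ).O Y.c)

/-- Spreading out of the model and of a cochain. -/
def Stmt_SPM : Prop :=
  ∀ (K L : Type u) [Field K] [Field L] [Algebra K L] (m N : ℕ) (Y : PMod K L m N), Y.Good →
    ∀ z : Finset (Fin m) → L, InC (Y.O Y.c) z →
    ∃ (S : Fin m → Finset L) (Λ : Subalgebra ℤ K), Λ.FG ∧ (mdl Y S Λ).Good ∧
      (∀ v, ((mdl Y S Λ).A v : Set L) ⊆ Y.A v) ∧ z ∈ Cc ((mdl Y S Λ).O Y.c)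

/-! ## The end -/

/-- The abstract core of the argument: surjectivity modulo many primes implies surjectivity
up to torsion. -/
def Stmt_COR : Prop :=
  ∀ (Λ : Type u) (X : Type v) [CommRing Λ] [IsDomain Λ] [IsNoetherianRing Λ] [AddCommGroup X]
    [Module Λ X] (m : ℕ) (O O' : Finset (Fin m) → Submodule Λ X),
    (∀ a : Λ, a ≠ 0 → Function.Bijective (fun x : X => a • x)) →
    (∀ σ τ, σ.Nonempty → σ ⊆ τ → O σ ≤ O τ) → (∀ σ τ, σ.Nonempty → σ ⊆ τ → O' σ ≤ O' τ) →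
    (∀ σ, σ.Nonempty → O' σ ≤ O σ) →
    (∀ σ, σ.Nonempty → Module.Flat Λ (O σ)) → (∀ σ, σ.Nonempty → Module.Flat Λ (O' σ)) →
    (∃ G : Finset (Finset (Fin m) → X), (∀ x ∈ G, x ∈ Zc O) ∧
      Zc O ≤ Submodule.span Λ (G : Set (Finset (Fin m) → X)) ⊔ Bc O) →
    (∃ G : Finset (Finset (Fin m) → X), (∀ x ∈ G, x ∈ Zc O') ∧
      Zc O' ≤ Submodule.span Λ (G : Set (Finset (Fin m) → X)) ⊔ Bc O') →
    ∀ z ∈ Zc O,
    (∀ f : Λ, f ≠ 0 → ∃ J : Ideal Λ, J.IsPrime ∧ f ∉ J ∧ ∃ z' ∈ Cc O', ∃ y ∈ Cc O,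
      (∀ σ, σ.Nonempty → cd z' σ ∈ J • O' σ) ∧
      (∀ σ, σ.Nonempty → z σ - z' σ - cd y σ ∈ J • O σ)) →
    ∃ a : Λ, a ≠ 0 ∧ a • z ∈ Zc O' ⊔ Bc O

end

end Pool.Agent.DBX.SPR
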